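import Pool.Agent.Helper70.FW.Bri

/-!
# Theorem FW in finite form gives theorem WVQ (the form of `Helper13.AM.ST_WVQ`)
-/

set_option autoImplicit false

namespace Pool.Agent.Helper70.FW

theorem wvq_all (h : ∀ (N : ℕ) (ρ : ℝ), 0 < ρ → ρ ≤ 1 → TOPF N ρ 0 (ρ ^ 2 / 256)) :
    ∀ (N : ℕ) (ρ : ℝ), 0 < ρ → ρ ≤ 1 → ∃ θ : ℝ, 0 < θ ∧ θ ≤ 1 ∧ Pool.Agent.Helper38.NS.WVQ N ρ θ := by
  intro N ρ h0 h1
  have hκ : ρ ^ 2 / 256 ≤ 1 := by nlinarith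
  refine ⟨ρ * (ρ * (ρ ^ 2 / 256) - 0) - 0, by
    have : 0 < ρ * (ρ * (ρ ^ 2 / 256)) := by positivity
    linarith, ?_, ?_⟩
  · have h2 : ρ * (ρ ^ 2 / 256) ≤ 1 * 1 := mul_le_mul h1 hκ (by positivity) (by norm_num)
    have h3 : 0 ≤ ρ * (ρ ^ 2 / 256) := by positivity
    nlinarith
  · exact wvq_of_top h0.le le_rfl (by positivity) (by positivity) hκ (h N ρ h0 h1)

end Pool.Agent.Helper70.FW
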