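import Pool.Agent.Helper70.FW.Rat

/-! Theorem FW, (0.2) in the exact calculus: a real noise `z₁ = z₀ + τ s`, `s` a function of `(B, X)`, `z₁` unsaturated
over `B` and full modulo every vector known to `(B, X)`: then `s` is small. Nothing is assumed of `z₀` but that `τ` is
real over it. -/

set_option autoImplicit false

namespace Pool.Agent.Helper70.FW

open Finset Filter Topology Pool.Agent.Helper69.RK Pool.Agent.Helper31.EC

noncomputable section

open Sp QS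

variable {S : Sp}

/-- a vector with a zero coordinate -/
theorem H_vd_zero {ν : Type} [Fintype ν] (u : ν → QS S) (a : ν) (ha : u a = 0) (A : S.L) :
    Helper31.EC.h (vd u 1) A ≤ Fintype.card ν - 1 := by
  classical
  have h1 : vd u 1 ≤ sd u (univ.erase a) := by
    rw [vd_le]
    intro i
    by_cases hi : i = a
    · rw [hi, ha, ← mk_rep (0 : QS S)]
      have h2 : dg (0 : QS S) 1 = ⊥ := dg_of_mem_Id (mem_Id_one.mpr rfl) le_rfl le_rfl
      rw [mk_rep, h2]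
      exact bot_le
    · exact dg_le_sd u (mem_erase.mpr ⟨hi, mem_univ i⟩)
  have h3 := h_sd_le u (univ.erase a) A
  rw [card_erase_of_mem (mem_univ a), card_univ] at h3
  have h4 : ((Fintype.card ν - 1 : ℕ) : ℝ) = Fintype.card ν - 1 := by
    have : 0 < Fintype.card ν := Fintype.card_pos_iff.mpr ⟨a⟩
    rw [Nat.cast_sub (by omega)]
    norm_num
  rw [h4] at h3
  exact (h_mono h1).trans h3

/-- **real noises** -/
theorem noise {ν : Type} [Fintype ν] (B X : S.L) (z0 z1 s : ν → QS S) (τ : QS S) {ρ y : ℝ} (hρ : ρ ≤ 1)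
    (hy : 0 ≤ y) (hy1 : y ≤ 1)
    (hU : ∀ (E : ∀ k, (S.F k).Ω → Prop) (hE : 0 < ul (S.pr E)),
      Helper31.EC.h (restL E hE (vd z1 1)) (restL E hE B) ≤ Fintype.card ν - ρ)
    (hQ : ∀ (w : ν → QS S) (a : ν), w a = 1 → (∀ i, dg (w i) 1 ≤ B ⊔ X) →
      (Fintype.card ν : ℝ) - 1 ≤ Helper31.EC.h (vd (fun i => z1 i - w i * z1 a) 1) (B ⊔ X))
    (h01 : ∀ i, z1 i = z0 i + τ * s i) (hs : vd s 1 ≤ B ⊔ X) (hτ : τ ∈ Id S y)
    (hr : Helper31.EC.h (dg τ 1) (vd z0 1 ⊔ (B ⊔ X)) = 1 - y) : ∀ i, s i ∈ Id S (ρ - y) := by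
  rcases le_total ρ y with hρy | hρy
  · intro i
    exact mem_Id_nonpos (by linarith)
  by_contra hcon
  obtain ⟨δ, a, w, E, hE, hδ, hwa, hwd, hsw, hdiv⟩ := ratio' s (show ρ - y ≤ 1 by linarith) hcon
  obtain ⟨F, hF⟩ : ∃ F, F = B ⊔ X := ⟨_, rfl⟩
  rw [← hF] at hs hr
  have hwF : ∀ i, dg (w i) 1 ≤ F := fun i => (hwd i).trans hs
  obtain ⟨u, hu⟩ : ∃ u : ν → QS S, u = fun i => z1 i - w i * z1 a := ⟨_, rfl⟩
  obtain ⟨v, hv⟩ : ∃ v : ν → QS S, v = fun i => z0 i - w i * z0 a := ⟨_, rfl⟩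
  have hQ1 := hQ w a hwa (by rw [← hF]; exact hwF)
  rw [← hu, ← hF] at hQ1
  -- the wedges agree on the event
  have huv : ∀ i, QS.rest E hE (u i) = QS.rest E hE (v i) := by
    intro i
    rw [hu, hv]
    simp only [h01, map_sub, map_mul, map_add]
    rw [hsw i]
    ring
  have hua : ∀ (E' : ∀ k, (S.F k).Ω → Prop) (hE' : 0 < ul (S.pr E')),
      Helper31.EC.h (restL E' hE' (vd u 1)) (restL E' hE' F) ≤ Fintype.card ν - 1 := by
    intro E' hE'
    rw [← QS.rest_vd]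
    apply H_vd_zero _ a
    show QS.rest E' hE' (u a) = 0
    rw [hu]
    simp only
    rw [hwa, one_mul, sub_self, map_zero]
  have hQ2 : Helper31.EC.h (vd u 1) F = Fintype.card ν - 1 := by
    apply le_antisymm _ hQ1
    apply H_vd_zero u a
    rw [hu]
    simp only
    rw [hwa, one_mul, sub_self]
  have hQ3 := Sp.h_rest_max E hE hQ2 hua
  -- the restricted informations
  obtain ⟨Z1, hZ1⟩ : ∃ Z1, Z1 = restL E hE (vd z1 1) := ⟨_, rfl⟩
  obtain ⟨Z0, hZ0⟩ : ∃ Z0, Z0 = restL E hE (vd z0 1) := ⟨_, rfl⟩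
  obtain ⟨G, hG⟩ : ∃ G, G = restL E hE F := ⟨_, rfl⟩
  obtain ⟨U, hUd⟩ : ∃ U, U = restL E hE (vd u 1) := ⟨_, rfl⟩
  rw [← hUd, ← hG] at hQ3
  have hUZ : U ≤ Z1 ⊔ G := by
    rw [hUd, hZ1, hG, ← restL_sup]
    apply restL_mono
    rw [vd_le]
    intro i
    rw [hu]
    apply Pool.Agent.Helper82.TP.dg_sub_le' _ _ le_rfl ((dg_le_vd z1 1 i).trans le_sup_left)
    exact Pool.Agent.Helper82.TP.dg_mul_le' _ _ le_rfl ((hwF i).trans le_sup_right)
      ((dg_le_vd z1 1 a).trans le_sup_left)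
  have hUZ0 : U ≤ Z0 ⊔ G := by
    have e1 : U = restL E hE (vd v 1) := by
      rw [hUd, ← QS.rest_vd, ← QS.rest_vd]
      congr 1
      funext i
      exact huv i
    rw [e1, hZ0, hG, ← restL_sup]
    apply restL_mono
    rw [vd_le]
    intro i
    rw [hv]
    apply Pool.Agent.Helper82.TP.dg_sub_le' _ _ le_rfl ((dg_le_vd z0 1 i).trans le_sup_left)
    exact Pool.Agent.Helper82.TP.dg_mul_le' _ _ le_rfl ((hwF i).trans le_sup_right)
      ((dg_le_vd z0 1 a).trans le_sup_left)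
  -- the noise is visible
  obtain ⟨m, hm⟩ : ∃ m, m = min 1 (1 - (ρ - y) + δ) := ⟨_, rfl⟩
  have hm1 : m ≤ 1 := by rw [hm]; exact min_le_left _ _
  have hm2 : m ≤ 1 - (ρ - y) + δ := by rw [hm]; exact min_le_right _ _
  have hd := hdiv τ m hm1 hm2
  have hd2 : dg (QS.rest E hE τ) m ≤ Z1 ⊔ (Z0 ⊔ G) := by
    refine hd.trans (sup_le ?_ ?_)
    · have e1 : τ * s a = z1 a - z0 a := by rw [h01 a]; ring
      rw [e1, QS.rest_dg, hZ1, hZ0, hG, ← restL_sup, ← restL_sup]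
      apply restL_mono
      exact Pool.Agent.Helper82.TP.dg_sub_le' _ _ le_rfl ((dg_le_vd z1 1 a).trans le_sup_left)
        ((dg_le_vd z0 1 a).trans (le_sup_left.trans le_sup_right))
    · rw [QS.rest_dg, hG]
      refine le_trans ?_ (le_sup_right.trans le_sup_right)
      exact restL_mono E hE ((dg_le_vd s 1 a).trans hs)
  have hf := Pool.Agent.Helper81.TP.fine_rest τ (vd z0 1 ⊔ F) y hy1 hτ hr E hE
  rw [restL_sup, ← hZ0, ← hG, ← QS.rest_dg] at hf
  have hf2 := Pool.Agent.Helper81.TP.h_fine (QS.rest E hE τ) (Z0 ⊔ G) y hf hm1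
  -- count
  have c1 : Helper31.EC.h Z1 G ≤ Fintype.card ν - ρ := by
    have e1 := hU E hE
    rw [← hZ1] at e1
    refine le_trans (h_anti ?_) e1
    rw [hG, hF]
    exact restL_mono E hE le_sup_left
  have c2 : Helper31.EC.h Z1 G = Helper31.EC.h U G + Helper31.EC.h Z1 (U ⊔ G) := by
    rw [← h_chain]
    apply h_congr_left
    · exact le_sup_right.trans le_sup_left
    · exact sup_le hUZ le_sup_left
  have c3 : Helper31.EC.h Z1 (Z0 ⊔ G) ≤ Helper31.EC.h Z1 (U ⊔ G) := h_anti (sup_le hUZ0 le_sup_right)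
  have c4 : Helper31.EC.h (dg (QS.rest E hE τ) m) (Z0 ⊔ G) ≤ Helper31.EC.h Z1 (Z0 ⊔ G) := by
    refine (h_mono (A' := Z1 ⊔ (Z0 ⊔ G)) hd2).trans (le_of_eq ?_)
    exact h_sup_right_of_le le_rfl
  rw [c2, hQ3] at c1
  have c5 : m - y ≤ 1 - ρ := by linarith
  rw [hm] at c5
  rcases le_total 1 (1 - (ρ - y) + δ) with h6 | h6
  · rw [min_eq_left h6] at c5
    have h7 : ρ ≤ y := by linarith
    -- then `ρ = y`, the level is zero
    have h8 : ρ - y ≤ 0 := by linarith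
    exact hcon fun i => mem_Id_nonpos h8
  · rw [min_eq_right h6] at c5
    linarith

end

end Pool.Agent.Helper70.FW
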