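import Pool.Agent.Helper38.NS.UQ
import Pool.Agent.Helper38.NS.AbsV
import Pool.Agent.Helper70.FW.Noise

/-! Theorem FW, end of the proof in the exact calculus: tubes at one level on both sides imply that the noise
`T C - A T'` is small. -/

set_option autoImplicit false

namespace Pool.Agent.Helper70.FW

open Finset Filter Topology Pool.Agent.Helper69.RK Pool.Agent.Helper31.EC Pool.Agent.Helper38.NS

noncomputable section

open Sp QS

variable {S : Sp} {ν : Type} [Fintype ν] {z : ν → QS S} {B : S.L} {ρ : ℝ}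

/-- the deficit is at most one -/
theorem UQ_le_one (hu : UQ S z B ρ) (a : ν) : ρ ≤ 1 := by
  classical
  have h1 := hu.Q S (Pj.id S) ⊥ (fun i => if i = a then 1 else 0) a 1 zero_le_one le_rfl
    (I_zero_of_le_right bot_le) (fun i => by
      by_cases hi : i = a
      · simp only [hi, if_true]
        exact (Kn S 1 le_rfl _).one_mem
      · simp only [if_neg hi]
        exact (Kn S 1 le_rfl _).zero_mem) (by simp)
  have h2 := hu.U S (Pj.id S) (fun _ _ => True) (ul_pr_typ_pos _ Typ_true) 1 zero_le_one le_rfl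
  rw [h_restL_typ _ Typ_true, Pj.id_map, Pj.id_map] at h2
  rw [Pj.id_map, sup_bot_eq] at h1
  have h3 : Helper31.EC.h (vd (fun i => (Pj.id S).qs (z i) * (if a = a then 1 else 0) -
      (Pj.id S).qs (z a) * (if i = a then 1 else 0)) 1) B ≤ Helper31.EC.h (vd z 1) B := by
    have e1 : vd (fun i => (Pj.id S).qs (z i) * (if a = a then 1 else 0) -
      (Pj.id S).qs (z a) * (if i = a then 1 else 0)) 1 ≤ vd z 1 := by
      rw [vd_le]
      intro i
      apply (Kn S 1 le_rfl _).sub_mem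
      · apply (Kn S 1 le_rfl _).mul_mem
        · show dg _ 1 ≤ _
          rw [Pj.id_qs]
          exact dg_le_vd z 1 i
        · simp only [if_true]
          exact (Kn S 1 le_rfl _).one_mem
      · apply (Kn S 1 le_rfl _).mul_mem
        · show dg _ 1 ≤ _
          rw [Pj.id_qs]
          exact dg_le_vd z 1 a
        · by_cases hi : i = a
          · simp only [hi, if_true]
            exact (Kn S 1 le_rfl _).one_mem
          · simp only [if_neg hi]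
            exact (Kn S 1 le_rfl _).zero_mem
    exact h_mono e1
  linarith

/-- real noises of a vector with a deficit whose quotients are full -/
theorem UQ_noise (hu : UQ S z B ρ) {D : Sp} (P : Pj D S) (z0 s : ν → QS D) (τ : QS D) (X : D.L) {y : ℝ}
    (hy0 : 0 ≤ y) (hy1 : y ≤ 1) (h01 : ∀ i, P.qs (z i) = z0 i + τ * s i)
    (hi : I (P.map (vd z 1)) X (P.map B) = 0) (hs : vd s 1 ≤ P.map B ⊔ X) (hτ : τ ∈ Id D y)
    (hr : Helper31.EC.h (dg τ 1) (vd z0 1 ⊔ (P.map B ⊔ X)) = 1 - y) : ∀ i, s i ∈ Id D (ρ - y) := by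
  intro i
  have hρ := UQ_le_one hu i
  refine noise (P.map B) X z0 (fun i => P.qs (z i)) s τ hρ hy0 hy1 ?_ ?_ h01 hs hτ hr i
  · intro E hE
    have h2 := hu.U D P E hE 1 zero_le_one le_rfl
    rw [P.qs_vd]
    linarith
  · intro w a hwa hw
    have h2 := hu.Q D P X w a 1 zero_le_one le_rfl hi hw (by rw [hwa]; exact isUnit_one)
    rw [mul_one] at h2
    rw [← h2]
    apply le_of_eq
    congr 2
    funext j
    rw [hwa]
    ring

/-- the same for a noise known to depth `κ` -/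
theorem UQ_noise_dp (hu : UQ S z B ρ) {κ : ℝ} (h0 : 0 < κ) (h1 : κ ≤ 1) {D : Sp} (P : Pj D S)
    (z0 s : ν → QS D) (τ : QS D) (X : D.L) {l : ℝ} (hl : 0 ≤ l) (hlk : l ≤ κ)
    (h01 : ∀ i, P.qs (z i) - (z0 i + τ * s i) ∈ Id D κ)
    (hi : I (P.map (vd z 1)) X (P.map B) = 0) (hs : vd s 1 ≤ P.map B ⊔ X) (hτ : τ ∈ Id D l)
    (hr : κ - l ≤ Helper31.EC.h (dg τ κ) (vd z0 1 ⊔ (P.map B ⊔ X))) : ∀ i, s i ∈ Id D (ρ * κ - l) := by
  intro i
  have hρ := UQ_le_one hu i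
  have hl1 : l / κ ≤ 1 := by rwa [div_le_one h0]
  have hl0 : 0 ≤ l / κ := by positivity
  have hkl : κ * (l / κ) = l := by field_simp
  have hu2 := (hu.pull P).dp κ h0 h1
  have h2 := UQ_noise hu2 (Pj.id (dp D κ h0)) (fun i => dQ κ h0 h1 (z0 i)) (fun i => dQ κ h0 h1 (s i))
    (dQ κ h0 h1 τ) (dL κ h0 X) hl0 hl1 ?_ ?_ ?_ ?_ ?_ i
  · rw [dQ_mem κ h0 h1 (by linarith)] at h2
    refine Id_anti (le_of_eq ?_) h2
    have : κ * (ρ - l / κ) = ρ * κ - κ * (l / κ) := by ring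
    rw [this, hkl]
  · intro j
    rw [Pj.id_qs]
    have e1 : dQ κ h0 h1 (P.qs (z j) - (z0 j + τ * s j)) = 0 := (dQ_eq_zero κ h0 h1).mpr (h01 j)
    rw [map_sub, map_add, map_mul, sub_eq_zero] at e1
    exact e1
  · rw [Pj.id_map, Pj.id_map, dQ_vd κ h0 h1 _ le_rfl, mul_one]
    apply dL_I_zero
    refine I_zero_mono hi ?_ le_sup_left
    rw [P.qs_vd]
    exact (P.map_mono (vd_mono z h1)).trans le_sup_left
  · rw [Pj.id_map, ← dL_sup, dQ_vd κ h0 h1 _ le_rfl, mul_one]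
    exact dL_mono κ h0 ((vd_mono s h1).trans hs)
  · rw [dQ_mem κ h0 h1 hl1, hkl]
    exact hτ
  · rw [Pj.id_map, ← dL_sup, dQ_vd κ h0 h1 _ le_rfl, mul_one, ← dL_sup, dQ_dg κ h0 h1 _ le_rfl, mul_one, dL_h]
    have e2 : Helper31.EC.h (dg τ κ) (vd z0 κ ⊔ (P.map B ⊔ X)) = κ - l := by
      apply le_antisymm
      · have e3 := h_dg_dg τ hlk
        rw [dg_of_mem_Id hτ le_rfl (hlk.trans h1), h_bot] at e3
        exact (h_le_H _ _).trans e3
      · exact hr.trans (h_anti (sup_le_sup_right (vd_mono z0 h1) _))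
    rw [e2]
    field_simp

/-- the block of theorem FW over the variables `f`; `c` is a sign -/
structure Blk (S : Sp) {ν : Type} [Fintype ν] {ι : Type} [Fintype ι] (c : QS S) (f : ι → QS S) (z z3 : ν → QS S)
    (T T' : QS S) (A C : ν → QS S) : Prop where
  hc : c = 1 ∨ c = -1
  e : ∀ i, z3 i = z i + c * (T * C i - A i * T')
  i1 : I (vd z 1) (dg T 1 ⊔ vd A 1 ⊔ (dg T' 1 ⊔ vd C 1)) (vd f 1) = 0
  i2 : I (vd z3 1) (dg T 1 ⊔ vd A 1 ⊔ (dg T' 1 ⊔ vd C 1)) (vd f 1) = 0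
  i3 : I (dg T 1 ⊔ vd A 1) (dg T' 1 ⊔ vd C 1) (vd f 1) = 0
  r1 : Helper31.EC.h (dg T 1) (vd f 1) = 1
  r2 : Helper31.EC.h (dg T' 1) (vd f 1) = 1

variable {ι : Type} [Fintype ι] {c : QS S} {f : ι → QS S} {z3 : ν → QS S} {T T' : QS S} {A C : ν → QS S}

theorem Blk.swap (hb : Blk S c f z z3 T T' A C) : Blk S (-c) f z z3 T' T C A where
  hc := by
    rcases hb.hc with h | h
    · right; rw [h]
    · left; rw [h, neg_neg]
  e := by
    intro i
    rw [hb.e i]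
    ring
  i1 := by
    have h1 := hb.i1
    rwa [sup_comm] at h1
  i2 := by
    have h1 := hb.i2
    rwa [sup_comm] at h1
  i3 := ind_symm hb.i3
  r1 := hb.r2
  r2 := hb.r1

/-- the left variable is independent of everything else -/
theorem Blk.ind (hb : Blk S c f z z3 T T' A C) :
    I (dg T 1 ⊔ vd A 1) (vd z3 1 ⊔ (dg T' 1 ⊔ vd C 1)) (vd f 1) = 0 := by
  have h1 := hb.i2
  rw [sup_comm (dg T 1 ⊔ vd A 1)] at h1
  have h2 := (I_decomp h1).2
  have h3 := ind_symm h2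
  have h4 := I_contract hb.i3 (D := vd z3 1) h3
  rwa [sup_comm (dg T' 1 ⊔ vd C 1)] at h4

/-- tubes of level `l` and relative depth `κ` -/
def Tub (S : Sp) {ν ι : Type} [Fintype ν] [Fintype ι] (f : ι → QS S) (T : QS S) (A a o : ν → QS S) (l κ : ℝ) :
    Prop :=
  vd a 1 ≤ vd f 1 ⊔ dg T l ∧ vd o 1 ≤ vd f 1 ⊔ dg T l ∧ ∀ i, A i - a i * T - o i ∈ Id S κ

theorem dg_qfl' {S : Sp} (f : QS S) {r : ℝ} (hr : 0 ≤ r) (h1 : r ≤ 1) :
    dg (Pool.Agent.Helper80.MX.qfl f r hr) 1 = dg f r := dg_qfl f hr h1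

/-- realness beyond level `l` -/
theorem h_real_beyond {T : QS S} {Y : S.L} (h1 : Helper31.EC.h (dg T 1) Y = 1) {l κ : ℝ} (hl : 0 ≤ l)
    (hk : κ ≤ 1) : κ - l ≤ Helper31.EC.h (dg T κ) (dg T l ⊔ Y) := by
  have e1 := h_triangle (dg T 1) (dg T κ) Y
  have e2 : Helper31.EC.h (dg T 1) (dg T κ ⊔ Y) ≤ 1 - κ := (h_anti le_sup_left).trans (h_dg_dg T hk)
  have e3 := h_triangle (dg T κ) (dg T l) Y
  have e4 : Helper31.EC.h (dg T l) Y ≤ l := (h_le_H _ _).trans (H_dg_le T hl)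
  linarith

/-- **one side**: a tube on the left gives the slope on the right -/
theorem left (hu : UQ S z (vd f 1) ρ) (hb : Blk S c f z z3 T T' A C) {a o : ν → QS S} {l κ : ℝ}
    (hl : 0 ≤ l) (hlk : l ≤ κ) (h0 : 0 < κ) (h1 : κ ≤ 1) (ht : Tub S f T A a o l κ) :
    ∀ i, C i - a i * T' ∈ Id S (ρ * κ - l) := by
  obtain ⟨ha, ho, hA⟩ := ht
  have hl1 : l ≤ 1 := hlk.trans h1
  -- copies
  obtain ⟨D, p1, p2, c1, c2, c3⟩ := exists_copyS (Sum.elim z3 (Sum.elim C (Sum.elim (fun _ : Unit => T')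
    (Sum.elim f (Sum.elim (fun _ : Unit => Pool.Agent.Helper80.MX.qfl T l hl) (Sum.elim a (Sum.elim o
      (fun _ : Unit => c))))))))
  have cz : ∀ i, p1.qs (z3 i) = p2.qs (z3 i) := fun i => c1 (Sum.inl i)
  have cC : ∀ i, p1.qs (C i) = p2.qs (C i) := fun i => c1 (Sum.inr (Sum.inl i))
  have cT : p1.qs T' = p2.qs T' := c1 (Sum.inr (Sum.inr (Sum.inl ())))
  have cf : ∀ i, p1.qs (f i) = p2.qs (f i) := fun i => c1 (Sum.inr (Sum.inr (Sum.inr (Sum.inl i))))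
  have cq : p1.qs (Pool.Agent.Helper80.MX.qfl T l hl) = p2.qs (Pool.Agent.Helper80.MX.qfl T l hl) :=
    c1 (Sum.inr (Sum.inr (Sum.inr (Sum.inr (Sum.inl ())))))
  have ca : ∀ i, p1.qs (a i) = p2.qs (a i) := fun i =>
    c1 (Sum.inr (Sum.inr (Sum.inr (Sum.inr (Sum.inr (Sum.inl i))))))
  have co : ∀ i, p1.qs (o i) = p2.qs (o i) := fun i =>
    c1 (Sum.inr (Sum.inr (Sum.inr (Sum.inr (Sum.inr (Sum.inr (Sum.inl i)))))))
  have cc : p1.qs c = p2.qs c := c1 (Sum.inr (Sum.inr (Sum.inr (Sum.inr (Sum.inr (Sum.inr (Sum.inr ())))))))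
  rw [vd_sum, vd_sum, vd_sum, vd_sum, vd_sum, vd_sum, vd_sum, vd_unit, vd_unit, vd_unit, dg_qfl' T hl hl1] at c2
  have hcb : dg c 1 = ⊥ := by
    apply le_antisymm _ bot_le
    rcases hb.hc with h | h
    · rw [h]; exact (Kn S 1 le_rfl ⊥).one_mem
    · rw [h]; exact (Kn S 1 le_rfl ⊥).neg_mem (Kn S 1 le_rfl ⊥).one_mem
  obtain ⟨G, hG⟩ : ∃ G, G = vd z3 1 ⊔ (dg T' 1 ⊔ vd C 1) ⊔ vd f 1 ⊔ dg T l := ⟨_, rfl⟩
  have hGe : vd z3 1 ⊔ (vd C 1 ⊔ (dg T' 1 ⊔ (vd f 1 ⊔ (dg T l ⊔ (vd a 1 ⊔ (vd o 1 ⊔ dg c 1)))))) = G := by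
    rw [hG, hcb]
    order
  rw [hGe] at c2
  -- the common information
  have hG2 : p1.map G = p2.map G := by
    rw [← hGe]
    have e1 := c3 1
    rw [vd_sum, vd_sum, vd_sum, vd_sum, vd_sum, vd_sum, vd_sum, vd_unit, vd_unit, vd_unit,
      dg_qfl' T hl hl1] at e1
    exact e1
  obtain ⟨s, hs⟩ : ∃ s : ν → QS S, s = fun i => c * (C i - a i * T') := ⟨_, rfl⟩
  have cs : ∀ i, p1.qs (s i) = p2.qs (s i) := by
    intro i
    rw [hs]
    simp only [map_mul, map_sub]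
    rw [cC, ca, cT, cc]
  obtain ⟨η, hη⟩ : ∃ η : QS D, η = p1.qs T - p2.qs T := ⟨_, rfl⟩
  have hηl : η ∈ Id D l := by
    have e1 : η = p1.qs (T - Pool.Agent.Helper80.MX.qfl T l hl) -
        p2.qs (T - Pool.Agent.Helper80.MX.qfl T l hl) := by
      rw [hη, map_sub, map_sub, cq]
      ring
    rw [e1]
    apply (Id D l).sub_mem
    · exact Pool.Agent.Helper82.TP.Pj_mem_Id p1 (Pool.Agent.Helper80.MX.sub_qfl_mem T hl hl1)
    · exact Pool.Agent.Helper82.TP.Pj_mem_Id p2 (Pool.Agent.Helper80.MX.sub_qfl_mem T hl hl1)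
  have key := UQ_noise_dp hu h0 h1 p2 (fun i => p1.qs (z i)) (fun i => p2.qs (s i)) η
    (p2.map (dg T l ⊔ (dg T' 1 ⊔ vd C 1))) hl hlk ?_ ?_ ?_ hηl ?_
  · intro i
    have h2 := key i
    have h3 : ρ * κ - l ≤ 1 := by
      have hρ := UQ_le_one hu i
      have : ρ * κ ≤ 1 * κ := mul_le_mul_of_nonneg_right hρ h0.le
      linarith
    rw [p2.qs_mem_Id h3] at h2
    have h4 : c * s i ∈ Id S (ρ * κ - l) := (Id S _).mul_mem_left c h2
    have h5 : c * s i = C i - a i * T' := by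
      rw [hs]
      show c * (c * (C i - a i * T')) = _
      rcases hb.hc with h | h
      · rw [h]; ring
      · rw [h]; ring
    rwa [h5] at h4
  · intro i
    have e1 := congrArg p1.qs (hb.e i)
    have e2 := congrArg p2.qs (hb.e i)
    rw [map_add, map_mul, map_sub, map_mul, map_mul] at e1 e2
    rw [← cz, ← cC, ← cT, ← cc] at e2
    have e3 : p2.qs (s i) = p1.qs c * (p1.qs (C i) - p1.qs (a i) * p1.qs T') := by
      rw [← cs, hs]
      simp only [map_mul, map_sub]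
    have e4 : p2.qs (z i) - (p1.qs (z i) + η * p2.qs (s i)) =
        (p2.qs (A i - a i * T - o i) - p1.qs (A i - a i * T - o i)) * (p1.qs c * p1.qs T') := by
      rw [e3, hη, map_sub, map_sub, map_sub, map_sub, map_mul, map_mul, ← ca, ← co]
      have e5 : p2.qs (z i) = p1.qs (z3 i) - p1.qs c * (p2.qs T * p1.qs (C i) - p2.qs (A i) * p1.qs T') := by
        rw [e2]; ring
      have e6 : p1.qs (z i) = p1.qs (z3 i) - p1.qs c * (p1.qs T * p1.qs (C i) - p1.qs (A i) * p1.qs T') := by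
        rw [e1]; ring
      rw [e5, e6]
      ring
    rw [e4]
    apply (Id D κ).mul_mem_right
    apply (Id D κ).sub_mem
    · exact Pool.Agent.Helper82.TP.Pj_mem_Id p2 (hA i)
    · exact Pool.Agent.Helper82.TP.Pj_mem_Id p1 (hA i)
  · rw [p2.I_map]
    refine I_zero_mono hb.i1 le_sup_left ?_
    have := dg_mono T hl1
    order
  · rw [p2.qs_vd, ← p2.map_sup]
    apply p2.map_mono
    rw [vd_le]
    intro i
    rw [hs]
    have d1 : dg c 1 ≤ vd f 1 ⊔ (dg T l ⊔ (dg T' 1 ⊔ vd C 1)) := by rw [hcb]; exact bot_le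
    have d2 : dg (C i) 1 ≤ vd f 1 ⊔ (dg T l ⊔ (dg T' 1 ⊔ vd C 1)) := by
      have := dg_le_vd C 1 i
      order
    have d3 : dg (a i) 1 ≤ vd f 1 ⊔ (dg T l ⊔ (dg T' 1 ⊔ vd C 1)) := by
      have := dg_le_vd a 1 i
      order
    have d4 : dg T' 1 ≤ vd f 1 ⊔ (dg T l ⊔ (dg T' 1 ⊔ vd C 1)) := by order
    exact (Kn S 1 le_rfl _).mul_mem d1 ((Kn S 1 le_rfl _).sub_mem d2 ((Kn S 1 le_rfl _).mul_mem d3 d4))
  · -- realness of the noise
    have f1 : Helper31.EC.h (dg T 1) (vd z3 1 ⊔ (dg T' 1 ⊔ vd C 1) ⊔ vd f 1) = 1 := by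
      have g1 := I_zero_mono hb.ind (A := dg T 1) (B := vd z3 1 ⊔ (dg T' 1 ⊔ vd C 1))
        (le_sup_left.trans le_sup_left) le_sup_left
      rw [I_zero_iff_h] at g1
      rw [g1]
      exact hb.r1
    have f2 := h_real_beyond f1 hl h1
    have f3 : dg T l ⊔ (vd z3 1 ⊔ (dg T' 1 ⊔ vd C 1) ⊔ vd f 1) = G := by rw [hG]; order
    rw [f3] at f2
    have f4 : Helper31.EC.h (dg (p2.qs T) κ) (p1.map (vd z 1 ⊔ dg T 1) ⊔ p1.map G) =
        Helper31.EC.h (dg T κ) G := by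
      have g1 := ind_symm (c2 (vd z 1 ⊔ dg T 1) (dg T κ))
      rw [I_zero_iff_h] at g1
      rw [p2.qs_dg, g1, hG2, p2.h_map]
    have f5 : dg (p2.qs T) κ ≤ dg η κ ⊔ (p1.map (vd z 1 ⊔ dg T 1) ⊔ p1.map G) := by
      have g1 : p2.qs T = p1.qs T - η := by rw [hη]; ring
      rw [g1]
      apply (dg_sub_le _ _ h1).trans
      apply sup_le
      · rw [p1.qs_dg]
        have := p1.map_mono ((dg_mono T h1).trans (le_sup_right : dg T 1 ≤ vd z 1 ⊔ dg T 1))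
        order
      · exact le_sup_left
    have f6 : Helper31.EC.h (dg (p2.qs T) κ) (p1.map (vd z 1 ⊔ dg T 1) ⊔ p1.map G) ≤
        Helper31.EC.h (dg η κ) (p1.map (vd z 1 ⊔ dg T 1) ⊔ p1.map G) := by
      refine (h_mono (A' := dg η κ ⊔ (p1.map (vd z 1 ⊔ dg T 1) ⊔ p1.map G)) f5).trans (le_of_eq ?_)
      exact h_sup_right_of_le le_rfl
    have f7 : Helper31.EC.h (dg η κ) (p1.map (vd z 1 ⊔ dg T 1) ⊔ p1.map G) ≤
        Helper31.EC.h (dg η κ) (vd (fun i => p1.qs (z i)) 1 ⊔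
          (p2.map (vd f 1) ⊔ p2.map (dg T l ⊔ (dg T' 1 ⊔ vd C 1)))) := by
      apply h_anti
      rw [← p2.map_sup, p1.qs_vd, hG2]
      apply sup_le
      · exact (p1.map_mono le_sup_left).trans le_sup_left
      · refine (p2.map_mono ?_).trans le_sup_right
        rw [hG]
        order
    linarith

/-- **THEOREM FW, the end**: tubes on both sides -/
theorem sec3 (hu : UQ S z (vd f 1) ρ) (hρ : 0 ≤ ρ) (hb : Blk S c f z z3 T T' A C) {a o a' o' : ν → QS S} {l κ : ℝ}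
    (hl : 0 ≤ l) (hlk : l ≤ κ) (h0 : 0 < κ) (h1 : κ ≤ 1) (ht : Tub S f T A a o l κ)
    (ht' : Tub S f T' C a' o' l κ) : ∀ i, T * C i - A i * T' ∈ Id S (ρ * (ρ * κ - l) - l) := by
  have hL := left hu hb hl hlk h0 h1 ht
  have hR := left hu hb.swap hl hlk h0 h1 ht'
  intro i
  have hρ1 := UQ_le_one hu i
  obtain ⟨κ1, hκ1⟩ : ∃ κ1, κ1 = ρ * κ - l := ⟨_, rfl⟩
  rw [← hκ1] at hL hR ⊢
  have hk1 : κ1 ≤ 1 := by
    have : ρ * κ ≤ 1 * κ := mul_le_mul_of_nonneg_right hρ1 h0.le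
    linarith
  rcases le_or_gt κ1 l with hlt | hlt
  · refine mem_Id_nonpos ?_
    rcases le_or_gt κ1 0 with h2 | h2
    · have : ρ * κ1 ≤ 0 := mul_nonpos_of_nonneg_of_nonpos hρ h2
      linarith
    · have : ρ * κ1 ≤ 1 * κ1 := mul_le_mul_of_nonneg_right hρ1 h2.le
      linarith
  have hk0 : 0 < κ1 := lt_of_le_of_lt hl hlt
  have hl1 : l ≤ 1 := hlk.trans h1
  obtain ⟨ha, ho, hA⟩ := ht
  obtain ⟨ha', ho', hA'⟩ := ht'
  have hcb : dg c 1 = ⊥ := by
    apply le_antisymm _ bot_le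
    rcases hb.hc with h | h
    · rw [h]; exact (Kn S 1 le_rfl ⊥).one_mem
    · rw [h]; exact (Kn S 1 le_rfl ⊥).neg_mem (Kn S 1 le_rfl ⊥).one_mem
  obtain ⟨t, htd⟩ : ∃ t, t = Pool.Agent.Helper80.MX.qfl T l hl := ⟨_, rfl⟩
  have hdt : dg t 1 = dg T l := by rw [htd]; exact dg_qfl' T hl hl1
  have hmt : T - t ∈ Id S l := by rw [htd]; exact Pool.Agent.Helper80.MX.sub_qfl_mem T hl hl1
  have key := UQ_noise_dp hu hk0 hk1 (Pj.id S)
    (fun i => z3 i - c * (t * (T' * (a i - a' i)))) (fun i => - (c * (T' * (a i - a' i)))) (T - t)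
    (dg T l ⊔ (dg T' 1 ⊔ vd C 1)) hl hlt.le ?_ ?_ ?_ hmt ?_ i
  · -- conclusion
    have e1 : T' * (a i - a' i) ∈ Id S (ρ * κ1 - l) := by
      have h2 : (-c) * (-(c * (T' * (a i - a' i)))) ∈ Id S (ρ * κ1 - l) := (Id S _).mul_mem_left _ key
      have h3 : (-c) * (-(c * (T' * (a i - a' i)))) = T' * (a i - a' i) := by
        rcases hb.hc with h | h
        · rw [h]; ring
        · rw [h]; ring
      rwa [h3] at h2
    have e2 : T * C i - A i * T' = T * (T' * (a i - a' i)) + T * (C i - a i * T') - (A i - a' i * T) * T' := by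
      ring
    rw [e2]
    have h3 : ρ * κ1 - l ≤ κ1 := by
      have : ρ * κ1 ≤ 1 * κ1 := mul_le_mul_of_nonneg_right hρ1 hk0.le
      linarith
    apply (Id S _).sub_mem
    · apply (Id S _).add_mem
      · exact (Id S _).mul_mem_left _ e1
      · exact (Id S _).mul_mem_left _ (Id_anti h3 (hL i))
    · exact (Id S _).mul_mem_right _ (Id_anti h3 (hR i))
  · intro j
    have e1 : (Pj.id S).qs (z j) - (z3 j - c * (t * (T' * (a j - a' j))) + (T - t) * (-(c * (T' * (a j - a' j))))) =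
        - (c * (T * (C j - a j * T'))) + c * ((A j - a' j * T) * T') := by
      rw [Pj.id_qs, hb.e j]
      ring
    rw [e1]
    apply (Id S _).add_mem
    · exact (Id S _).neg_mem ((Id S _).mul_mem_left _ ((Id S _).mul_mem_left _ (hL j)))
    · exact (Id S _).mul_mem_left _ ((Id S _).mul_mem_right _ (hR j))
  · rw [Pj.id_map, Pj.id_map]
    refine I_zero_mono hb.i1 le_sup_left ?_
    have := dg_mono T hl1
    order
  · rw [Pj.id_map, vd_le]
    intro j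
    have hT'1 := dg_mono T' hl1
    have d1 : dg c 1 ≤ vd f 1 ⊔ (dg T l ⊔ (dg T' 1 ⊔ vd C 1)) := by rw [hcb]; exact bot_le
    have d3 : dg (a j) 1 ≤ vd f 1 ⊔ (dg T l ⊔ (dg T' 1 ⊔ vd C 1)) := by
      have := dg_le_vd a 1 j
      order
    have d5 : dg (a' j) 1 ≤ vd f 1 ⊔ (dg T l ⊔ (dg T' 1 ⊔ vd C 1)) := by
      have := dg_le_vd a' 1 j
      order
    have d4 : dg T' 1 ≤ vd f 1 ⊔ (dg T l ⊔ (dg T' 1 ⊔ vd C 1)) := by order
    exact (Kn S 1 le_rfl _).neg_mem ((Kn S 1 le_rfl _).mul_mem d1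
      ((Kn S 1 le_rfl _).mul_mem d4 ((Kn S 1 le_rfl _).sub_mem d3 d5)))
  · -- realness
    rw [Pj.id_map]
    have f1 : Helper31.EC.h (dg T 1) (vd z3 1 ⊔ (dg T' 1 ⊔ vd C 1) ⊔ vd f 1) = 1 := by
      have g1 := I_zero_mono hb.ind (A := dg T 1) (B := vd z3 1 ⊔ (dg T' 1 ⊔ vd C 1))
        (le_sup_left.trans le_sup_left) le_sup_left
      rw [I_zero_iff_h] at g1
      rw [g1]
      exact hb.r1
    have f2 := h_real_beyond f1 hl hk1
    have hT'1 := dg_mono T' hl1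
    have f3 : dg (T - t) κ1 ⊔ (dg T l ⊔ (vd z3 1 ⊔ (dg T' 1 ⊔ vd C 1) ⊔ vd f 1)) =
        dg T κ1 ⊔ (dg T l ⊔ (vd z3 1 ⊔ (dg T' 1 ⊔ vd C 1) ⊔ vd f 1)) := by
      have g1 : dg t κ1 ≤ dg T l := (dg_mono t hk1).trans hdt.le
      apply le_antisymm
      · apply sup_le _ le_sup_right
        have g2 := dg_sub_le T t hk1
        order
      · apply sup_le _ le_sup_right
        have g2 := dg_add_le (T - t) t hk1
        rw [sub_add_cancel] at g2
        order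
    have f4 : Helper31.EC.h (dg (T - t) κ1) (dg T l ⊔ (vd z3 1 ⊔ (dg T' 1 ⊔ vd C 1) ⊔ vd f 1)) =
        Helper31.EC.h (dg T κ1) (dg T l ⊔ (vd z3 1 ⊔ (dg T' 1 ⊔ vd C 1) ⊔ vd f 1)) := by
      apply h_congr_left
      · rw [← f3]; exact le_sup_left
      · rw [f3]; exact le_sup_left
    rw [← f4] at f2
    refine f2.trans (h_anti ?_)
    apply sup_le
    · rw [vd_le]
      intro j
      have d1 : dg c 1 ≤ dg T l ⊔ (vd z3 1 ⊔ (dg T' 1 ⊔ vd C 1) ⊔ vd f 1) := by rw [hcb]; exact bot_le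
      have d0 : dg (z3 j) 1 ≤ dg T l ⊔ (vd z3 1 ⊔ (dg T' 1 ⊔ vd C 1) ⊔ vd f 1) := by
        have := dg_le_vd z3 1 j
        order
      have d2 : dg t 1 ≤ dg T l ⊔ (vd z3 1 ⊔ (dg T' 1 ⊔ vd C 1) ⊔ vd f 1) := by
        rw [hdt]; exact le_sup_left
      have d3 : dg (a j) 1 ≤ dg T l ⊔ (vd z3 1 ⊔ (dg T' 1 ⊔ vd C 1) ⊔ vd f 1) := by
        have := dg_le_vd a 1 j
        order
      have d5 : dg (a' j) 1 ≤ dg T l ⊔ (vd z3 1 ⊔ (dg T' 1 ⊔ vd C 1) ⊔ vd f 1) := by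
        have := dg_le_vd a' 1 j
        order
      have d4 : dg T' 1 ≤ dg T l ⊔ (vd z3 1 ⊔ (dg T' 1 ⊔ vd C 1) ⊔ vd f 1) := by order
      exact (Kn S 1 le_rfl _).sub_mem d0 ((Kn S 1 le_rfl _).mul_mem d1 ((Kn S 1 le_rfl _).mul_mem d2
        ((Kn S 1 le_rfl _).mul_mem d4 ((Kn S 1 le_rfl _).sub_mem d3 d5))))
    · order

end

end Pool.Agent.Helper70.FW
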