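import Pool.Agent.Helper61.VW.Vec

/-! Theorem FW in finite form (statement): edges, tubes of one side over nodes. -/

set_option autoImplicit false

namespace Pool.Agent.Helper70.FW

open Finset Pool.Agent.Helper69.RK Pool.Agent.Helper92.W Pool.Agent.Helper61.EC Pool.Agent.Helper46.WF

noncomputable section

/-- second order quotient condition: for every law over `μ` and every label `X` almost independent of `z` over `F`, the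
quotient of `z` by a vector `w` known to `(X, F)` with `w a = 1` is almost full -/
def QuoF (N n : ℕ) (εQ ηQ : ℝ) {Ω φ : Type} (μ : Ω → ℝ) (F : Ω → φ) (z : Ω → Fin N → ℝ) : Prop :=
  ∀ (Ω' : Type) (_ : Fintype Ω') (μ' : Ω' → ℝ) (π : Ω' → Ω), (∀ ω, 0 ≤ μ' ω) → push π μ' = μ →
    ∀ (χ : Type) (X : Ω' → χ) (w : Ω' → Fin N → ℝ) (a : Fin N), (∀ ω, w ω a = 1) → (∀ ω i, |w ω i| ≤ 1) →
    (∀ ω ω', μ' ω ≠ 0 → μ' ω' ≠ 0 → X ω = X ω' → F (π ω) = F (π ω') → w ω = w ω') →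
    CH μ' (fun ω => vfl n (z (π ω))) (fun ω => F (π ω)) ≤
      CH μ' (fun ω => vfl n (z (π ω))) (fun ω => (X ω, F (π ω))) + ηQ * n →
    (N - 1 - εQ) * n ≤ CH μ' (fun ω => vfl n fun i => z (π ω) i - w ω i * z (π ω) a) (fun ω => (X ω, F (π ω)))

/-- finite digital edge of depth `n`: `z3 = z + c (T C - A T')`, `c = 1` or `c = -1` -/
structure Edg (N n : ℕ) (ρ η εQ ηQ c : ℝ) {Ω φ : Type} [Fintype Ω] (μ : Ω → ℝ) (F : Ω → φ) (T T' : Ω → ℝ)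
    (A C z : Ω → Fin N → ℝ) : Prop where
  nn : ∀ ω, 0 ≤ μ ω
  ms : mass μ = 1
  hc : c = 1 ∨ c = -1
  bT : ∀ ω, 0 ≤ T ω ∧ T ω < 1
  bT' : ∀ ω, 0 ≤ T' ω ∧ T' ω < 1
  bA : ∀ ω i, |A ω i| ≤ 1
  bC : ∀ ω i, |C ω i| ≤ 1
  bz : ∀ ω i, |z ω i| ≤ 1
  dT : ∀ ω, T ω = rd n (T ω)
  dT' : ∀ ω, T' ω = rd n (T' ω)
  dA : ∀ ω i, A ω i = rd n (A ω i)
  dC : ∀ ω i, C ω i = rd n (C ω i)
  dz : ∀ ω i, z ω i = rd n (z ω i)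
  i1 : CH μ (fun ω => vfl n (z ω)) F ≤
    CH μ (fun ω => vfl n (z ω)) (fun ω => ((T ω, A ω), (T' ω, C ω), F ω)) + η * n
  i2 : CH μ (fun ω => vfl n fun i => z ω i + c * (T ω * C ω i - A ω i * T' ω)) F ≤
    CH μ (fun ω => vfl n fun i => z ω i + c * (T ω * C ω i - A ω i * T' ω))
      (fun ω => ((T ω, A ω), (T' ω, C ω), F ω)) + η * n
  i3 : CH μ (fun ω => (T ω, A ω)) F ≤ CH μ (fun ω => (T ω, A ω)) (fun ω => ((T' ω, C ω), F ω)) + η * n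
  r1 : (1 - η) * n ≤ CH μ (fun ω => fl n (T ω)) F
  r2 : (1 - η) * n ≤ CH μ (fun ω => fl n (T' ω)) F
  U : Pw μ (fun ω => ∃ k ≤ n, (N - ρ) * k + η * n < srp μ (fun ω' => vfl k (z ω')) F ω) ≤ η
  U3 : Pw μ (fun ω => ∃ k ≤ n, (N - ρ) * k + η * n <
    srp μ (fun ω' => vfl k fun i => z ω' i + c * (T ω' * C ω' i - A ω' i * T' ω')) F ω) ≤ η
  Q : QuoF N n εQ ηQ μ F z
  Q3 : QuoF N n εQ ηQ μ F fun ω i => z ω i + c * (T ω * C ω i - A ω i * T' ω)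

/-- tubes of one side over nodes `(F, R, cell of T of level l)`, `R` a label of rate at most `ε` -/
def TubF (N n : ℕ) (ε l κ : ℝ) {Ω φ : Type} [Fintype Ω] (μ : Ω → ℝ) (F : Ω → φ) (T : Ω → ℝ)
    (A : Ω → Fin N → ℝ) : Prop :=
  ∃ (β : Type) (R : Ω → β) (a o : Ω → Fin N → ℝ), CH μ R F ≤ ε * n ∧
    (∀ ω ω', μ ω ≠ 0 → μ ω' ≠ 0 → F ω = F ω' → R ω = R ω' → fl ⌊l * n⌋₊ (T ω) = fl ⌊l * n⌋₊ (T ω') →
      a ω = a ω' ∧ o ω = o ω') ∧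
    Pw μ (fun ω => ¬ ∀ i, |a ω i| ≤ 2 ^ (ε * n) ∧ |o ω i| ≤ 2 ^ (ε * n) ∧
      |A ω i - a ω i * T ω - o ω i| ≤ 2 ^ (-(κ * n))) ≤ ε

/-- theorem FW in finite form -/
def TOPF (N : ℕ) (ρ l κ : ℝ) : Prop :=
  ∀ ε : ℝ, 0 < ε → ∃ εQ : ℝ, 0 < εQ ∧ ∀ ηQ : ℝ, 0 < ηQ → ∃ η : ℝ, 0 < η ∧ ∃ n0 : ℕ, ∀ n : ℕ, n0 ≤ n →
    ∀ (Ω φ : Type) (_ : Fintype Ω) (μ : Ω → ℝ) (F : Ω → φ) (T T' : Ω → ℝ) (A C z : Ω → Fin N → ℝ) (c : ℝ),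
      Edg N n ρ η εQ ηQ c μ F T T' A C z → TubF N n ε l κ μ F T A

end

end Pool.Agent.Helper70.FW
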