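import Pool.Agent.Helper70.FW.CoG
import Pool.Agent.Helper22.FW.Aff

/-!
# The constants of row [K] as functions of the margin `C`, and the affine bound
-/

set_option autoImplicit false

namespace Pool.Agent.Helper70.FW

open Pool.Agent.Helper15.VW Pool.Agent.Helper15.VG
open Pool.Agent.Helper22.FW hiding cN

/-- the cost of one step -/
noncomputable def kc1 (N : ℕ) (C : ℝ) : ℝ := N * cF2 N 1 C + Pool.Agent.Helper15.VW.cP N + cN N ((N + N + 1) * C)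

/-- the step of the progressions -/
noncomputable def kR (N : ℕ) (ρ C : ℝ) : ℕ := max 6 ⌈aR1 N ρ * kc1 N C + aR2 N ρ⌉₊

/-- the cost of a bad level -/
noncomputable def kcD (N : ℕ) (ρ C : ℝ) : ℝ := N * (kR N ρ C + cF3 N 1 C)

/-- the weight of all constants -/
noncomputable def kw (N : ℕ) (ρ C : ℝ) : ℝ :=
  kR N ρ C + kcD N ρ C + cF1 1 C + cF3 N 1 C + cT N ((2 * N + 1) * C) + kc1 N C

theorem kcT_nn (r : ℕ) {C : ℝ} (hC : 0 ≤ C) : 0 ≤ cT r C := by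
  have h1 := cF_nonneg r (C := 1) (by norm_num)
  have h2 : 0 ≤ Real.logb 2 (C + 4) := Real.logb_nonneg (by norm_num) (by linarith)
  unfold cT
  positivity

theorem kcC_nn (r : ℕ) {C : ℝ} (hC : 0 ≤ C) : 0 ≤ cC r C := by
  have h1 : 0 ≤ Real.logb 2 ((2 * C + 3) * (2 * C + 1)) := by
    apply Real.logb_nonneg (by norm_num)
    nlinarith
  have h2 : 0 ≤ Real.logb 2 (2 * C + 8) := Real.logb_nonneg (by norm_num) (by linarith)
  have h3 : 0 ≤ Real.logb 2 (2 * C + 4) := Real.logb_nonneg (by norm_num) (by linarith)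
  unfold cC
  positivity

theorem kcF1_nn {C : ℝ} (hC : 0 ≤ C) : 0 ≤ cF1 1 C := by
  have h1 : 0 ≤ Real.logb 2 (2 * C + 4) := Real.logb_nonneg (by norm_num) (by linarith)
  have h2 : 0 ≤ Real.logb 2 (C + 3) := Real.logb_nonneg (by norm_num) (by linarith)
  have h3 : 0 ≤ Real.logb 2 (C + 2) := Real.logb_nonneg (by norm_num) (by linarith)
  unfold cF1 cK
  positivity

theorem kcF2_nn (r : ℕ) {C : ℝ} (hC : 0 ≤ C) : 0 ≤ cF2 r 1 C := by
  have h1 := kcC_nn r (C := C * (4 * ((1 : ℕ) : ℝ) + 2)) (by positivity)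
  have h2 : 0 ≤ Real.logb 2 (C * C + C + 2 + 1) := by
    apply Real.logb_nonneg (by norm_num)
    nlinarith
  unfold cF2
  positivity

theorem kcF3_nn (r : ℕ) {C : ℝ} (hC : 0 ≤ C) : 0 ≤ cF3 r 1 C := by
  have h1 := kcT_nn r (C := C * (4 * ((1 : ℕ) : ℝ) + 2)) (by positivity)
  have h2 : 0 ≤ Real.logb 2 (2 * (C * (4 * ((1 : ℕ) : ℝ) + 2)) + 2) := by
    apply Real.logb_nonneg (by norm_num)
    have : 0 ≤ C * (4 * ((1 : ℕ) : ℝ) + 2) := by positivity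
    linarith
  unfold cF3
  positivity

theorem kcN_ge (N : ℕ) {C : ℝ} (hC : 1 ≤ C) : cT N N ≤ cN N ((N + N + 1) * C) := by
  have hN : (0 : ℝ) ≤ N := Nat.cast_nonneg N
  have h1 : (N : ℝ) + N + 1 ≤ (N + N + 1) * C := by nlinarith
  have h2 : Real.logb 2 ((N : ℝ) + 4) ≤
      Real.logb 2 (2 * (1 + (N + N + 1) * C + 3 * (N * ((N + N + 1) * C)) + N * ((N + N + 1) * C))) := by
    apply Real.logb_le_logb_of_le (by norm_num) (by linarith)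
    have h3 : 0 ≤ (N : ℝ) * ((N + N + 1) * C) := by positivity
    linarith
  unfold cT cN
  have h4 := mul_le_mul_of_nonneg_left h2 hN
  linarith

theorem kc1_ge (N : ℕ) {C : ℝ} (hC : 1 ≤ C) : cT N N ≤ kc1 N C := by
  have h1 := kcN_ge N hC
  have h2 := kcF2_nn N (C := C) (by linarith)
  have h3 := Pool.Agent.Helper70.FW.cP_nonneg N
  have h4 : (0 : ℝ) ≤ N := Nat.cast_nonneg N
  have h5 : 0 ≤ N * cF2 N 1 C := mul_nonneg h4 h2
  unfold kc1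
  linarith

theorem kc1_nn (N : ℕ) {C : ℝ} (hC : 1 ≤ C) : 0 ≤ kc1 N C :=
  (kcT_nn N (Nat.cast_nonneg N)).trans (kc1_ge N hC)

theorem kR_ge (N : ℕ) (ρ C : ℝ) : aR1 N ρ * kc1 N C + aR2 N ρ ≤ kR N ρ C := by
  unfold kR
  refine (Nat.le_ceil _).trans ?_
  exact_mod_cast le_max_right _ _

theorem kR_six (N : ℕ) (ρ C : ℝ) : 6 ≤ kR N ρ C := le_max_left _ _

theorem kcD_ge {N : ℕ} (hN : 1 ≤ N) (ρ : ℝ) {C : ℝ} (hC : 1 ≤ C) : 1 ≤ kcD N ρ C := by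
  have h1 : (6 : ℝ) ≤ kR N ρ C := by exact_mod_cast kR_six N ρ C
  have h2 := kcF3_nn N (C := C) (by linarith)
  have h3 : (1 : ℝ) ≤ N := by exact_mod_cast hN
  unfold kcD
  nlinarith

theorem kcD_nn (N : ℕ) (ρ : ℝ) {C : ℝ} (hC : 1 ≤ C) : 0 ≤ kcD N ρ C := by
  have h2 := kcF3_nn N (C := C) (by linarith)
  unfold kcD
  positivity

/-- every constant is at most `kw` -/
theorem kw_ge (N : ℕ) (ρ : ℝ) {C : ℝ} (hC : 1 ≤ C) : 0 ≤ kw N ρ C ∧ (kR N ρ C : ℝ) ≤ kw N ρ C ∧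
    kcD N ρ C ≤ kw N ρ C ∧ cF1 1 C ≤ kw N ρ C ∧ cF3 N 1 C ≤ kw N ρ C ∧ cT N ((2 * N + 1) * C) ≤ kw N ρ C ∧
    kc1 N C ≤ kw N ρ C ∧ (kR N ρ C : ℝ) + cF3 N 1 C ≤ kw N ρ C ∧
    (kR N ρ C : ℝ) + cT N ((2 * N + 1) * C) ≤ kw N ρ C := by
  have h0 : (0 : ℝ) ≤ kR N ρ C := Nat.cast_nonneg _
  have h1 := kcD_nn N ρ hC
  have h2 := kcF1_nn (C := C) (by linarith)
  have h3 := kcF3_nn N (C := C) (by linarith)
  have h4 := kcT_nn N (C := (2 * N + 1) * C) (by positivity)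
  have h5 := kc1_nn N hC
  unfold kw
  refine ⟨by linarith, by linarith, by linarith, by linarith, by linarith, by linarith, by linarith, by linarith,
    by linarith⟩

theorem AffB_mono {f g : ℝ → ℝ} (hg : AffB g) (h : ∀ C : ℝ, 1 ≤ C → f C ≤ g C) : AffB f := by
  obtain ⟨a, b, ha, hb, h1⟩ := hg
  exact ⟨a, b, ha, hb, fun C hC => (h C hC).trans (h1 C hC)⟩

theorem affB_kc1 (N : ℕ) : AffB (kc1 N) := by
  have h1 := (affB_cF2 N).smul (c := (N : ℝ)) (Nat.cast_nonneg N)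
  have h2 := (affB_cN N).comp (c := (N : ℝ) + N + 1) (by
    have : (0 : ℝ) ≤ N := Nat.cast_nonneg N
    linarith)
  exact (h1.add (AffB.const (Pool.Agent.Helper15.VW.cP N))).add h2

theorem affB_kR (N : ℕ) {ρ : ℝ} (hρ : 0 < ρ) : AffB fun C => (kR N ρ C : ℝ) := by
  have ha : 0 ≤ aR1 N ρ := by
    unfold aR1
    positivity
  have ha2 : 0 ≤ aR2 N ρ := by
    have := Pool.Agent.Helper70.FW.cP_nonneg N
    unfold aR2
    positivity
  refine AffB_mono (((affB_kc1 N).smul ha).add (AffB.const (aR2 N ρ + 7))) fun C hC => ?_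
  have h1 : 0 ≤ aR1 N ρ * kc1 N C + aR2 N ρ := by
    have := kc1_nn N hC
    positivity
  have h2 := (Nat.ceil_lt_add_one h1).le
  have h3 : ((kR N ρ C : ℕ) : ℝ) ≤ 6 + (⌈aR1 N ρ * kc1 N C + aR2 N ρ⌉₊ : ℕ) := by
    have : kR N ρ C ≤ 6 + ⌈aR1 N ρ * kc1 N C + aR2 N ρ⌉₊ := by
      unfold kR
      omega
    exact_mod_cast this
  linarith

theorem affB_kcD (N : ℕ) {ρ : ℝ} (hρ : 0 < ρ) : AffB (kcD N ρ) :=
  ((affB_kR N hρ).add (affB_cF3 N)).smul (Nat.cast_nonneg N)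

theorem affB_kw (N : ℕ) {ρ : ℝ} (hρ : 0 < ρ) : AffB (kw N ρ) :=
  (((((affB_kR N hρ).add (affB_kcD N hρ)).add affB_cF1).add (affB_cF3 N)).add
    ((affB_cT N).comp (c := 2 * (N : ℝ) + 1) (by
      have : (0 : ℝ) ≤ N := Nat.cast_nonneg N
      linarith))).add (affB_kc1 N)

/-- **THE AFFINE GLUE**: the weight of the constants at the margin `CN 2 ^ C₀` is affine in `C₀` -/
theorem afg (N : ℕ) {ρ : ℝ} (hρ : 0 < ρ) {CN : ℝ} (hCN : 1 ≤ CN) :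
    ∃ aa bb : ℝ, 0 ≤ aa ∧ 0 ≤ bb ∧ ∀ C₀ : ℕ, kw N ρ (CN * 2 ^ C₀) ≤ aa * C₀ + bb := (affB_kw N hρ).two hCN

end Pool.Agent.Helper70.FW
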