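import Pool.Agent.Helper70.FW.CoG
import Pool.Agent.Helper61.FW.Cfin

/-!
# Theorem FW in finite form, all numbers of the path chosen

`cfinB` = `cfin` of helper61 with `F = Fn ρ n`, `I = Ke = In ρ b R n`, `lam = lamn ε R n`, `L = Ln P n`.
Order of the constants: `N ρ ε`, then `e τ0 εQ η1 k0`, then `b c1 R cD κ η P ρw r S'`, then `n0`.
-/

set_option autoImplicit false

namespace Pool.Agent.Helper70.FW

open Finset Pool.Agent.Helper69.RK Pool.Agent.Helper61.GL Pool.Agent.Helper25.FA Pool.Agent.Helper46.WF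
  Pool.Agent.Helper22.FW Pool.Agent.Helper58.TR Pool.Agent.Helper99.FW
  Pool.Agent.Helper58.VW Pool.Agent.Helper78.FW Pool.Agent.Helper15.VW Pool.Agent.Helper18.FW
  Pool.Agent.Helper61.FW
open Pool.Agent.Helper9.ND (Rc)

theorem half_le_rpow1 {y : ℝ} (hy : 0 ≤ y) : y / 2 ≤ (2 : ℝ) ^ y := by
  have h1 := Real.add_one_le_exp (Real.log 2 * y)
  rw [← Real.rpow_def_of_pos (by norm_num)] at h1
  have h2 : (1 : ℝ) / 2 ≤ Real.log 2 := by
    have := Real.log_two_gt_d9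
    linarith
  have h3 : 1 / 2 * y ≤ Real.log 2 * y := mul_le_mul_of_nonneg_right h2 hy
  linarith

/-- **THEOREM FW IN FINITE FORM, ALL NUMBERS OF THE PATH CHOSEN** -/
theorem cfinB (N : ℕ) (hN1 : 1 ≤ N) {ρ : ℝ} (hρ : 0 < ρ) (hρ1 : ρ ≤ 1) {ε : ℝ} (hε : 0 < ε) :
    ∃ e τ0 εQ1 η1 : ℝ, 0 < e ∧ 0 < τ0 ∧ 0 < εQ1 ∧ 0 < η1 ∧ ∃ k0 : ℕ, ∀ (b : ℕ) (c1 : ℝ), cT N N ≤ c1 → ∀ R : ℕ,
    aR1 N ρ * c1 + aR2 N ρ ≤ R → ∀ cD : ℝ, 1 ≤ cD → ∀ κ : ℝ, 53248 * (((N : ℝ) + 1) * κ) ≤ e → ∀ P ρw r S' : ℕ,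
    S' + ρw ≤ P → P ≤ 2 * S' → 64 * 2 ^ ρw * (ρw * Real.logb 2 (Fintype.card (Rc N r))) ≤ e * P → ∀ η : ℝ, 0 ≤ η →
    η ≤ η1 → 64 * 2 ^ ρw * (ρw * η) ≤ e → ∃ n0 : ℕ, ∀ {Ω φ α β : Type} [Fintype Ω] [Fintype α] [Fintype β] {k K : ℕ}
    {D : ED Ω φ α β N} (_ : n0 ≤ D.n) {εQ ηQ c : ℝ} (_ : εQ ≤ εQ1) {tp : α → ℝ}
    {tq : β → ℝ} {Ap : α → Fin N → ℝ} {Cq : β → Fin N → ℝ} (_ : EdgD D ρ η εQ ηQ c tp tq Ap Cq) {FP : α → φ}
    (_ : ∀ ω, FP (D.P ω) = D.F ω) {FQ : β → φ} {Λ : Type} [Fintype Λ] {l : Λ → ℝ}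
    {en : Fin (k + 2 * K) → Fin (k + 2 * K) → Λ → Ω} {E : ℝ} (_ : AR D l en E) (_ : XA l en)
    (a0 b0 : Fin (k + 2 * K)) (_ : 0 < K) (_ : k0 ≤ k) (_ : Cst N R ρw r ((1 / 2) ^ Fn ρ D.n) κ) (oL oR : ℕ → ℕ)
    (_ : Bfr N ≤ 2 ^ b) (_ : E ≤ ηQ * D.n)
    (κA κC : Λ → ℕ → ℝ) (_ : ∀ w, l w ≠ 0 → ∀ m < Ln P D.n * P, 0 ≤ κA w m)
    (_ : ∀ w, l w ≠ 0 → ∀ m < Ln P D.n * P, 0 ≤ κC w m)
    (_ : ∀ w, l w ≠ 0 → ∀ m < Ln P D.n * P, 0 ≤ m →
      ∀ v ∈ WSd (sdL D FP tp Ap P ρw R r ((1 / 2) ^ Fn ρ D.n) κ oL) (spc k K) (fun a => D.P (en a b0 w)) m,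
      ∀ G : Finset ℕ, G ⊆ range (Ln P D.n * P) → ∀ Z : ℕ → Multiset (Fin N → ℝ),
      (∀ t < In ρ b R D.n, Okb (fam (flr ((1 / 2) ^ Fn ρ D.n))) (2 ^ b) R R
        (WSd (sdL D FP tp Ap P ρw R r ((1 / 2) ^ Fn ρ D.n) κ oL) (spc k K) (fun a => D.P (en a b0 w)))
        (VG (WSd (sdL D.mir FQ tq Cq P ρw R r ((1 / 2) ^ Fn ρ D.n) κ oR) (spc k K) (fun b => D.Q (en a0 b w))) G)
        m (0 + t * R) v (Z t)) →
      ∑ t ∈ range (In ρ b R D.n), IZ (cw l (Fp D en a0 b0) w) (fun w => D.z (en a0 b0 w)) (fun _ => ())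
        (Fn ρ D.n + b + R) (Fn ρ D.n + b + R) (Z t) (((1 : ℝ) / 2) ^ (0 + t * R) • v) ≤
        c1 * (In ρ b R D.n : ℕ) + κA w m + cD * (range (Ln P D.n * P) \ G).card)
    (_ : ∀ w, l w ≠ 0 → ∀ j < Ln P D.n * P, 0 ≤ j →
      ∀ v ∈ WSd (sdL D.mir FQ tq Cq P ρw R r ((1 / 2) ^ Fn ρ D.n) κ oR) (spc k K) (fun b => D.Q (en a0 b w)) j,
      ∀ G : Finset ℕ, G ⊆ range (Ln P D.n * P) → ∀ k₁ < In ρ b R D.n, ∀ Z : ℕ → Multiset (Fin N → ℝ),
      (∀ u < lamn ε R D.n, Okb (fam (flr ((1 / 2) ^ Fn ρ D.n))) (2 ^ b) R R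
        (WSd (sdL D.mir FQ tq Cq P ρw R r ((1 / 2) ^ Fn ρ D.n) κ oR) (spc k K) (fun b => D.Q (en a0 b w)))
        (VG (WSd (sdL D FP tp Ap P ρw R r ((1 / 2) ^ Fn ρ D.n) κ oL) (spc k K) (fun a => D.P (en a b0 w))) G)
        j (0 + (u + k₁) * R) v (Z u)) →
      ∑ u ∈ range (lamn ε R D.n), IZ (cw l (Fp D en a0 b0) w) (fun w => D.z (en a0 b0 w)) (fun _ => ())
        (Fn ρ D.n + b + R) (Fn ρ D.n + b + R) (Z u) (((1 : ℝ) / 2) ^ (0 + (u + k₁) * R) • v) ≤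
        c1 * (lamn ε R D.n : ℕ) + κC w j + cD * (range (Ln P D.n * P) \ G).card)
    (_ : ∑ w, l w * ∑ m ∈ range (Ln P D.n * P), κA w m ≤ τ0 * D.n ^ 2 / cD)
    (_ : ∑ w, l w * ∑ m ∈ range (Ln P D.n * P), κC w m ≤ τ0 * D.n ^ 2 / cD),
    TubF N D.n ε 0 (ρ ^ 2 / 256) D.μ D.F (fun ω => tp (D.P ω)) (fun ω => Ap (D.P ω)) := by
  have hN : (0 : ℝ) ≤ N := Nat.cast_nonneg N
  set ε1 := min ε (1 / 4) with hε1
  have hε1' : 0 < ε1 := lt_min hε (by norm_num)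
  have hε1q : ε1 ≤ 1 / 4 := min_le_right _ _
  have hε1e : ε1 ≤ ε := min_le_left _ _
  set γ := gmN N ρ (ε1 / 64) with hγ
  have hγ0 : 0 < γ := gmN_pos N hρ (by positivity)
  set τ1 := min (γ / 2) (ε1 / 256) with hτ1
  have hτ1' : 0 < τ1 := lt_min (by positivity) (by positivity)
  set e := min γ (ε1 ^ 2 / 2048) with he
  have he0 : 0 < e := lt_min hγ0 (by positivity)
  obtain ⟨k0, hk0⟩ := exists_nat_ge (8 * N / ε1)
  obtain ⟨εQ1, hεQ1, t, ht, η1, hη1, n6, hn6⟩ := se_const N he0 he0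
  refine ⟨e, ε1 / 16 * τ1 ^ 2, εQ1, η1, he0, by positivity, hεQ1, hη1, k0, ?_⟩
  intro b c1 hc1 R hR cD hcD κ hκe P ρw r S' hSP hPS hPr η hη0 hηη1 hηe
  have hc1' : 0 ≤ c1 := by
    refine le_trans ?_ hc1
    unfold cT
    have h1 := cF_nonneg N (C := 1) (by norm_num)
    have h2 : 0 ≤ Real.logb 2 ((N : ℝ) + 4) := Real.logb_nonneg (by norm_num) (by linarith)
    positivity
  have hR1 : 1 ≤ R := by
    have h1 : 0 ≤ aR1 N ρ * c1 := by
      unfold aR1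
      positivity
    have h2 : 0 ≤ 8 * (N + 2) * ((4 * N + 2) * cP N) / ρ := by
      have := cP_nonneg N
      positivity
    have h3 : (1 : ℝ) ≤ R := by
      unfold aR2 at hR
      linarith
    exact_mod_cast h3
  by_cases hρw : ρw = 0
  · -- no context
    refine ⟨0, ?_⟩
    intro Ω φ α β _ _ _ k K D _ εQ ηQ c _ tp tq Ap Cq _ FP _ FQ Λ _ l en E _ _ a0 b0 _ _ hcst
    have h1 := hcst.hD
    have h2 := hcst.hDρ
    omega
  have hρw1 : 1 ≤ ρw := by omega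
  have hP : 1 ≤ P := by omega
  obtain ⟨n1, hn1⟩ := num_XY N hρ (show 0 < ε1 / 64 by positivity) b hc1' R hR
  obtain ⟨n2, hn2⟩ := num_bd N hρ 270000 (by norm_num)
  obtain ⟨n3, hn3⟩ := num_lv ε hε R P S' hR1 hP (by omega) hPS
  obtain ⟨n4, hn4⟩ := Fn_ge hρ
  obtain ⟨n7, hn7⟩ := num_lev hρ hρ1 ε hε b R P 0 hR1 hP
  obtain ⟨n5, hn5⟩ := exists_nat_ge (8 * |Kas N| / ε1 + 1)
  refine ⟨max (max (max n1 n2) (max n3 n4)) (max n5 (max n6 n7)), ?_⟩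
  intro Ω φ α β _ _ _ k K D hn εQ ηQ c hεQ tp tq Ap Cq h FP hFP FQ Λ _ l en E hr hx a0 b0 hK hk hcst oL oR hb hE
    κA κC hκA hκC hA hC hKA hKC
  have hN1' : n1 ≤ D.n := (((le_max_left _ _).trans (le_max_left _ _)).trans (le_max_left _ _)).trans hn
  have hN2 : n2 ≤ D.n := (((le_max_right _ _).trans (le_max_left _ _)).trans (le_max_left _ _)).trans hn
  have hN3 : n3 ≤ D.n := (((le_max_left _ _).trans (le_max_right _ _)).trans (le_max_left _ _)).trans hn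
  have hN4 : n4 ≤ D.n := (((le_max_right _ _).trans (le_max_right _ _)).trans (le_max_left _ _)).trans hn
  have hN5 : (n5 : ℝ) ≤ D.n := by exact_mod_cast ((le_max_left _ _).trans (le_max_right _ _)).trans hn
  have hN6 : n6 ≤ D.n := (((le_max_left _ _).trans (le_max_right _ _)).trans (le_max_right _ _)).trans hn
  have hN7 : n7 ≤ D.n := (((le_max_right _ _).trans (le_max_right _ _)).trans (le_max_right _ _)).trans hn
  have hq : 8 * |Kas N| / ε1 + 1 ≤ D.n := hn5.trans hN5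
  have hq1 : 0 ≤ 8 * |Kas N| / ε1 := by positivity
  have hKa : 8 * |Kas N| ≤ ε1 * D.n := by
    have h1 : 8 * |Kas N| / ε1 ≤ D.n := by linarith
    rw [div_le_iff₀ hε1'] at h1
    linarith
  have hn1' : (1 : ℝ) ≤ D.n := by linarith
  have hn0 : (0 : ℝ) < D.n := by linarith
  have hFl := hn4 D.n hN4
  have hFle := Fn_le hρ1 D.n
  have hbig := hn1 D.n hN1' (Fn ρ D.n) hFl hFle
  obtain ⟨hlam, hlam2, hcard, hSm⟩ := hn3 D.n hN3
  obtain ⟨_, hL4, _⟩ := hn7 D.n hN7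
  obtain ⟨hs1, hs2, hs3, hs4⟩ := hn6 D.n hN6 η hηη1 εQ hεQ
  rw [← hε1] at hlam2 hcard hSm
  have hcD0 : 0 < cD := by linarith
  have hcard0 : (0 : ℝ) < (Smn ε R P S' D.n).card := lt_of_lt_of_le (by positivity) hcard
  have hne : (Smn ε R P S' D.n).Nonempty := by
    rw [← card_pos]
    exact_mod_cast hcard0
  have hKK : cD * (τ1 ^ 2 * D.n ^ 2 / cD / (τ1 * D.n)) = τ1 * D.n := by
    field_simp
  have hτγ : τ1 ≤ γ / 2 := min_le_left _ _
  have hτε : τ1 ≤ ε1 / 256 := min_le_right _ _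
  have hΓ : τ1 * D.n + cD * (τ1 ^ 2 * D.n ^ 2 / cD / (τ1 * D.n)) ≤ gmN N ρ (ε1 / 64) * D.n := by
    rw [hKK, ← hγ]
    have := mul_le_mul_of_nonneg_right hτγ hn0.le
    linarith
  have heγ : e ≤ γ := min_le_left _ _
  have heε : e ≤ ε1 ^ 2 / 2048 := min_le_right _ _
  have hXY := hbig (lamn ε R D.n) (e * D.n) (ρ * Fn ρ D.n - e * D.n)
    (τ1 * D.n + cD * (τ1 ^ 2 * D.n ^ 2 / cD / (τ1 * D.n))) hlam
    hlam2 (by rw [hKK]; positivity) hΓ (mul_le_mul_of_nonneg_right heγ hn0.le) (by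
      have := mul_le_mul_of_nonneg_right heγ hn0.le
      rw [← hγ]
      linarith)
  obtain ⟨hb1, hb2⟩ := hn2 D.n hN2 (Fn ρ D.n) hFl _ hXY
  have hFnat : (0 : ℝ) ≤ Fn ρ D.n := Nat.cast_nonneg _
  have hIR : Fn ρ D.n + b ≤ In ρ b R D.n * R := by
    unfold In
    have h1 := Nat.lt_div_mul_add (a := Fn ρ D.n + b) (b := R) (by omega)
    rw [Nat.add_mul, Nat.one_mul]
    omega
  have hsmall : ((1 : ℝ) / 2) ^ (In ρ b R D.n * R) * 2 ^ b ≤ (1 / 2) ^ Fn ρ D.n := by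
    calc ((1 : ℝ) / 2) ^ (In ρ b R D.n * R) * 2 ^ b ≤ (1 / 2) ^ (Fn ρ D.n + b) * 2 ^ b := by
          apply mul_le_mul_of_nonneg_right _ (by positivity)
          exact pow_le_pow_of_le_one (by norm_num) (by norm_num) hIR
      _ = (1 / 2) ^ Fn ρ D.n := by
          rw [pow_add, mul_assoc, ← mul_pow]
          norm_num
  have hLP4 : ((Ln P D.n : ℕ) : ℝ) * P ≤ D.n / 4 := by
    have h1 : (4 : ℝ) * (((Ln P D.n : ℕ) : ℝ) * P) ≤ D.n := by exact_mod_cast hL4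
    linarith
  have hρN : ρ ≤ N := by
    have : (1 : ℝ) ≤ N := by exact_mod_cast hN1
    linarith
  refine cfin (ε := ε) (κ' := ρ ^ 2 / 256) (θ := τ1 * D.n) (K' := τ1 ^ 2 * D.n ^ 2 / cD) (δ2 := ε1 / 16)
    (δ4 := ε1 / 16) (bd := 2 ^ (-(ρ * Fn ρ D.n / 2))) (cD := cD)
    h hFP hr hx a0 b0 hK hcst oL oR hSP (by omega) hb hFle hρN hη0 hE ht
    hs1 hs2 hs3 hs4 hc1 hR1 κA κC hκA hκC hcD0.le (by positivity) (by positivity) hA hC
    (hKA.trans (le_of_eq (by ring))) (hKC.trans (le_of_eq (by ring))) hlam (by rw [Nat.zero_add]; exact hsmall) hsmall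
    (Smn ε R P S' D.n) hne
    (fun m hm => ⟨⟨(hSm m hm).1, (hSm m hm).2.1⟩, (hSm m hm).2.2.1⟩) ?_ ?_ ?_ ?_ ?_ hb2 ?_
  · -- the entropy of the node
    intro m hm
    obtain ⟨h1, h2, h3, h4⟩ := hSm m hm
    have hlR : Real.logb 2 (Fintype.card (Rc N r)) ≤ P := by
      have g1 : (1 : ℝ) ≤ 64 * 2 ^ ρw * ρw := by
        have g2 : (1 : ℝ) ≤ 2 ^ ρw := one_le_pow₀ (by norm_num)
        have g3 : (1 : ℝ) ≤ ρw := by exact_mod_cast hρw1
        have h9 := one_le_mul_of_one_le_of_one_le g2 g3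
        rw [mul_assoc]
        linarith
      have g4 : 0 ≤ Real.logb 2 (Fintype.card (Rc N r)) := by
        have : Nonempty (Rc N r) := ⟨Pool.Agent.Helper9.ND.rc r 0⟩
        apply Real.logb_nonneg (by norm_num)
        exact_mod_cast Fintype.card_pos (α := Rc N r)
      have g5 : e ≤ 1 := by
        refine heε.trans ?_
        have h9 : ε1 ^ 2 ≤ 1 := pow_le_one₀ hε1'.le (by linarith)
        linarith
      have g6 : (0 : ℝ) ≤ P := Nat.cast_nonneg _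
      have g7 : 64 * 2 ^ ρw * (ρw * Real.logb 2 (Fintype.card (Rc N r))) =
          (64 * 2 ^ ρw * ρw) * Real.logb 2 (Fintype.card (Rc N r)) := by ring
      rw [g7] at hPr
      have g8 : 1 * Real.logb 2 (Fintype.card (Rc N r)) ≤ (64 * 2 ^ ρw * ρw) * Real.logb 2 (Fintype.card (Rc N r)) :=
        mul_le_mul_of_nonneg_right g1 g4
      have g9 : e * P ≤ 1 * P := mul_le_mul_of_nonneg_right g5 g6
      linarith
    have h6 : ((m / P : ℕ) : ℝ) * Real.logb 2 (Fintype.card (Rc N r)) ≤ m := by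
      calc ((m / P : ℕ) : ℝ) * Real.logb 2 (Fintype.card (Rc N r)) ≤ (m / P : ℕ) * P :=
            mul_le_mul_of_nonneg_left hlR (Nat.cast_nonneg _)
        _ ≤ m := by exact_mod_cast Nat.div_mul_le_self m P
    have h8 := mul_le_mul_of_nonneg_right hε1e hn0.le
    have h9 := mul_nonneg hε1'.le hn0.le
    linarith
  · -- the sizes
    intro m hm
    obtain ⟨h1, h2, h3, h4⟩ := hSm m hm
    have h5 : 2 * Kas N ≤ (2 : ℝ) ^ (7 / 8 * ε1 * D.n) := by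
      have h6 := half_le_rpow1 (y := 7 / 8 * ε1 * D.n) (by positivity)
      have h7 := le_abs_self (Kas N)
      have h8 : 0 ≤ ε1 * D.n := by positivity
      linarith
    have h6 : (2 : ℝ) ^ m ≤ 2 ^ (ε1 / 8 * D.n) := by
      rw [← Real.rpow_natCast]
      exact Real.rpow_le_rpow_of_exponent_le (by norm_num) h4
    calc 2 * (Kas N * 2 ^ m) = (2 * Kas N) * 2 ^ m := by ring
      _ ≤ (2 : ℝ) ^ (7 / 8 * ε1 * D.n) * 2 ^ (ε1 / 8 * D.n) :=
          mul_le_mul h5 h6 (by positivity) (by positivity)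
      _ = 2 ^ (ε1 * D.n) := by
          rw [← Real.rpow_add (by norm_num)]
          congr 1
          ring
      _ ≤ 2 ^ (ε * D.n) := by
          apply Real.rpow_le_rpow_of_exponent_le (by norm_num)
          exact mul_le_mul_of_nonneg_right hε1e hn0.le
  · -- the tubes
    have hL0 : (0 : ℝ) ≤ (Ln P D.n : ℕ) := Nat.cast_nonneg _
    have h1 : nBad N r ρw (Ln P D.n) (η * D.n) ≤ e * D.n + e * D.n / 4 := by
      have h2 : nBad N r ρw (Ln P D.n) (η * D.n) = 64 * 2 ^ ρw * (ρw * η) * D.n + (Ln P D.n : ℕ) *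
          (64 * 2 ^ ρw * (ρw * Real.logb 2 (Fintype.card (Rc N r)))) := by
        unfold nBad
        ring
      rw [h2]
      have h3 := mul_le_mul_of_nonneg_right hηe hn0.le
      have h4 := mul_le_mul_of_nonneg_left hPr hL0
      have h5 : ((Ln P D.n : ℕ) : ℝ) * (e * P) ≤ e * D.n / 4 := by
        calc ((Ln P D.n : ℕ) : ℝ) * (e * P) = e * (((Ln P D.n : ℕ) : ℝ) * P) := by ring
          _ ≤ e * (D.n / 4) := mul_le_mul_of_nonneg_left hLP4 he0.le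
          _ = e * D.n / 4 := by ring
      linarith
    have h2 : ((Ln P D.n : ℕ) : ℝ) * S' * (53248 * (((N : ℝ) + 1) * κ)) ≤ e * D.n / 4 := by
      have hκ0 : 0 ≤ 53248 * (((N : ℝ) + 1) * κ) := by
        have := hcst.hκ
        positivity
      have hS' : (S' : ℝ) ≤ P := by exact_mod_cast (show S' ≤ P by omega)
      calc ((Ln P D.n : ℕ) : ℝ) * S' * (53248 * (((N : ℝ) + 1) * κ))
          ≤ ((Ln P D.n : ℕ) : ℝ) * P * (53248 * (((N : ℝ) + 1) * κ)) :=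
            mul_le_mul_of_nonneg_right (mul_le_mul_of_nonneg_left hS' hL0) hκ0
        _ ≤ D.n / 4 * (53248 * (((N : ℝ) + 1) * κ)) := mul_le_mul_of_nonneg_right hLP4 hκ0
        _ ≤ D.n / 4 * e := mul_le_mul_of_nonneg_left hκe (by positivity)
        _ = e * D.n / 4 := by ring
    have h3 : 2 * (e * D.n) ≤ ε1 / 16 * (Smn ε R P S' D.n).card := by
      calc 2 * (e * D.n) ≤ 2 * (ε1 ^ 2 / 2048 * D.n) := by
            have := mul_le_mul_of_nonneg_right heε hn0.le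
            linarith
        _ = ε1 / 16 * (ε1 / 64 * D.n) := by ring
        _ ≤ ε1 / 16 * (Smn ε R P S' D.n).card := mul_le_mul_of_nonneg_left hcard (by positivity)
    have h4 : 0 < e * D.n := by positivity
    linarith
  · -- the floor
    rw [one_div, inv_pow, ← Real.rpow_natCast, ← Real.rpow_neg (by norm_num)]
    apply Real.rpow_le_rpow_of_exponent_le (by norm_num)
    have := mul_le_mul_of_nonneg_right hρ1 hFnat
    linarith
  · rw [Nat.cast_zero, zero_add]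
    exact hb1
  · -- the probabilities
    have h1 : ε1 / 16 * (τ1 ^ 2 * D.n ^ 2 / cD) / (τ1 * D.n) / (Smn ε R P S' D.n).card ≤ ε1 / 64 := by
      have h2 : ε1 / 16 * (τ1 ^ 2 * D.n ^ 2 / cD) / (τ1 * D.n) = ε1 / 16 * (τ1 * D.n / cD) := by
        field_simp
      rw [h2, div_le_iff₀ hcard0]
      have h3 : τ1 * D.n / cD ≤ ε1 / 256 * D.n := by
        rw [div_le_iff₀ hcD0]
        have h4 : τ1 * D.n ≤ ε1 / 256 * D.n := mul_le_mul_of_nonneg_right hτε hn0.le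
        have h5 : 0 ≤ ε1 / 256 * D.n := by positivity
        have h9 := mul_le_mul_of_nonneg_left hcD h5
        linarith
      have h6 := mul_le_mul_of_nonneg_left hcard (show 0 ≤ ε1 / 64 by positivity)
      have h7 := mul_le_mul_of_nonneg_left h3 (show 0 ≤ ε1 / 16 by positivity)
      have h8 : 0 ≤ ε1 * ε1 * D.n := by positivity
      linarith
    have h2 : (N : ℝ) / (k + 1) ≤ ε1 / 8 := by
      have h3 : (k0 : ℝ) ≤ k := by exact_mod_cast hk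
      rw [div_le_iff₀ (by positivity)]
      have h4 := hk0.trans h3
      rw [div_le_iff₀ hε1'] at h4
      linarith
    have h3 : e ≤ ε1 / 16 := by
      refine heε.trans ?_
      have h9 := mul_le_mul_of_nonneg_left hε1q hε1'.le
      rw [sq]
      linarith
    linarith

end Pool.Agent.Helper70.FW
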