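import Pool.Agent.Helper78.FW.FinA
import Pool.Agent.Helper62.FW.Asy
import Pool.Agent.Helper82.FW.Dig
import Pool.Agent.Helper18.FW.NumC

/-!
# Theorem FW: the numerical hypotheses of the finite theorem

`num_XY` : the exponent of the path; `num_bd` : the sizes; `num_lv` : the levels.
-/

set_option autoImplicit false

namespace Pool.Agent.Helper70.FW

open Finset Pool.Agent.Helper78.FW Pool.Agent.Helper15.VW

theorem cP_nonneg (N : ℕ) : 0 ≤ cP N := by
  have hN : (0 : ℝ) ≤ N := Nat.cast_nonneg N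
  have h1 : 0 ≤ Real.logb 2 (2 * (1 + 2 * ((N : ℝ) * 1))) := Real.logb_nonneg (by norm_num) (by linarith)
  have h2 : 0 ≤ Real.logb 2 (2 * (1 + 2 * ((N : ℝ) * (N + 1)))) := by
    apply Real.logb_nonneg (by norm_num)
    nlinarith
  have h3 := cF_nonneg N (C := (N : ℝ) + 1) (by linarith)
  unfold cP
  positivity

/-- the slope in the choice of `R` -/
noncomputable def aR1 (N : ℕ) (ρ : ℝ) : ℝ := 8 * (N + 2) * (2 * N) / ρ
/-- the constant in the choice of `R` -/
noncomputable def aR2 (N : ℕ) (ρ : ℝ) : ℝ := 8 * (N + 2) * ((4 * N + 2) * cP N) / ρ + 1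

/-- the rate of all errors -/
noncomputable def gmN (N : ℕ) (ρ e : ℝ) : ℝ := ρ ^ 2 / (1024 * (2 + N + (N + 2) * N / e))

theorem gmN_pos (N : ℕ) {ρ e : ℝ} (hρ : 0 < ρ) (he : 0 < e) : 0 < gmN N ρ e := by
  unfold gmN
  positivity

/-- the exponent of the path is at most `-(3/4) ρ F` -/
theorem num_XY (N : ℕ) {ρ e : ℝ} (hρ : 0 < ρ) (he : 0 < e) (b : ℕ) {c1 : ℝ} (hc1 : 0 ≤ c1) (R : ℕ)
    (hR : aR1 N ρ * c1 + aR2 N ρ ≤ R) : ∃ n0 : ℕ, ∀ n, n0 ≤ n → ∀ F : ℕ, ρ / 32 * n ≤ 2 * F → F ≤ n →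
      ∀ (lam : ℕ) (s E Γ : ℝ), 0 < lam → e * n ≤ lam * R → 0 ≤ Γ → Γ ≤ gmN N ρ e * n → s ≤ gmN N ρ e * n →
      ρ * F - gmN N ρ e * n ≤ E →
      XY N ((F + b) / R + 1) ((F + b) / R + 1) R lam (2 ^ b) ((1 / 2) ^ F) (cP N) c1 Γ s E ≤
        -(3 / 4 * ρ * F) := by
  have hN : (0 : ℝ) ≤ N := Nat.cast_nonneg N
  have hcP := cP_nonneg N
  have hlf : 0 ≤ Real.logb 2 N.factorial :=
    Real.logb_nonneg (by norm_num) (by exact_mod_cast N.factorial_pos)
  set C2 : ℝ := 2 * N * c1 + (4 * N + 2) * cP N with hC2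
  have hC2' : 0 ≤ C2 := by positivity
  set lf : ℝ := Real.logb 2 N.factorial with hlfd
  have ha1 : 0 ≤ aR1 N ρ := by
    unfold aR1
    positivity
  have ha2 : 0 ≤ 8 * (N + 2) * ((4 * N + 2) * cP N) / ρ := by positivity
  have hR1 : (1 : ℝ) ≤ R := by
    have h1 : 0 ≤ aR1 N ρ * c1 := mul_nonneg ha1 hc1
    unfold aR2 at hR
    linarith
  have hR0 : (0 : ℝ) < R := by linarith
  have hRρ : 8 * (N + 2) * C2 ≤ ρ * R := by
    have h1 : 8 * (N + 2) * C2 / ρ ≤ R := by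
      have h2 : 8 * (N + 2) * C2 / ρ = aR1 N ρ * c1 + 8 * (N + 2) * ((4 * N + 2) * cP N) / ρ := by
        rw [hC2]
        unfold aR1
        ring
      rw [h2]
      unfold aR2 at hR
      linarith
    rw [div_le_iff₀ hρ] at h1
    linarith
  have hR1' : 1 ≤ R := by exact_mod_cast hR1
  have hb0 : (0 : ℝ) ≤ b := Nat.cast_nonneg b
  set γ : ℝ := gmN N ρ e with hγ
  have hγ0 : 0 < γ := gmN_pos N hρ he
  -- constants
  set C4 : ℝ := 2 * N * cP N + ((N + 2) * b + lf) * C2 + 2 * C2 + ((N + 2) * b + lf) * N * γ / e +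
    2 * N * γ * R / e with hC4
  have hC4' : 0 ≤ C4 := by positivity
  obtain ⟨n0, hn0⟩ := exists_nat_ge (C4 * 1024 / ρ ^ 2 + 1)
  refine ⟨n0, fun n hn F hF1 hF2 lam s E Γ hlam1 hlam hΓ0 hΓ hs hE => ?_⟩
  have hn' : (n0 : ℝ) ≤ n := by exact_mod_cast hn
  have hC4n : C4 * 1024 ≤ ρ ^ 2 * n := by
    have h1 : C4 * 1024 / ρ ^ 2 ≤ n := by linarith
    rw [div_le_iff₀ (by positivity)] at h1
    linarith
  have hn1 : (1 : ℝ) ≤ n := by
    have : 0 ≤ C4 * 1024 / ρ ^ 2 := by positivity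
    linarith
  have hF2' : (F : ℝ) ≤ n := by exact_mod_cast hF2
  have hF0 : (0 : ℝ) ≤ F := Nat.cast_nonneg F
  have hlam0 : (0 : ℝ) < lam := by exact_mod_cast hlam1
  have hIR : ((F + b) / R + 1) * R ≤ F + b + R := by
    have := Nat.div_mul_le_self (F + b) R
    rw [Nat.add_mul, Nat.one_mul]
    omega
  have hX := XY_le (N := N) ((F + b) / R + 1) ((F + b) / R + 1) R lam F b (cP N) c1 Γ s E hR1' hlam1 hcP
    hc1 hΓ0 hIR hIR
  -- the product
  set W : ℝ := ((N + 2) * (F + b) + lf) / R + 2 with hW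
  have hW0 : 0 ≤ W := by positivity
  have hWC : W * C2 ≤ ρ * F / 8 + ((N + 2) * b + lf) * C2 + 2 * C2 := by
    have h1 : ((N + 2) * (F : ℝ)) / R * C2 ≤ ρ * F / 8 := by
      rw [div_mul_eq_mul_div, div_le_iff₀ hR0]
      have h2 := mul_le_mul_of_nonneg_right hRρ hF0
      linarith
    have h2 : ((N + 2) * (b : ℝ) + lf) / R * C2 ≤ ((N + 2) * b + lf) * C2 := by
      apply mul_le_mul_of_nonneg_right _ hC2'
      exact div_le_self (by positivity) hR1
    have h3 : W * C2 = ((N + 2) * (F : ℝ)) / R * C2 + ((N + 2) * (b : ℝ) + lf) / R * C2 + 2 * C2 := by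
      rw [hW]
      ring
    rw [h3]
    linarith
  have hWΓ : W * (N * Γ / lam) ≤ (N + 2) * N / e * γ * n + (((N + 2) * b + lf) * N * γ / e +
      2 * N * γ * R / e) := by
    have hRl : 0 < (R : ℝ) * lam := by positivity
    have h1 : N * Γ / (R * lam) ≤ N * γ / e := by
      rw [div_le_div_iff₀ hRl he]
      calc N * Γ * e ≤ N * (γ * n) * e := by
            apply mul_le_mul_of_nonneg_right _ he.le
            exact mul_le_mul_of_nonneg_left hΓ hN
        _ = N * γ * (e * n) := by ring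
        _ ≤ N * γ * (lam * R) := mul_le_mul_of_nonneg_left hlam (by positivity)
        _ = N * γ * (R * lam) := by ring
    have h2 : W * (N * Γ / lam) = ((N + 2) * (F + b) + lf + 2 * R) * (N * Γ / (R * lam)) := by
      rw [hW]
      field_simp
    rw [h2]
    calc ((N + 2) * ((F : ℝ) + b) + lf + 2 * R) * (N * Γ / (R * lam))
        ≤ ((N + 2) * ((n : ℝ) + b) + lf + 2 * R) * (N * γ / e) := by
          apply mul_le_mul _ h1 (by positivity) (by positivity)
          have h3 : ((N : ℝ) + 2) * (F + b) ≤ (N + 2) * (n + b) :=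
            mul_le_mul_of_nonneg_left (by linarith) (by linarith)
          linarith
      _ = (N + 2) * N / e * γ * n + (((N + 2) * b + lf) * N * γ / e + 2 * N * γ * R / e) := by ring
  have hsum : W * (2 * N * c1 + (4 * N + 2) * cP N + N * Γ / lam) = W * C2 + W * (N * Γ / lam) := by
    rw [hC2]
    ring
  rw [hsum] at hX
  have hFn : ρ ^ 2 * n ≤ 64 * (ρ * F) := by
    have h2 := mul_le_mul_of_nonneg_left hF1 hρ.le
    nlinarith only [h2]
  have hγn : (2 + N + (N + 2) * N / e) * γ * n ≤ ρ * F / 16 := by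
    have h1 : (2 + N + (N + 2) * N / e) * γ = ρ ^ 2 / 1024 := by
      rw [hγ]
      unfold gmN
      have : 2 + (N : ℝ) + (N + 2) * N / e ≠ 0 := by positivity
      field_simp
    rw [h1]
    linarith
  have hC4F : C4 ≤ ρ * F / 16 := by linarith
  have hNΓ : N * Γ ≤ N * (γ * n) := mul_le_mul_of_nonneg_left hΓ hN
  have hexp : (2 + N + (N + 2) * N / e) * γ * n = γ * n + γ * n + N * (γ * n) + (N + 2) * N / e * γ * n := by ring
  rw [hC4] at hC4F
  have hρF : 0 ≤ ρ * F := by positivity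
  linarith

/-- sizes: the vectors are short enough -/
theorem num_bd (N : ℕ) {ρ : ℝ} (hρ : 0 < ρ) (r : ℝ) (hr : 0 ≤ r) : ∃ n0 : ℕ, ∀ n, n0 ≤ n →
    ∀ F : ℕ, ρ / 32 * n ≤ 2 * F → ∀ x : ℝ, x ≤ -(3 / 4 * ρ * F) →
      N * (2 : ℝ) ^ x ≤ 2 ^ (-(ρ * F / 2)) ∧
        N * (r * (N * (2 : ℝ) ^ (-(ρ * F / 2)))) ≤ 2 ^ (-(ρ ^ 2 / 256 * n)) := by
  obtain ⟨n0, hn0⟩ := exists_nat_ge (512 / ρ ^ 2 * (N + N * r * N))
  refine ⟨n0, fun n hn F hF x hx => ?_⟩
  have hN : (0 : ℝ) ≤ N := Nat.cast_nonneg N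
  have hn' : (n0 : ℝ) ≤ n := by exact_mod_cast hn
  have hF0 : (0 : ℝ) ≤ F := Nat.cast_nonneg F
  have hρF : 0 ≤ ρ * F := by positivity
  have hFn : ρ ^ 2 * n ≤ 64 * (ρ * F) := by
    have h2 := mul_le_mul_of_nonneg_left hF hρ.le
    nlinarith
  have hbig : N + N * r * N ≤ ρ * F / 8 := by
    have h1 := hn0.trans hn'
    have h2 : 512 / ρ ^ 2 * (N + N * r * N) = 512 * (N + N * r * N) / ρ ^ 2 := by ring
    rw [h2, div_le_iff₀ (by positivity)] at h1
    linarith
  have hpow : N + N * r * N ≤ (2 : ℝ) ^ (ρ * F / 4) := by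
    have h1 := Real.add_one_le_exp (Real.log 2 * (ρ * F / 4))
    rw [← Real.rpow_def_of_pos (by norm_num)] at h1
    have h2 : (1 : ℝ) / 2 ≤ Real.log 2 := by
      have := Real.log_two_gt_d9
      linarith
    have h3 : 1 / 2 * (ρ * F / 4) ≤ Real.log 2 * (ρ * F / 4) := mul_le_mul_of_nonneg_right h2 (by positivity)
    linarith
  have hNrN : 0 ≤ N * r * N := by positivity
  constructor
  · calc N * (2 : ℝ) ^ x ≤ 2 ^ (ρ * F / 4) * 2 ^ (-(3 / 4 * ρ * F)) := by
          apply mul_le_mul (by linarith) _ (by positivity) (by positivity)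
          exact Real.rpow_le_rpow_of_exponent_le (by norm_num) hx
      _ = 2 ^ (-(ρ * F / 2)) := by
          rw [← Real.rpow_add (by norm_num)]
          congr 1
          ring
  · calc N * (r * (N * (2 : ℝ) ^ (-(ρ * F / 2)))) = N * r * N * 2 ^ (-(ρ * F / 2)) := by ring
      _ ≤ 2 ^ (ρ * F / 4) * 2 ^ (-(ρ * F / 2)) := by
          apply mul_le_mul_of_nonneg_right (by linarith) (by positivity)
      _ = 2 ^ (-(ρ * F / 4)) := by
          rw [← Real.rpow_add (by norm_num)]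
          congr 1
          ring
      _ ≤ 2 ^ (-(ρ ^ 2 / 256 * n)) := by
          apply Real.rpow_le_rpow_of_exponent_le (by norm_num)
          linarith

/-! ## The explicit numbers -/

/-- the depth of the floor -/
noncomputable def Fn (ρ : ℝ) (n : ℕ) : ℕ := ⌊ρ / 32 * n⌋₊

/-- the length of the progressions -/
noncomputable def In (ρ : ℝ) (b R n : ℕ) : ℕ := (Fn ρ n + b) / R + 1

/-- the number of steps of the second coordinate -/
noncomputable def lamn (ε : ℝ) (R n : ℕ) : ℕ := ⌊min ε (1 / 4) / (32 * R) * n⌋₊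

/-- the number of blocks -/
def Ln (P n : ℕ) : ℕ := n / (8 * P) + 1

theorem Fn_le {ρ : ℝ} (hρ1 : ρ ≤ 1) (n : ℕ) : Fn ρ n ≤ n := by
  unfold Fn
  apply Nat.floor_le_of_le
  have hn : (0 : ℝ) ≤ n := Nat.cast_nonneg n
  nlinarith

theorem Fn_le' {ρ : ℝ} (hρ : 0 < ρ) (hρ1 : ρ ≤ 1) (n : ℕ) : (Fn ρ n : ℝ) ≤ n / 32 := by
  unfold Fn
  have hn : (0 : ℝ) ≤ n := Nat.cast_nonneg n
  refine (Nat.floor_le (by positivity)).trans ?_
  nlinarith

theorem Fn_ge {ρ : ℝ} (hρ : 0 < ρ) : ∃ n0 : ℕ, ∀ n, n0 ≤ n → ρ / 32 * n ≤ 2 * (Fn ρ n : ℝ) := by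
  obtain ⟨n0, h⟩ := Pool.Agent.Helper62.FW.floor_half_ev (δ := ρ / 32) (by positivity)
  refine ⟨n0, fun n hn => ?_⟩
  have := h n hn
  unfold Fn
  linarith

/-- the levels of the progressions are below `L P ≤ n / 4` -/
theorem num_lev {ρ : ℝ} (hρ : 0 < ρ) (hρ1 : ρ ≤ 1) (ε : ℝ) (hε : 0 < ε) (b R P C : ℕ) (hR : 1 ≤ R) (hP : 1 ≤ P) :
    ∃ n0 : ℕ, ∀ n, n0 ≤ n → (lamn ε R n + In ρ b R n) * R + Fn ρ n + C ≤ Ln P n * P ∧ 4 * (Ln P n * P) ≤ n ∧
      n ≤ 8 * (Ln P n * P) := by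
  refine ⟨8 * P + 32 * (b + R + C), fun n hn => ?_⟩
  have hR0 : (0 : ℝ) < R := by exact_mod_cast hR
  have h8 : n ≤ 8 * (Ln P n * P) := by
    unfold Ln
    have h1 := Nat.lt_div_mul_add (a := n) (b := 8 * P) (by omega)
    have h2 : 8 * ((n / (8 * P) + 1) * P) = n / (8 * P) * (8 * P) + 8 * P := by ring
    omega
  have h4 : 4 * (Ln P n * P) ≤ n := by
    unfold Ln
    have h1 := Nat.div_mul_le_self n (8 * P)
    have h2 : 8 * ((n / (8 * P) + 1) * P) = n / (8 * P) * (8 * P) + 8 * P := by ring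
    omega
  refine ⟨?_, h4, h8⟩
  have hlam : (lamn ε R n : ℝ) * R ≤ n / 128 := by
    have h1 : (lamn ε R n : ℝ) ≤ min ε (1 / 4) / (32 * R) * n := by
      unfold lamn
      exact Nat.floor_le (by positivity)
    have h2 : (lamn ε R n : ℝ) * R ≤ min ε (1 / 4) / (32 * R) * n * R := mul_le_mul_of_nonneg_right h1 hR0.le
    have h3 : min ε (1 / 4) / (32 * R) * n * R = min ε (1 / 4) * (n / 32) := by
      field_simp
    have h4 : min ε (1 / 4) * ((n : ℝ) / 32) ≤ 1 / 4 * (n / 32) :=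
      mul_le_mul_of_nonneg_right (min_le_right _ _) (by positivity)
    linarith
  have hI : In ρ b R n * R ≤ Fn ρ n + b + R := by
    unfold In
    have := Nat.div_mul_le_self (Fn ρ n + b) R
    rw [Nat.add_mul, Nat.one_mul]
    omega
  have hI' : (In ρ b R n : ℝ) * R ≤ Fn ρ n + b + R := by exact_mod_cast hI
  have hF := Fn_le' hρ hρ1 n
  have h8' : (n : ℝ) ≤ 8 * (Ln P n * P : ℕ) := by exact_mod_cast h8
  have hn' : (8 * P + 32 * (b + R + C) : ℝ) ≤ n := by exact_mod_cast hn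
  have hP0 : (0 : ℝ) ≤ P := Nat.cast_nonneg P
  have key : (((lamn ε R n + In ρ b R n) * R + Fn ρ n + C : ℕ) : ℝ) ≤ (Ln P n * P : ℕ) := by
    push_cast
    push_cast at h8'
    rw [add_mul]
    linarith
  exact_mod_cast key

/-- the levels of the tubes -/
noncomputable def Smn (ε : ℝ) (R P S' n : ℕ) : Finset ℕ :=
  (Ico (0 + lamn ε R n * R) ⌊min ε (1 / 4) / 8 * n⌋₊).filter fun m => m % P < S'

theorem num_lv (ε : ℝ) (hε : 0 < ε) (R P S' : ℕ) (hR : 1 ≤ R) (hP : 1 ≤ P) (hS : S' ≤ P) (hS2 : P ≤ 2 * S') :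
    ∃ n0 : ℕ, ∀ n, n0 ≤ n → 0 < lamn ε R n ∧ min ε (1 / 4) / 64 * n ≤ lamn ε R n * R ∧
      min ε (1 / 4) / 64 * n ≤ (Smn ε R P S' n).card ∧
      (∀ m ∈ Smn ε R P S' n, m < Ln P n * P ∧ m % P < S' ∧ 0 + lamn ε R n * R ≤ m ∧
        (m : ℝ) ≤ min ε (1 / 4) / 8 * n) := by
  have hR0 : (0 : ℝ) < R := by exact_mod_cast hR
  set e := min ε (1 / 4) with he
  have he0 : 0 < e := lt_min hε (by norm_num)
  have he1 : e ≤ 1 / 4 := min_le_right _ _
  obtain ⟨n1, h1⟩ := Pool.Agent.Helper62.FW.floor_half_ev (δ := e / (32 * R)) (by positivity)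
  obtain ⟨n2, h2⟩ := exists_nat_ge ((P + 2) * 64 / e + 64 * R / e)
  refine ⟨max n1 n2, fun n hn => ?_⟩
  have hn1 : n1 ≤ n := (le_max_left _ _).trans hn
  have hn2 : (n2 : ℝ) ≤ n := by exact_mod_cast (le_max_right _ _).trans hn
  have hn0 : (0 : ℝ) ≤ n := Nat.cast_nonneg n
  have hq := h2.trans hn2
  rw [← add_div, div_le_iff₀ he0] at hq
  have g1 : e / 64 * n ≤ lamn ε R n * R := by
    have h3 := mul_le_mul_of_nonneg_right (h1 n hn1) hR0.le
    have h4 : e / (32 * R) * n / 2 * R = e / 64 * n := by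
      field_simp
      ring
    rw [h4] at h3
    exact h3
  have hlam : (lamn ε R n : ℝ) * R ≤ e / 32 * n := by
    have h3 : (lamn ε R n : ℝ) ≤ e / (32 * R) * n := by
      unfold lamn
      exact Nat.floor_le (by positivity)
    have h4 : (lamn ε R n : ℝ) * R ≤ e / (32 * R) * n * R := mul_le_mul_of_nonneg_right h3 hR0.le
    have h5 : e / (32 * R) * n * R = e / 32 * n := by
      field_simp
    linarith
  have hP0 : (1 : ℝ) ≤ P := by exact_mod_cast hP
  have g0 : 0 < lamn ε R n := by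
    by_contra h0
    have h3 : lamn ε R n = 0 := by omega
    rw [h3] at g1
    norm_num at g1
    nlinarith only [hq, g1]
  refine ⟨g0, g1, ?_, ?_⟩
  · -- the number of levels
    set m1 := ⌊e / 8 * n⌋₊ with hm1
    have hm1' : e / 8 * n - 1 ≤ (m1 : ℝ) := (Nat.sub_one_lt_floor _).le
    have hcard : (Smn ε R P S' n).card + ((range m1).filter (fun m => ¬ m % P < S')).card + lamn ε R n * R ≥ m1 := by
      have h3 : range m1 ⊆ Smn ε R P S' n ∪ (range m1).filter (fun m => ¬ m % P < S') ∪ range (lamn ε R n * R) := by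
        intro m hm
        rw [mem_range] at hm
        unfold Smn
        simp only [mem_union, mem_filter, mem_Ico, mem_range]
        by_cases h5 : m % P < S'
        · by_cases h6 : m < lamn ε R n * R
          · exact Or.inr h6
          · left
            left
            exact ⟨⟨by omega, hm⟩, h5⟩
        · left
          right
          exact ⟨hm, h5⟩
      have h4 := card_le_card h3
      rw [card_range] at h4
      have h5 := card_union_le (Smn ε R P S' n ∪ (range m1).filter (fun m => ¬ m % P < S')) (range (lamn ε R n * R))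
      have h6 := card_union_le (Smn ε R P S' n) ((range m1).filter (fun m => ¬ m % P < S'))
      rw [card_range] at h5
      omega
    have hgap := Pool.Agent.Helper82.FW.card_gap_le m1 P S' (by omega) hS
    have hgap2 : 2 * ((m1 / P + 1) * (P - S')) ≤ m1 + P := by
      have h3 := Nat.div_mul_le_self m1 P
      have h4 : 2 * (P - S') ≤ P := by omega
      calc 2 * ((m1 / P + 1) * (P - S')) = (m1 / P + 1) * (2 * (P - S')) := by ring
        _ ≤ (m1 / P + 1) * P := Nat.mul_le_mul_left _ h4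
        _ = m1 / P * P + P := by ring
        _ ≤ m1 + P := by omega
    have hfin : m1 ≤ 2 * (Smn ε R P S' n).card + 2 * (lamn ε R n * R) + P := by omega
    have hfin' : (m1 : ℝ) ≤ 2 * ((Smn ε R P S' n).card : ℝ) + 2 * (lamn ε R n * R) + P := by exact_mod_cast hfin
    nlinarith only [hq, hlam, hm1', hfin']
  · intro m hm
    unfold Smn at hm
    rw [mem_filter, mem_Ico] at hm
    obtain ⟨⟨h3, h4⟩, h5⟩ := hm
    have h6 : (m : ℝ) ≤ e / 8 * n := by
      have h7 : (m : ℝ) ≤ (⌊e / 8 * n⌋₊ : ℕ) := by exact_mod_cast h4.le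
      exact h7.trans (Nat.floor_le (by positivity))
    refine ⟨?_, h5, h3, h6⟩
    have h8 : n < 8 * (Ln P n * P) := by
      unfold Ln
      have h1 := Nat.lt_div_mul_add (a := n) (b := 8 * P) (by omega)
      have h2 : 8 * ((n / (8 * P) + 1) * P) = n / (8 * P) * (8 * P) + 8 * P := by ring
      omega
    have h9 : (n : ℝ) < 8 * (Ln P n * P : ℕ) := by exact_mod_cast h8
    have h10 : (m : ℝ) < (Ln P n * P : ℕ) := by
      have : e / 8 * n ≤ 1 / 4 / 8 * n := by
        apply mul_le_mul_of_nonneg_right _ hn0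
        linarith
      linarith
    exact_mod_cast h10

end Pool.Agent.Helper70.FW
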