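import Pool.Agent.Helper46.LIN.Lift

/-! Extensions of a restricted space: lifting of informations and functions to an extension of the space; criteria on
the two parts of a partition. -/

set_option autoImplicit false

namespace Pool.Agent.Helper70.FW

open Finset Filter Topology Pool.Agent.Helper69.RK Pool.Agent.Helper31.EC Pool.Agent.Helper46.LIN

noncomputable section

open Sp QS

section parts

variable {S : Sp} {D : ∀ k, (S.F k).Ω → Prop}

/-- orders are checked on the two parts -/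
theorem le_of_parts (hD : 0 < ul (S.pr D)) {x y : S.L} (h1 : restL D hD x ≤ restL D hD y)
    (h2 : ∀ hD' : 0 < ul (S.pr fun k ω => ¬ D k ω), restL (fun k ω => ¬ D k ω) hD' x ≤ restL (fun k ω => ¬ D k ω) hD' y) :
    x ≤ y := by
  rcases typ_or D with ht | hD'
  · rwa [← restL_le_typ D ht]
  · rw [← h_eq_zero_iff, h_split D hD hD', h_eq_zero_iff.mpr h1, h_eq_zero_iff.mpr (h2 hD')]
    ring

/-- independence is checked on the two parts -/
theorem I_of_parts (hD : 0 < ul (S.pr D)) {x y z : S.L} (h1 : I (restL D hD x) (restL D hD y) (restL D hD z) = 0)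
    (h2 : ∀ hD' : 0 < ul (S.pr fun k ω => ¬ D k ω), I (restL (fun k ω => ¬ D k ω) hD' x)
      (restL (fun k ω => ¬ D k ω) hD' y) (restL (fun k ω => ¬ D k ω) hD' z) = 0) :
    I x y z = 0 := by
  rcases typ_or D with ht | hD'
  · rw [I_eq, ← restL_sup, h_restL_typ D ht, h_restL_typ D ht, ← I_eq] at h1
    exact h1
  · rw [I_split D hD hD', h1, h2 hD']
    ring

/-- typical events are checked on the two parts -/
theorem typ_of_parts (_hD : 0 < ul (S.pr D)) {A : ∀ k, (S.F k).Ω → Prop} (h1 : Typ (S := S.rest D) A)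
    (h2 : 0 < ul (S.pr fun k ω => ¬ D k ω) → Typ (S := S.rest fun k ω => ¬ D k ω) A) : Typ (S := S) A := by
  have key : ∀ (G : ∀ k, (S.F k).Ω → Prop), (0 < ul (S.pr G) → Typ (S := S.rest G) A) →
      Tendsto (fun k => S.pr (fun k ω => G k ω ∧ ¬ A k ω) k) UF (𝓝 0) := by
    intro G hG
    by_cases h0 : 0 < ul (S.pr G)
    · have h3 := hG h0
      unfold Typ at h3
      have h4 : ∀ᶠ k in UF, 0 < S.pr G k := (ul_tendsto (UB_pr G)).eventually (lt_mem_nhds h0)
      refine squeeze_zero' (Eventually.of_forall fun k => pr_nonneg _ k) ?_ h3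
      filter_upwards [h4] with k hk
      have e1 : mass (res ((S.rest G).F k).μ (fun ω => ¬ A k ω)) = (S.pr G k)⁻¹ * S.pr (fun k ω => G k ω ∧ ¬ A k ω) k := by
        show ∑ ω, res ((S.F k).restμ (G k)) (fun ω => ¬ A k ω) ω = _
        rw [(S.F k).restμ_eq (G k) hk.ne']
        show _ = (S.pr G k)⁻¹ * ∑ ω, _
        rw [Finset.mul_sum]
        apply Finset.sum_congr rfl
        intro ω _
        by_cases ha : A k ω
        · rw [res_neg _ (fun ω => ¬ A k ω) ω (fun hc => hc ha), res_neg _ (fun ω => G k ω ∧ ¬ A k ω) ω (fun hc => hc.2 ha),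
            mul_zero]
        · rw [res_pos _ (fun ω => ¬ A k ω) ω ha]
          show (S.pr G k)⁻¹ * res (S.F k).μ (G k) ω = _
          by_cases hg : G k ω
          · rw [res_pos _ (G k) ω hg, res_pos _ (fun ω => G k ω ∧ ¬ A k ω) ω ⟨hg, ha⟩]
          · rw [res_neg _ (G k) ω hg, res_neg _ (fun ω => G k ω ∧ ¬ A k ω) ω (fun hc => hg hc.1)]
      show S.pr (fun k ω => G k ω ∧ ¬ A k ω) k ≤ mass (res ((S.rest G).F k).μ (fun ω => ¬ A k ω))
      rw [e1]
      have h5 : 1 ≤ (S.pr G k)⁻¹ := (one_le_inv₀ hk).mpr (pr_le_one G k)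
      have h6 := mul_le_mul_of_nonneg_right h5 (pr_nonneg (fun k ω => G k ω ∧ ¬ A k ω) k)
      rwa [one_mul] at h6
    · have h1 : ul (S.pr G) = 0 := by
        apply le_antisymm (not_lt.mp h0)
        exact const_le_ul (UB_pr G) (Eventually.of_forall fun k => pr_nonneg G k)
      have h2 := ul_tendsto (UB_pr G)
      rw [h1] at h2
      refine squeeze_zero' (Eventually.of_forall fun k => pr_nonneg _ k) (Eventually.of_forall fun k => ?_) h2
      exact (S.F k).pb_mono (fun ω _ hc => hc.1)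
  have k1 := key D (fun _ => h1)
  have k2 := key (fun k ω => ¬ D k ω) h2
  have k3 := k1.add k2
  rw [add_zero] at k3
  unfold Typ
  refine squeeze_zero' (Eventually.of_forall fun k => mass_res_nonneg k _) (Eventually.of_forall fun k => ?_) k3
  show ∑ ω, _ ≤ ∑ ω, _ + ∑ ω, _
  rw [← Finset.sum_add_distrib]
  apply Finset.sum_le_sum
  intro ω _
  by_cases ha : A k ω
  · rw [res_neg _ (fun ω => ¬ A k ω) ω (fun hc => hc ha)]
    exact add_nonneg ((S.F k).res_nonneg _ ω) ((S.F k).res_nonneg _ ω)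
  · rw [res_pos _ (fun ω => ¬ A k ω) ω ha]
    by_cases hd : D k ω
    · rw [res_pos _ (fun ω => D k ω ∧ ¬ A k ω) ω ⟨hd, ha⟩]
      have := (S.F k).res_nonneg (fun ω => ¬ D k ω ∧ ¬ A k ω) ω
      linarith
    · rw [res_pos _ (fun ω => ¬ D k ω ∧ ¬ A k ω) ω ⟨hd, ha⟩]
      have := (S.F k).res_nonneg (fun ω => D k ω ∧ ¬ A k ω) ω
      linarith

/-- ideals are checked on the two parts -/
theorem Id_of_parts (hD : 0 < ul (S.pr D)) {f : QS S} {r : ℝ} (hr : r ≤ 1) (h1 : QS.rest D hD f ∈ Id (S.rest D) r)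
    (h2 : ∀ hD' : 0 < ul (S.pr fun k ω => ¬ D k ω), QS.rest (fun k ω => ¬ D k ω) hD' f ∈
      Id (S.rest fun k ω => ¬ D k ω) r) : f ∈ Id S r := by
  obtain ⟨f, rfl⟩ := mk_surj f
  rw [mk_mem_Id hr, TR.ag_iff_levels]
  intro δ hδ
  rw [QS.rest_mk, mk_mem_Id hr] at h1
  refine typ_of_parts hD (h1.levels hδ) ?_
  intro hD'
  have h3 := h2 hD'
  rw [QS.rest_mk, mk_mem_Id hr] at h3
  exact h3.levels hδ

theorem eq_of_parts (hD : 0 < ul (S.pr D)) {f g : QS S} (h1 : QS.rest D hD f = QS.rest D hD g)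
    (h2 : ∀ hD' : 0 < ul (S.pr fun k ω => ¬ D k ω), QS.rest (fun k ω => ¬ D k ω) hD' f =
      QS.rest (fun k ω => ¬ D k ω) hD' g) : f = g := by
  rw [← sub_eq_zero, ← mem_Id_one]
  refine Id_of_parts hD le_rfl ?_ ?_
  · rw [map_sub, h1, sub_self]
    exact (Id _ 1).zero_mem
  · intro hD'
    rw [map_sub, h2 hD', sub_self]
    exact (Id _ 1).zero_mem

theorem cl_le_of_supp {A B : S.Inf} (h : ∀ᶠ k in UF, ∀ ω ω', (S.F k).μ ω ≠ 0 → (S.F k).μ ω' ≠ 0 →
    B.1 k ω ω' → A.1 k ω ω') : (Sp.cl A : S.L) ≤ Sp.cl B := by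
  rw [cl_le]
  apply Tendsto.congr' _ tendsto_const_nhds
  filter_upwards [h] with k hk
  unfold rt
  rw [(S.F k).e_zero, zero_div]
  intro ω ω' h1 h2 h3
  exact hk ω ω' h1 h2 h3.1

theorem supp_rest (hD : 0 < ul (S.pr D)) :
    ∀ᶠ k in UF, ∀ ω, ((S.rest D).F k).μ ω ≠ 0 → (S.F k).μ ω ≠ 0 ∧ D k ω := by
  have h0 := ul_tendsto (UB_pr D)
  filter_upwards [h0.eventually (lt_mem_nhds hD)] with k hk ω hω
  obtain ⟨h1, h2⟩ := (S.F k).rest_supp (D k) ω hω
  exact ⟨h1, h2 (ne_of_gt hk)⟩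

open Classical in
theorem nvf_part {Ω α β γ : Type} [Fintype Ω] (μ μ' : Ω → ℝ) (D : Ω → Prop) (a : Ω → α) (f : Ω → β) (g : Ω → γ)
    (ω ω0 : Ω) (z0 : g ω0 = g ω) (hs : ∀ ω', μ ω' ≠ 0 → D ω' → μ' ω' ≠ 0)
    (h1 : ∀ ω1 ω2, μ ω1 ≠ 0 → μ ω2 ≠ 0 → D ω1 → D ω2 → a ω1 = a ω2 → f ω1 = f ω2)
    (h2 : ∀ ω1 ω2, ¬ D ω1 → ¬ D ω2 → f ω1 = f ω2) : nvf μ f g ω ≤ nvf μ' a g ω0 + 1 := by
  have e1 : nvf μ f g ω ≤ (((univ : Finset Ω).filter (fun ω' => (μ ω' ≠ 0 ∧ g ω' = g ω) ∧ D ω')).image f).card +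
      (((univ : Finset Ω).filter (fun ω' => (μ ω' ≠ 0 ∧ g ω' = g ω) ∧ ¬ D ω')).image f).card := by
    unfold nvf
    refine le_trans (Finset.card_le_card ?_) (Finset.card_union_le _ _)
    intro q hq
    rw [Finset.mem_image] at hq
    obtain ⟨ω', hω', rfl⟩ := hq
    rw [Finset.mem_filter] at hω'
    rw [Finset.mem_union]
    by_cases hd : D ω'
    · left
      exact Finset.mem_image_of_mem _ (Finset.mem_filter.mpr ⟨Finset.mem_univ _, hω'.2, hd⟩)
    · right
      exact Finset.mem_image_of_mem _ (Finset.mem_filter.mpr ⟨Finset.mem_univ _, hω'.2, hd⟩)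
  have e2 : (((univ : Finset Ω).filter (fun ω' => (μ ω' ≠ 0 ∧ g ω' = g ω) ∧ ¬ D ω')).image f).card ≤ 1 := by
    rw [Finset.card_le_one]
    intro x hx y hy
    rw [Finset.mem_image] at hx hy
    obtain ⟨ω1, g1, rfl⟩ := hx
    obtain ⟨ω2, g2, rfl⟩ := hy
    rw [Finset.mem_filter] at g1 g2
    exact h2 ω1 ω2 g1.2.2 g2.2.2
  have e3 : (((univ : Finset Ω).filter (fun ω' => (μ ω' ≠ 0 ∧ g ω' = g ω) ∧ D ω')).image f).card ≤ nvf μ' a g ω0 := by
    unfold nvf
    apply Finset.card_le_card_of_surjOn (fun q : α => if hq : ∃ ω', (μ ω' ≠ 0 ∧ g ω' = g ω) ∧ D ω' ∧ a ω' = q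
      then f hq.choose else f ω)
    intro q hq
    rw [Finset.mem_coe, Finset.mem_image] at hq
    obtain ⟨ω', hω', rfl⟩ := hq
    rw [Finset.mem_filter] at hω'
    refine ⟨a ω', ?_, ?_⟩
    · rw [Finset.mem_coe, Finset.mem_image]
      exact ⟨ω', Finset.mem_filter.mpr ⟨Finset.mem_univ _, hs ω' hω'.2.1.1 hω'.2.2, hω'.2.1.2.trans z0.symm⟩, rfl⟩
    · have hq : ∃ ω₁, (μ ω₁ ≠ 0 ∧ g ω₁ = g ω) ∧ D ω₁ ∧ a ω₁ = a ω' := ⟨ω', hω'.2.1, hω'.2.2, rfl⟩
      beta_reduce
      rw [dif_pos hq]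
      obtain ⟨b1, b2, b3⟩ := hq.choose_spec
      exact h1 _ _ b1.1 hω'.2.1.1 b2 hω'.2.2 b3
  omega

open Classical in
theorem nvf_part' {Ω β γ : Type} [Fintype Ω] (μ : Ω → ℝ) (D : Ω → Prop) (f : Ω → β) (g : Ω → γ)
    (ω : Ω) (h : ∀ ω0, μ ω0 ≠ 0 → g ω0 = g ω → ¬ D ω0)
    (h2 : ∀ ω1 ω2, ¬ D ω1 → ¬ D ω2 → f ω1 = f ω2) : nvf μ f g ω ≤ 1 := by
  unfold nvf
  rw [Finset.card_le_one]
  intro x hx y hy
  rw [Finset.mem_image] at hx hy
  obtain ⟨ω1, g1, rfl⟩ := hx
  obtain ⟨ω2, g2, rfl⟩ := hy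
  rw [Finset.mem_filter] at g1 g2
  exact h2 ω1 ω2 (h ω1 g1.2.1 g1.2.2) (h ω2 g2.2.1 g2.2.2)

open Classical in
/-- an information on the event, nothing off the event -/
theorem exists_unrest (hD : 0 < ul (S.pr D)) (Y : (S.rest D).L) :
    ∃ X : S.L, restL D hD X = Y ∧ ∀ hD' : 0 < ul (S.pr fun k ω => ¬ D k ω), restL (fun k ω => ¬ D k ω) hD' X = ⊥ := by
  induction Y using Sp.cl_ind with | _ A
  obtain ⟨A, hA⟩ := A
  have hs := supp_rest hD
  obtain ⟨f, hf⟩ : ∃ f : ∀ k, (S.F k).Ω → Option (Quotient (A k)), f = fun k ω =>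
    if D k ω then some (Quotient.mk (A k) ω) else none := ⟨_, rfl⟩
  have hVB : S.VB (fun k => Setoid.ker (f k)) := by
    obtain ⟨C, hC⟩ := hA
    refine ⟨max C 0 + 1, ?_⟩
    filter_upwards [hC, hs, S.eventually_le_two_pow 2] with k h1 h2 h3 ω hω
    have e1 : (nv (S.F k) (Setoid.ker (f k)) ω : ℝ) ≤ 2 ^ (max C 0 * (S.F k).n) + 1 := by
      have e2 : nv (S.F k) (Setoid.ker (f k)) ω ≤ nvf (S.F k).μ (f k) (Quotient.mk (S.F k).Z) ω := by
        apply nvf_mono
        intro ω₁ ω₂ _ _ _ _ h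
        exact Quotient.sound h
      have e3 : (nvf (S.F k).μ (f k) (Quotient.mk (S.F k).Z) ω : ℝ) ≤ 2 ^ (max C 0 * (S.F k).n) + 1 := by
        by_cases h4 : ∃ ω0, (S.F k).μ ω0 ≠ 0 ∧ D k ω0 ∧ Quotient.mk (S.F k).Z ω0 = Quotient.mk (S.F k).Z ω
        · obtain ⟨ω0, m0, d0, z0⟩ := h4
          have h5 := h1 ω0 ((S.F k).rest_supp' (D k) ω0 m0 d0)
          have h6 : nvf (S.F k).μ (f k) (Quotient.mk (S.F k).Z) ω ≤
              nvf ((S.rest D).F k).μ (Quotient.mk (A k)) (Quotient.mk (S.F k).Z) ω0 + 1 := by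
            refine nvf_part (S.F k).μ ((S.rest D).F k).μ (D k) _ _ _ ω ω0 z0
              (fun ω' m d => (S.F k).rest_supp' (D k) ω' m d) ?_ ?_
            · intro ω1 ω2 _ _ d1 d2 h
              rw [hf]
              beta_reduce
              rw [if_pos d1, if_pos d2, h]
            · intro ω1 ω2 d1 d2
              rw [hf]
              beta_reduce
              rw [if_neg d1, if_neg d2]
          have h7 : (2 : ℝ) ^ (C * (S.F k).n) ≤ 2 ^ (max C 0 * (S.F k).n) := by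
            apply Real.rpow_le_rpow_of_exponent_le one_le_two
            exact mul_le_mul_of_nonneg_right (le_max_left _ _) (S.F k).pos.le
          have h8 : (nvf ((S.rest D).F k).μ (Quotient.mk (A k)) (Quotient.mk (S.F k).Z) ω0 : ℝ) ≤
              2 ^ (C * (S.F k).n) := h5
          have h9 : (nvf (S.F k).μ (f k) (Quotient.mk (S.F k).Z) ω : ℝ) ≤
              nvf ((S.rest D).F k).μ (Quotient.mk (A k)) (Quotient.mk (S.F k).Z) ω0 + 1 := by exact_mod_cast h6
          linarith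
        · have h5 : nvf (S.F k).μ (f k) (Quotient.mk (S.F k).Z) ω ≤ 1 := by
            refine nvf_part' (S.F k).μ (D k) _ _ ω (fun ω0 m z d => h4 ⟨ω0, m, d, z⟩) ?_
            intro ω1 ω2 d1 d2
            rw [hf]
            beta_reduce
            rw [if_neg d1, if_neg d2]
          have h6 : (nvf (S.F k).μ (f k) (Quotient.mk (S.F k).Z) ω : ℝ) ≤ 1 := by exact_mod_cast h5
          have h7 : (0 : ℝ) ≤ 2 ^ (max C 0 * (S.F k).n) := by positivity
          linarith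
      have e4 : (nv (S.F k) (Setoid.ker (f k)) ω : ℝ) ≤ nvf (S.F k).μ (f k) (Quotient.mk (S.F k).Z) ω := by
        exact_mod_cast e2
      exact e4.trans e3
    have e5 : (1 : ℝ) ≤ 2 ^ (max C 0 * (S.F k).n) :=
      Real.one_le_rpow one_le_two (mul_nonneg (le_max_right _ _) (S.F k).pos.le)
    have e6 : (2 : ℝ) ^ ((max C 0 + 1) * (S.F k).n) = 2 ^ (max C 0 * (S.F k).n) * 2 ^ (S.F k).n := by
      rw [← Real.rpow_add (by norm_num : (0 : ℝ) < 2)]
      congr 1; ring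
    rw [e6]
    nlinarith
  refine ⟨Sp.cl ⟨_, hVB⟩, ?_, ?_⟩
  · rw [restL_cl]
    apply le_antisymm
    · apply cl_le_of_supp
      filter_upwards [hs] with k h2 ω ω' m1 m2 h
      show f k ω = f k ω'
      rw [hf]
      beta_reduce
      rw [if_pos (h2 ω m1).2, if_pos (h2 ω' m2).2]
      exact congrArg some (Quotient.sound h)
    · apply cl_le_of_supp
      filter_upwards [hs] with k h2 ω ω' m1 m2 h
      have h3 : f k ω = f k ω' := h
      rw [hf] at h3
      beta_reduce at h3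
      rw [if_pos (h2 ω m1).2, if_pos (h2 ω' m2).2] at h3
      exact Quotient.exact (Option.some_injective _ h3)
  · intro hD'
    rw [restL_cl, ← cl_bot]
    apply le_antisymm
    · apply cl_le_of_supp
      filter_upwards [supp_rest hD'] with k h2 ω ω' m1 m2 _
      show f k ω = f k ω'
      rw [hf]
      beta_reduce
      rw [if_neg (h2 ω m1).2, if_neg (h2 ω' m2).2]
    · rw [cl_bot]
      exact bot_le

open Classical in
/-- a function on the event and another function off the event -/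
theorem exists_glueQ (hD : 0 < ul (S.pr D)) (w : QS (S.rest D)) (v : QS S) :
    ∃ u : QS S, QS.rest D hD u = w ∧ ∀ hD' : 0 < ul (S.pr fun k ω => ¬ D k ω),
      QS.rest (fun k ω => ¬ D k ω) hD' u = QS.rest (fun k ω => ¬ D k ω) hD' v := by
  obtain ⟨w, rfl⟩ := mk_surj w
  obtain ⟨v, rfl⟩ := mk_surj v
  obtain ⟨K, hK, hw⟩ := w.2
  obtain ⟨L, hL, hv⟩ := v.2
  obtain ⟨u, hu⟩ : ∃ u : TR S, u.1 = fun k ω => if D k ω then w.1 k ω else v.1 k ω := by
    refine ⟨⟨fun k ω => if D k ω then w.1 k ω else v.1 k ω, fun k => K k + L k, Sub.add hK hL, ?_⟩, rfl⟩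
    filter_upwards [hw, hv, hK.1, hL.1] with k h1 h2 h3 h4 ω hω

    split_ifs with hd
    · have := h1 ω ((S.F k).rest_supp' (D k) ω hω hd)
      linarith
    · have := h2 ω hω
      linarith
  refine ⟨mk u, ?_, ?_⟩
  · rw [QS.rest_mk, mk_eq]
    refine ⟨fun _ _ => True, fun _ => 0, Typ_true, Sub_const _ le_rfl, ?_⟩
    filter_upwards [supp_rest hD] with k hk ω hω _
    show |u.1 k ω - w.1 k ω| ≤ _
    rw [hu]
    beta_reduce
    rw [if_pos (hk ω hω).2, sub_self, abs_zero, zero_mul]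
  · intro hD'
    rw [QS.rest_mk, QS.rest_mk, mk_eq]
    refine ⟨fun _ _ => True, fun _ => 0, Typ_true, Sub_const _ le_rfl, ?_⟩
    filter_upwards [supp_rest hD'] with k hk ω hω _
    show |u.1 k ω - v.1 k ω| ≤ _
    rw [hu]
    beta_reduce
    rw [if_neg (hk ω hω).2, sub_self, abs_zero, zero_mul]

end parts

section lift

theorem rest_all (F : FSp) : F.restμ (fun _ => True) = F.μ := by
  have h1 : F.pb (fun _ => True) = 1 := by
    have h2 : F.pb (fun _ => True) = ∑ ω, F.μ ω := by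
      apply Finset.sum_congr rfl
      intro ω _
      exact res_pos _ _ _ trivial
    rw [h2]; exact F.ms
  rw [F.restμ_eq _ (by rw [h1]; exact one_ne_zero), h1, res_true, inv_one]
  funext ω
  show 1 * F.μ ω = F.μ ω
  rw [one_mul]

variable {S T : Sp} {E : ∀ k, (S.F k).Ω → Prop}

/-- the event of the lifted space -/
def gD (p : Pj T (S.rest E)) : ∀ k, ((lift p).F k).Ω → Prop := lE p (fun _ _ => True)

theorem gD_pos (p : Pj T (S.rest E)) (hE : 0 < ul (S.pr E)) : 0 < ul ((lift p).pr (gD p)) :=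
  lE_pos p (fun _ _ => True) hE (ul_pr_typ_pos _ Typ_true)

/-- the comparison map -/
def gR (p : Pj T (S.rest E)) : Pj T ((lift p).rest (gD p)) where
  π := fun k => Sum.inl
  law := fun k => by
    show push Sum.inl (T.F k).μ = ((lift p).F k).restμ (gD p k)
    unfold gD
    rw [l_restμ, push_inl, rest_all]
  hZ := fun k ω ω' h h' => p.hZ k ω ω' h h'
  hn := p.hn

theorem gR_map (p : Pj T (S.rest E)) (hE : 0 < ul (S.pr E)) (x : S.L) :
    (gR p).map (restL (gD p) (gD_pos p hE) ((liftP p).map x)) = p.map (restL E hE x) := by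
  induction x using Sp.cl_ind with | _ A
  rfl

theorem gR_qs (p : Pj T (S.rest E)) (hE : 0 < ul (S.pr E)) (f : QS S) :
    (gR p).qs (QS.rest (gD p) (gD_pos p hE) ((liftP p).qs f)) = p.qs (QS.rest E hE f) := by
  obtain ⟨f, rfl⟩ := mk_surj f
  rfl

/-- the space itself as a restricted space -/
def toT (T : Sp) : Pj (T.rest (fun _ _ => True)) T where
  π := fun _ => id
  law := fun k => by
    classical
    show push id ((T.F k).restμ (fun _ => True)) = (T.F k).μ
    rw [rest_all]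
    funext ω
    unfold push
    rw [Finset.sum_eq_single ω]
    · exact if_pos rfl
    · intro b _ hb
      exact if_neg hb
    · intro h
      exact absurd (Finset.mem_univ _) h
  hZ := fun _ _ _ _ _ => Iff.rfl
  hn := fun _ => rfl

/-- the comparison map, backwards -/
def gJ (p : Pj T (S.rest E)) : Pj ((lift p).rest (gD p)) T := (lJ p (fun _ _ => True)).comp (toT T)

theorem gR_gJ (p : Pj T (S.rest E)) (y : T.L) : (gR p).map ((gJ p).map y) = y := by
  induction y using Sp.cl_ind with | _ A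
  rfl

theorem gR_gJ_qs (p : Pj T (S.rest E)) (w : QS T) : (gR p).qs ((gJ p).qs w) = w := by
  obtain ⟨w, rfl⟩ := mk_surj w
  rfl

end lift

end

end Pool.Agent.Helper70.FW
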