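import Pool.Agent.Helper70.FW.Fin
import Pool.Agent.Helper70.FW.Lft
import Pool.Agent.Helper38.NS.Wvq

/-! Theorem VW: the hypotheses hold on events of positive probability; reduction of the theorem to tubes over the stars
on some event. -/

set_option autoImplicit false

namespace Pool.Agent.Helper70.FW

open Finset Filter Topology Pool.Agent.Helper69.RK Pool.Agent.Helper31.EC Pool.Agent.Helper38.NS
open Pool.Agent.Helper46.LIN

noncomputable section

open Sp QS

variable {S : Sp} {ν : Type} [Fintype ν]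

/-- quotients have at most one coordinate less -/
theorem quot_card (z w : ν → QS S) (a : ν) {j k : ℝ} (hj : j ≤ k) (h1 : k ≤ 1) {Y : S.L} (hz : vd z j ≤ Y)
    (hw : ∀ i, dg (w i) 1 ≤ Y) :
    Helper31.EC.h (vd (fun i => z i * w a - z a * w i) k) Y ≤ (Fintype.card ν - 1) * (k - j) := by
  classical
  have e1 : vd (fun i => z i * w a - z a * w i) k = (Finset.univ.erase a).sup fun i => dg (z i * w a - z a * w i) k := by
    apply le_antisymm
    · rw [vd_le]
      intro i
      by_cases hi : i = a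
      · have e2 : z i * w a - z a * w i = 0 := by rw [hi]; ring
        rw [e2, dg_of_mem_Id (QS.Id S k).zero_mem le_rfl h1]
        exact bot_le
      · exact Finset.le_sup (f := fun i => dg (z i * w a - z a * w i) k) (Finset.mem_erase.mpr ⟨hi, Finset.mem_univ i⟩)
    · apply Finset.sup_le
      intro i _
      exact dg_le_vd (fun i => z i * w a - z a * w i) k i
  rw [e1]
  refine (h_finsup_le _ _ _).trans ?_
  have e3 : ∀ i ∈ Finset.univ.erase a, Helper31.EC.h (dg (z i * w a - z a * w i) k) Y ≤ k - j := by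
    intro i _
    have hj1 : j ≤ 1 := hj.trans h1
    have e4 : dg (z i * w a - z a * w i) j ≤ Y := by
      apply (Kn S j hj1 _).sub_mem
      · exact (Kn S j hj1 _).mul_mem ((dg_le_vd z j i).trans hz) ((dg_mono _ hj1).trans (hw a))
      · exact (Kn S j hj1 _).mul_mem ((dg_le_vd z j a).trans hz) ((dg_mono _ hj1).trans (hw i))
    exact (h_anti e4).trans (h_dg_dg _ hj)
  refine (Finset.sum_le_sum e3).trans (le_of_eq ?_)
  rw [Finset.sum_const, Finset.card_erase_of_mem (Finset.mem_univ a), nsmul_eq_mul, Finset.card_univ,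
    Nat.cast_sub (Fintype.card_pos_iff.mpr ⟨a⟩), Nat.cast_one]

variable {z : ν → QS S} {B : S.L} {ρ : ℝ}

/-- property UQ on events -/
theorem UQ_rest (hu : UQ S z B ρ) (E : ∀ k, (S.F k).Ω → Prop) (hE : 0 < ul (S.pr E)) :
    UQ (S.rest E) (fun i => QS.rest E hE (z i)) (restL E hE B) ρ where
  U := by
    intro T p E2 hE2 k h0 h1
    have h2 := hu.U (lift p) (liftP p) (lE p E2) (lE_pos p E2 hE hE2) k h0 h1
    rw [QS.rest_vd, l_h p E2 hE hE2]
    exact h2
  Q := by
    intro T p X w a k h0 h1 h2 h3 h4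
    classical
    have hD := gD_pos p hE
    obtain ⟨X', x1, x2⟩ := exists_unrest hD ((gJ p).map X)
    have hw := fun i => exists_glueQ hD ((gJ p).qs (w i)) (if i = a then 1 else 0)
    choose w' w1 w2 using hw
    obtain ⟨v, hv⟩ := h4.exists_left_inv
    obtain ⟨v', v1, v2⟩ := exists_glueQ hD ((gJ p).qs v) 1
    have k1 : I ((liftP p).map (vd z k)) X' ((liftP p).map B) = 0 := by
      refine I_of_parts hD ?_ ?_
      · rw [← (gR p).I_map, gR_map p hE, gR_map p hE, x1, gR_gJ, ← QS.rest_vd]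
        exact h2
      · intro hD'
        rw [x2 hD']
        exact I_zero_of_le_right bot_le
    have k2 : ∀ i, dg (w' i) 1 ≤ (liftP p).map B ⊔ X' := by
      intro i
      refine le_of_parts hD ?_ ?_
      · rw [← QS.rest_dg, w1 i, ← (gR p).map_le, restL_sup, (gR p).map_sup, gR_map p hE, x1, gR_gJ, ← Pj.qs_dg,
          gR_gJ_qs]
        exact h3 i
      · intro hD'
        rw [← QS.rest_dg, w2 i hD']
        refine le_trans ?_ bot_le
        split_ifs
        · rw [map_one]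
          exact (Kn _ 1 le_rfl _).one_mem
        · rw [map_zero]
          exact (Kn _ 1 le_rfl _).zero_mem
    have k3 : IsUnit (w' a) := by
      refine IsUnit.of_mul_eq_one v' (eq_of_parts hD ?_ ?_)
      · rw [map_mul, w1 a, v1, map_one, ← map_mul, mul_comm, hv, map_one]
      · intro hD'
        rw [map_mul, w2 a hD', v2 hD', if_pos rfl, map_one, mul_one]
    have k4 := hu.Q (lift p) (liftP p) X' w' a k h0 h1 k1 k2 k3
    have k5 : Helper31.EC.h (restL (gD p) hD (vd (fun i => (liftP p).qs (z i) * w' a - (liftP p).qs (z a) * w' i) k))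
        (restL (gD p) hD ((liftP p).map B ⊔ X')) = (Fintype.card ν - 1) * k := by
      refine Sp.h_rest_max (gD p) hD k4 ?_
      intro E' hE'
      have e1 : restL E' hE' (vd (fun i => (liftP p).qs (z i) * w' a - (liftP p).qs (z a) * w' i) k) =
          vd (fun i => QS.rest E' hE' ((liftP p).qs (z i)) * QS.rest E' hE' (w' a) -
            QS.rest E' hE' ((liftP p).qs (z a)) * QS.rest E' hE' (w' i)) k := by
        rw [← QS.rest_vd]
        congr 1
        funext i
        rw [map_sub, map_mul, map_mul]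
      rw [e1]
      have e5 := quot_card (fun i => QS.rest E' hE' ((liftP p).qs (z i))) (fun i => QS.rest E' hE' (w' i)) a
        (j := 0) (k := k) (Y := restL E' hE' ((liftP p).map B ⊔ X')) h0 h1
        (by rw [vd_zero_level]; exact bot_le) (fun i => by
          rw [QS.rest_dg]
          exact restL_mono E' hE' (k2 i))
      rw [sub_zero] at e5
      exact e5
    have e2 : (gR p).map (restL (gD p) hD (vd (fun i => (liftP p).qs (z i) * w' a - (liftP p).qs (z a) * w' i) k)) =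
        vd (fun i => p.qs (QS.rest E hE (z i)) * w a - p.qs (QS.rest E hE (z a)) * w i) k := by
      rw [← QS.rest_vd, ← (gR p).qs_vd]
      congr 1
      funext i
      rw [map_sub, map_mul, map_mul, map_sub, map_mul, map_mul, gR_qs p hE, gR_qs p hE, w1, w1, gR_gJ_qs, gR_gJ_qs]
    have e3 : (gR p).map (restL (gD p) hD ((liftP p).map B ⊔ X')) = p.map (restL E hE B) ⊔ X := by
      rw [restL_sup, (gR p).map_sup, gR_map p hE, x1, gR_gJ]
    rw [← (gR p).h_map, e2, e3] at k5
    exact k5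

theorem rest_one (E : ∀ k, (S.F k).Ω → Prop) (hE : 0 < ul (S.pr E)) : QS.rest E hE (1 : QS S) = 1 := map_one _

/-- real variables are real on events -/
theorem real_rest (E : ∀ k, (S.F k).Ω → Prop) (hE : 0 < ul (S.pr E)) {x : QS S} {A : S.L}
    (h1 : Helper31.EC.h (dg x 1) A = 1) : Helper31.EC.h (dg (QS.rest E hE x) 1) (restL E hE A) = 1 := by
  rw [QS.rest_dg]
  refine Sp.h_rest_max E hE h1 ?_
  intro E' hE'
  rw [← QS.rest_dg]
  exact (h_le_H _ _).trans (H_dg_le _ zero_le_one)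

variable {ι : Type} [Fintype ι] {c : QS S} {f : ι → QS S} {z3 : ν → QS S} {T T' : QS S} {A C : ν → QS S}

/-- the block on events -/
theorem Blk.rest (hb : Blk S c f z z3 T T' A C) (E : ∀ k, (S.F k).Ω → Prop) (hE : 0 < ul (S.pr E)) :
    Blk (S.rest E) (QS.rest E hE c) (fun i => QS.rest E hE (f i)) (fun i => QS.rest E hE (z i))
      (fun i => QS.rest E hE (z3 i)) (QS.rest E hE T) (QS.rest E hE T') (fun i => QS.rest E hE (A i))
      (fun i => QS.rest E hE (C i)) where
  hc := by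
    rcases hb.hc with h | h
    · left; rw [h, map_one]
    · right; rw [h, map_neg, map_one]
  e := by
    intro i
    have h1 := congrArg (QS.rest E hE) (hb.e i)
    rw [map_add, map_mul, map_sub, map_mul, map_mul] at h1
    exact h1
  i1 := by
    rw [QS.rest_vd, QS.rest_vd, QS.rest_vd, QS.rest_vd, QS.rest_dg, QS.rest_dg, ← restL_sup, ← restL_sup, ← restL_sup]
    exact I_rest_zero E hE hb.i1
  i2 := by
    rw [QS.rest_vd, QS.rest_vd, QS.rest_vd, QS.rest_vd, QS.rest_dg, QS.rest_dg, ← restL_sup, ← restL_sup, ← restL_sup]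
    exact I_rest_zero E hE hb.i2
  i3 := by
    rw [QS.rest_vd, QS.rest_vd, QS.rest_vd, QS.rest_dg, QS.rest_dg, ← restL_sup, ← restL_sup]
    exact I_rest_zero E hE hb.i3
  r1 := by
    rw [QS.rest_vd]
    exact real_rest E hE hb.r1
  r2 := by
    rw [QS.rest_vd]
    exact real_rest E hE hb.r2

theorem res_supp {Ω : Type} (μ : Ω → ℝ) (G : Ω → Prop) (h : ∀ ω, μ ω ≠ 0 → G ω) : res μ G = μ := by
  funext ω
  by_cases h1 : G ω
  · exact res_pos _ _ _ h1
  · rw [res_neg _ _ _ h1]
    by_contra hc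
    exact h1 (h ω (Ne.symm hc))

/-- a function outside an ideal is outside of it on all events inside some event -/
theorem exists_out {x : QS S} {θ : ℝ} (h1 : θ ≤ 1) (hx : x ∉ Id S θ) :
    ∃ (E : ∀ k, (S.F k).Ω → Prop) (hE : 0 < ul (S.pr E)), ∀ (E' : ∀ k, ((S.rest E).F k).Ω → Prop)
      (hE' : 0 < ul ((S.rest E).pr E')), QS.rest E' hE' (QS.rest E hE x) ∉ Id ((S.rest E).rest E') θ := by
  obtain ⟨f, rfl⟩ := mk_surj x
  rw [mk_mem_Id h1, TR.ag_iff_levels] at hx
  push Not at hx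
  obtain ⟨δ, hδ, hT⟩ := hx
  rcases typ_or (S := S) (fun k ω => |TR.ev f k ω - TR.ev 0 k ω| ≤ S.dl (θ - δ) k) with ht | hE
  · exact absurd ht hT
  refine ⟨_, hE, ?_⟩
  intro E' hE' hc
  rw [QS.rest_mk, QS.rest_mk, mk_mem_Id h1, TR.ag_iff_levels] at hc
  have h2 := hc δ hδ
  have s1 := supp_rest hE
  have s2 := supp_rest hE'
  unfold Typ at h2
  have h3 : ∀ᶠ k in UF, mass (res (((S.rest fun k ω => ¬ |TR.ev f k ω - TR.ev 0 k ω| ≤ S.dl (θ - δ) k).rest E').F k).μ
      (fun ω => ¬ |TR.ev f k ω - TR.ev 0 k ω| ≤ S.dl (θ - δ) k)) = 1 := by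
    filter_upwards [s1, s2] with k a1 a2
    have h4 : res (((S.rest fun k ω => ¬ |TR.ev f k ω - TR.ev 0 k ω| ≤ S.dl (θ - δ) k).rest E').F k).μ
      (fun ω => ¬ |TR.ev f k ω - TR.ev 0 k ω| ≤ S.dl (θ - δ) k) =
        (((S.rest fun k ω => ¬ |TR.ev f k ω - TR.ev 0 k ω| ≤ S.dl (θ - δ) k).rest E').F k).μ := by
      exact res_supp _ _ fun ω h5 => (a1 ω (a2 ω h5).1).2
    rw [h4]
    exact (((S.rest fun k ω => ¬ |TR.ev f k ω - TR.ev 0 k ω| ≤ S.dl (θ - δ) k).rest E').F k).ms
  have h4 := tendsto_nhds_unique (h2.congr' h3) tendsto_const_nhds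
  exact zero_ne_one h4

/-- the statement on tubes: on some event there are tubes over the stars on both sides -/
def TUBES (N : ℕ) (ρ l κ : ℝ) : Prop :=
  ∀ (S : Sp) (ι : Type) (_ : Fintype ι) (f : ι → QS S) (T T' : QS S) (A C z z3 : Fin N → QS S),
    Blk S 1 f z z3 T T' A C → UQ S z (vd f 1) ρ →
    ∃ (E : ∀ k, (S.F k).Ω → Prop) (hE : 0 < ul (S.pr E)) (a o a' o' : Fin N → QS (S.rest E)),
      TubG (S.rest E) (restL E hE (vd f 1 ⊔ vd z3 1 ⊔ (dg T' 1 ⊔ vd C 1))) (QS.rest E hE T)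
        (fun i => QS.rest E hE (A i)) a o l κ ∧
      TubG (S.rest E) (restL E hE (vd f 1 ⊔ vd z3 1 ⊔ (dg T 1 ⊔ vd A 1))) (QS.rest E hE T')
        (fun i => QS.rest E hE (C i)) a' o' l κ

/-- **reduction of theorem VW to tubes on an event** -/
theorem wvq_of_tubes {N : ℕ} {ρ l κ : ℝ} (hρ : 0 ≤ ρ) (hl : 0 ≤ l) (hlk : l ≤ κ) (h0 : 0 < κ) (h1 : κ ≤ 1)
    (hT : TUBES N ρ l κ) : WVQ N ρ (ρ * (ρ * κ - l) - l) := by
  intro S ι _ f P Q T T' A C z z3 tP aP tQ cQ he i1 i2 i3 r1 r2 hu i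
  have hb : Blk S 1 f z z3 T T' A C := by
    have a1 : dg T 1 ⊔ vd A 1 ⊔ (dg T' 1 ⊔ vd C 1) ≤ P ⊔ Q ⊔ vd f 1 := by order
    refine ⟨Or.inl rfl, fun i => ?_, I_zero_mono i1 le_sup_left a1, I_zero_mono i2 le_sup_left a1,
      I_zero_mono i3 (sup_le tP aP) (sup_le tQ cQ), r1, r2⟩
    rw [he i, one_mul]
  have hθ : ρ * (ρ * κ - l) - l ≤ 1 := by
    have hρ1 := UQ_le_one hu i
    have h4 : ρ * κ ≤ 1 * κ := mul_le_mul_of_nonneg_right hρ1 h0.le
    rcases le_or_gt (ρ * κ - l) 0 with h6 | h6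
    · have := mul_nonpos_of_nonneg_of_nonpos hρ h6
      linarith
    · have : ρ * (ρ * κ - l) ≤ 1 * (ρ * κ - l) := mul_le_mul_of_nonneg_right hρ1 h6.le
      linarith
  by_contra hc
  obtain ⟨E, hE, hout⟩ := exists_out hθ hc
  have hb1 := hb.rest E hE
  have hu1 := UQ_rest hu E hE
  rw [← QS.rest_vd] at hu1
  have hb1' : Blk (S.rest E) 1 (fun i => QS.rest E hE (f i)) (fun i => QS.rest E hE (z i))
      (fun i => QS.rest E hE (z3 i)) (QS.rest E hE T) (QS.rest E hE T') (fun i => QS.rest E hE (A i))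
      (fun i => QS.rest E hE (C i)) := by
    have := hb1
    rwa [map_one] at this
  obtain ⟨E', hE', a, o, a', o', t1, t2⟩ := hT _ _ _ _ _ _ _ _ _ _ hb1' hu1
  have hb2 := hb1'.rest E' hE'
  have hu2 := UQ_rest hu1 E' hE'
  rw [← QS.rest_vd] at hu2
  rw [restL_sup, restL_sup, restL_sup, ← QS.rest_vd, ← QS.rest_vd, ← QS.rest_vd, ← QS.rest_dg] at t1 t2
  have h2 := end_star hu2 hρ hb2 hl hlk h0 h1 t1 t2 i
  apply hout E' hE'
  rw [map_sub, map_mul, map_mul, map_sub, map_mul, map_mul]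
  exact h2

end

end Pool.Agent.Helper70.FW
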