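import Pool.Agent.Helper70.FW.CoG

/-!
# Theorem FW in finite form from the costs, all numbers chosen

`finB` = `finA` of helper78 with `j0 = l0 = 0`, `φ = 2 ^ (- Fn ρ n)`, `B = 2 ^ b`, `I = Ke = In ρ b R n`, `lam = lamn ε R n`,
`M = Ln P n * P`.  Order of the constants: `N ρ`, then `ε`, then `e τ0 k0`, then `b c1 R D cD P Sg lR Ka Ca r`, then `n0`.
-/

set_option autoImplicit false

namespace Pool.Agent.Helper70.FW

open Finset Matrix Pool.Agent.Helper69.RK Pool.Agent.Helper61.GL Pool.Agent.Helper15.VW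
open Pool.Agent.Helper46.WF Pool.Agent.Helper99.FW Pool.Agent.Helper78.FW Pool.Agent.Helper18.FW

theorem half_le_rpow {y : ℝ} (hy : 0 ≤ y) : y / 2 ≤ (2 : ℝ) ^ y := by
  have h1 := Real.add_one_le_exp (Real.log 2 * y)
  rw [← Real.rpow_def_of_pos (by norm_num)] at h1
  have h2 : (1 : ℝ) / 2 ≤ Real.log 2 := by
    have := Real.log_two_gt_d9
    linarith
  have h3 : 1 / 2 * y ≤ Real.log 2 * y := mul_le_mul_of_nonneg_right h2 hy
  linarith

/-- **THEOREM FW IN FINITE FORM, ALL NUMBERS CHOSEN** -/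
theorem finB (N : ℕ) {ρ : ℝ} (hρ : 0 < ρ) (hρ1 : ρ ≤ 1) (ε : ℝ) (hε : 0 < ε) :
    ∃ e τ0 : ℝ, 0 < e ∧ 0 < τ0 ∧ ∃ k0 : ℕ, ∀ (b : ℕ) (c1 : ℝ), cT N N ≤ c1 → ∀ R : ℕ,
    aR1 N ρ * c1 + aR2 N ρ ≤ R → ∀ D : ℕ, R ≤ D → ∀ cD : ℝ, 1 ≤ cD → ∀ P Sg : ℕ, 1 ≤ P → Sg ≤ P → P ≤ 2 * Sg →
    ∀ r lR Ka Ca : ℝ, 0 ≤ r → lR ≤ P → ∃ n0 : ℕ, ∀ n, n0 ≤ n →
    ∀ {Λ Ω χ ψ β β' : Type} [Fintype Λ] [Fintype Ω] {B' B'' : ℕ}
    (l : Λ → ℝ) (_ : ∀ w, 0 ≤ l w) (_ : mass l = 1) (Fp : Λ → χ) (z : Λ → Fin N → ℝ)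
    (μ : Ω → ℝ) (π : Fin B' → Λ → Ω) (_ : ∀ a, push (π a) l = μ)
    (F : Ω → ψ) (T : Ω → ℝ) (A : Ω → Fin N → ℝ)
    (nd : ℕ → Ω → β) (a o : ℕ → β → Fin N → ℝ) (V : ℕ → β → Fin N → Fin N → ℝ)
    (p : ℕ → β → Seminorm ℝ (Fin N → ℝ)) (_ : ∀ m y, FrOf (p m y) (V m y))
    (_ : ∀ (m : ℕ) (c c' : Fin B') (Q : (Fin B' → β) → Prop),
      Pw l (fun w => Q ((fun b => nd m (π b w)) ∘ Equiv.swap c c')) =
        Pw l (fun w => Q (fun b => nd m (π b w))))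
    (nd' : ℕ → Fin B'' → Λ → β') (V' : ℕ → β' → Fin N → Fin N → ℝ)
    (S : Finset (Fin B')) (S' : Finset (Fin B'')) (c : Fin B') (_ : c ∉ S) (_ : k0 ≤ S.card)
    (g R0 : ℕ) (_ : R0 ≤ g) (_ : R ≤ R0) (_ : Fn ρ n + b ≤ R0)
    (_ : ∀ m < Ln P n * P, ∀ y i j, |V m y i j| ≤ 2 ^ b)
    (_ : ∀ m < Ln P n * P, ∀ y i j, |V' m y i j| ≤ 2 ^ b)
    (κA κC : Λ → ℕ → ℝ) (_ : ∀ w, l w ≠ 0 → ∀ m < Ln P n * P, 0 ≤ κA w m)
    (_ : ∀ w, l w ≠ 0 → ∀ m < Ln P n * P, 0 ≤ κC w m)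
    (_ : ∀ w, l w ≠ 0 → ∀ m < Ln P n * P, 0 ≤ m → ∀ v ∈ WS (V m) (fun b => nd m (π b w)) S,
      ∀ G : Finset ℕ, G ⊆ range (Ln P n * P) → ∀ Z : ℕ → Multiset (Fin N → ℝ),
      (∀ t < In ρ b R n, Okb (fam (flr ((1 / 2) ^ Fn ρ n))) (2 ^ b) R D (fun m' => WS (V m') (fun b => nd m' (π b w)) S)
        (VG (fun m' => WS (V' m') (fun b => nd' m' b w) S') G) m (0 + t * R) v (Z t)) →
      ∑ t ∈ range (In ρ b R n), IZ (cw l Fp w) z (fun _ => ()) g R0 (Z t) (((1 : ℝ) / 2) ^ (0 + t * R) • v) ≤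
        c1 * (In ρ b R n : ℕ) + κA w m + cD * (range (Ln P n * P) \ G).card)
    (_ : ∀ w, l w ≠ 0 → ∀ j < Ln P n * P, 0 ≤ j → ∀ v ∈ WS (V' j) (fun b => nd' j b w) S',
      ∀ G : Finset ℕ, G ⊆ range (Ln P n * P) → ∀ k < In ρ b R n, ∀ Z : ℕ → Multiset (Fin N → ℝ),
      (∀ u < lamn ε R n, Okb (fam (flr ((1 / 2) ^ Fn ρ n))) (2 ^ b) R D (fun m' => WS (V' m') (fun b => nd' m' b w) S')
        (VG (fun m' => WS (V m') (fun b => nd m' (π b w)) S) G) j (0 + (u + k) * R) v (Z u)) →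
      ∑ u ∈ range (lamn ε R n), IZ (cw l Fp w) z (fun _ => ()) g R0 (Z u)
        (((1 : ℝ) / 2) ^ (0 + (u + k) * R) • v) ≤
        c1 * (lamn ε R n : ℕ) + κC w j + cD * (range (Ln P n * P) \ G).card)
    (_ : Pw l (fun w => ¬ SEok N (Fn ρ n) (e * n) (ρ * Fn ρ n - e * n) (cw l Fp w) z) ≤ e)
    (_ : ∑ w, l w * ∑ m ∈ range (Ln P n * P), κA w m ≤ τ0 * n ^ 2 / cD)
    (_ : ∑ w, l w * ∑ m ∈ range (Ln P n * P), κC w m ≤ τ0 * n ^ 2 / cD)
    (_ : ∀ m, m % P < Sg → CH μ (nd m) F ≤ m + (m / P : ℕ) * lR + Ca)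
    (_ : ∀ m < Ln P n * P, m % P < Sg → ∀ ω, μ ω ≠ 0 → ∀ i, |a m (nd m ω) i| ≤ Ka * 2 ^ m ∧
      |o m (nd m ω) i| ≤ Ka * 2 ^ m)
    (_ : ∑ m ∈ (range (Ln P n * P)).filter (fun m => m % P < Sg),
      Pw μ (fun ω => r < p m (nd m ω) (A ω - T ω • a m (nd m ω) - o m (nd m ω))) ≤ e * n),
    TubF N n ε 0 (ρ ^ 2 / 256) μ F T A := by
  have hN : (0 : ℝ) ≤ N := Nat.cast_nonneg N
  set ε1 := min ε (1 / 4) with hε1
  have hε1' : 0 < ε1 := lt_min hε (by norm_num)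
  have hε1q : ε1 ≤ 1 / 4 := min_le_right _ _
  have hε1e : ε1 ≤ ε := min_le_left _ _
  set γ := gmN N ρ (ε1 / 64) with hγ
  have hγ0 : 0 < γ := gmN_pos N hρ (by positivity)
  set τ1 := min (γ / 2) (ε1 / 256) with hτ1
  have hτ1' : 0 < τ1 := lt_min (by positivity) (by positivity)
  set e := min γ (ε1 ^ 2 / 1024) with he
  have he0 : 0 < e := lt_min hγ0 (by positivity)
  obtain ⟨k0, hk0⟩ := exists_nat_ge (8 * N / ε1)
  refine ⟨e, ε1 / 16 * τ1 ^ 2, he0, by positivity, k0, ?_⟩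
  intro b c1 hc1 R hR D hRD cD hcD P Sg hP hSg hSg2 r lR Ka Ca hr hlR
  have hc1' : 0 ≤ c1 := by
    refine le_trans ?_ hc1
    unfold cT
    have h1 := cF_nonneg N (C := 1) (by norm_num)
    have h2 : 0 ≤ Real.logb 2 ((N : ℝ) + 4) := Real.logb_nonneg (by norm_num) (by linarith)
    positivity
  have hR1 : 1 ≤ R := by
    have h1 : 0 ≤ aR1 N ρ * c1 := by
      unfold aR1
      positivity
    have h2 : 0 ≤ 8 * (N + 2) * ((4 * N + 2) * cP N) / ρ := by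
      have := cP_nonneg N
      positivity
    have h3 : (1 : ℝ) ≤ R := by
      unfold aR2 at hR
      linarith
    exact_mod_cast h3
  obtain ⟨n1, hn1⟩ := num_XY N hρ (show 0 < ε1 / 64 by positivity) b hc1' R hR
  obtain ⟨n2, hn2⟩ := num_bd N hρ r hr
  obtain ⟨n3, hn3⟩ := num_lv ε hε R P Sg hR1 hP hSg hSg2
  obtain ⟨n4, hn4⟩ := Fn_ge hρ
  obtain ⟨n5, hn5⟩ := exists_nat_ge (4 * |Ka| / ε1 + 2 * |Ca| / ε1 + 1)
  refine ⟨max (max (max n1 n2) (max n3 n4)) n5, fun n hn => ?_⟩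
  have hN1 : n1 ≤ n := (((le_max_left _ _).trans (le_max_left _ _)).trans (le_max_left _ _)).trans hn
  have hN2 : n2 ≤ n := (((le_max_right _ _).trans (le_max_left _ _)).trans (le_max_left _ _)).trans hn
  have hN3 : n3 ≤ n := (((le_max_left _ _).trans (le_max_right _ _)).trans (le_max_left _ _)).trans hn
  have hN4 : n4 ≤ n := (((le_max_right _ _).trans (le_max_right _ _)).trans (le_max_left _ _)).trans hn
  have hN5 : (n5 : ℝ) ≤ n := by exact_mod_cast (le_max_right _ _).trans hn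
  have hq : 4 * |Ka| / ε1 + 2 * |Ca| / ε1 + 1 ≤ n := hn5.trans hN5
  have hq1 : 0 ≤ 4 * |Ka| / ε1 := by positivity
  have hq2 : 0 ≤ 2 * |Ca| / ε1 := by positivity
  have hKa : 4 * |Ka| ≤ ε1 * n := by
    have h1 : 4 * |Ka| / ε1 ≤ n := by linarith
    rw [div_le_iff₀ hε1'] at h1
    linarith
  have hCa : 2 * |Ca| ≤ ε1 * n := by
    have h1 : 2 * |Ca| / ε1 ≤ n := by linarith
    rw [div_le_iff₀ hε1'] at h1
    linarith
  have hn1' : (1 : ℝ) ≤ n := by linarith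
  have hn0 : (0 : ℝ) < n := by linarith
  have hFl := hn4 n hN4
  have hFle := Fn_le hρ1 n
  have hbig := hn1 n hN1 (Fn ρ n) hFl hFle
  obtain ⟨hlam, hlam2, hcard, hSm⟩ := hn3 n hN3
  rw [← hε1] at hlam2 hcard hSm
  intro Λ Ω χ ψ β β' _ _ B' B'' l hl hlm Fp z μ π hπ F T A nd a o V p hFr hinv nd' V' S S' c hc hkS g R0 hg hRR hR0
    hVB hVB' κA κC hκA hκC hA hC hSE hKA hKC hrec hsz htb
  have hcD0 : 0 < cD := by linarith
  have hcard0 : (0 : ℝ) < (Smn ε R P Sg n).card := lt_of_lt_of_le (by positivity) hcard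
  have hne : (Smn ε R P Sg n).Nonempty := by
    rw [← card_pos]
    exact_mod_cast hcard0
  have hφ0 : (0 : ℝ) < (1 / 2) ^ Fn ρ n := by positivity
  have hφ1 : ((1 : ℝ) / 2) ^ Fn ρ n ≤ 1 := pow_le_one₀ (by norm_num) (by norm_num)
  have hB1 : (1 : ℝ) ≤ 2 ^ b := one_le_pow₀ (by norm_num)
  have hKK : cD * (τ1 ^ 2 * n ^ 2 / cD / (τ1 * n)) = τ1 * n := by
    field_simp
  have hτγ : τ1 ≤ γ / 2 := min_le_left _ _
  have hτε : τ1 ≤ ε1 / 256 := min_le_right _ _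
  have hΓ : τ1 * n + cD * (τ1 ^ 2 * n ^ 2 / cD / (τ1 * n)) ≤ gmN N ρ (ε1 / 64) * n := by
    rw [hKK, ← hγ]
    have := mul_le_mul_of_nonneg_right hτγ hn0.le
    linarith
  have heγ : e ≤ γ := min_le_left _ _
  have heε : e ≤ ε1 ^ 2 / 1024 := min_le_right _ _
  have hXY := hbig (lamn ε R n) (e * n) (ρ * Fn ρ n - e * n) (τ1 * n + cD * (τ1 ^ 2 * n ^ 2 / cD / (τ1 * n))) hlam
    hlam2 (by rw [hKK]; positivity) hΓ (mul_le_mul_of_nonneg_right heγ hn0.le) (by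
      have := mul_le_mul_of_nonneg_right heγ hn0.le
      rw [← hγ]
      linarith)
  obtain ⟨hb1, hb2⟩ := hn2 n hN2 (Fn ρ n) hFl _ hXY
  have hFnat : (0 : ℝ) ≤ Fn ρ n := Nat.cast_nonneg _
  have hIR : Fn ρ n + b ≤ In ρ b R n * R := by
    unfold In
    have h1 := Nat.lt_div_mul_add (a := Fn ρ n + b) (b := R) (by omega)
    rw [Nat.add_mul, Nat.one_mul]
    omega
  have hsmall : ((1 : ℝ) / 2) ^ (In ρ b R n * R) * 2 ^ b ≤ (1 / 2) ^ Fn ρ n := by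
    calc ((1 : ℝ) / 2) ^ (In ρ b R n * R) * 2 ^ b ≤ (1 / 2) ^ (Fn ρ n + b) * 2 ^ b := by
          apply mul_le_mul_of_nonneg_right _ (by positivity)
          exact pow_le_pow_of_le_one (by norm_num) (by norm_num) hIR
      _ = (1 / 2) ^ Fn ρ n := by
          rw [pow_add, mul_assoc, ← mul_pow]
          norm_num
  have hkey := finA (n := n) (ε := ε) (κ := ρ ^ 2 / 256) l hl hlm Fp z μ π hπ F T A nd a o V p hFr r
    (2 ^ (-(ρ * Fn ρ n / 2))) hinv nd' V' S S' c hc ((1 / 2) ^ Fn ρ n) (2 ^ b) hφ0 (hφ1.trans hB1) g R0 R D hg hRR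
    (by
      calc (2 : ℝ) ^ b = (1 / 2) ^ Fn ρ n * 2 ^ (Fn ρ n + b) := by
            rw [pow_add, ← mul_assoc, ← mul_pow]
            norm_num
        _ ≤ (1 / 2) ^ Fn ρ n * 2 ^ R0 := by
            apply mul_le_mul_of_nonneg_left _ hφ0.le
            exact pow_le_pow_right₀ (by norm_num) hR0)
    hR1 hRD c1 hc1 (Ln P n * P) hVB hVB' 0 0 (lamn ε R n) (In ρ b R n) (In ρ b R n) κA κC hκA hκC cD
    (τ1 ^ 2 * n ^ 2 / cD) (τ1 * n) hcD0.le (by positivity) (by positivity) hA hC (e * n) (ρ * Fn ρ n - e * n) e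
    (ε1 / 16) (fun w => SEok N (Fn ρ n) (e * n) (ρ * Fn ρ n - e * n) (cw l Fp w) z)
    (fun w _ hw Z hZ _ v hv j hj => hw.1 Z hZ v hv j hj) (fun w _ hw => hw.2) hSE
    (hKA.trans (le_of_eq (by ring))) (hKC.trans (le_of_eq (by ring))) hlam (by rw [Nat.zero_add]; exact hsmall) hsmall
    (Smn ε R P Sg n) hne (fun m hm => ⟨(hSm m hm).1, (hSm m hm).2.2.1⟩) ?_ 0 (ε1 / 16) ?_ ?_ ?_ ?_ hb2 ?_
  · exact hkey
  · -- the entropy of the node
    intro m hm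
    obtain ⟨h1, h2, h3, h4⟩ := hSm m hm
    have h5 := hrec m h2
    have h6 : ((m / P : ℕ) : ℝ) * lR ≤ m := by
      calc ((m / P : ℕ) : ℝ) * lR ≤ (m / P : ℕ) * P := mul_le_mul_of_nonneg_left hlR (Nat.cast_nonneg _)
        _ ≤ m := by exact_mod_cast Nat.div_mul_le_self m P
    have h7 := le_abs_self Ca
    have h8 := mul_le_mul_of_nonneg_right hε1e hn0.le
    have h9 := mul_nonneg hε1'.le hn0.le
    linarith
  · -- the sizes
    intro m hm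
    obtain ⟨h1, h2, h3, h4⟩ := hSm m hm
    apply le_of_eq
    unfold Pw
    apply Finset.sum_eq_zero
    intro ω _
    by_cases hω : μ ω = 0
    · rw [hω, ite_self]
    rw [if_neg]
    rw [not_not]
    have hK2 : Ka * 2 ^ m ≤ (2 : ℝ) ^ (ε * n) := by
      have h5 : Ka ≤ (2 : ℝ) ^ (7 / 8 * ε1 * n) := by
        have h6 := half_le_rpow (y := 7 / 8 * ε1 * n) (by positivity)
        have h7 := le_abs_self Ka
        have h8 : 0 ≤ ε1 * n := by positivity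
        linarith
      have h6 : (2 : ℝ) ^ m ≤ 2 ^ (ε1 / 8 * n) := by
        rw [← Real.rpow_natCast]
        exact Real.rpow_le_rpow_of_exponent_le (by norm_num) h4
      calc Ka * 2 ^ m ≤ (2 : ℝ) ^ (7 / 8 * ε1 * n) * 2 ^ (ε1 / 8 * n) :=
            mul_le_mul h5 h6 (by positivity) (by positivity)
        _ = 2 ^ (ε1 * n) := by
            rw [← Real.rpow_add (by norm_num)]
            congr 1
            ring
        _ ≤ 2 ^ (ε * n) := by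
            apply Real.rpow_le_rpow_of_exponent_le (by norm_num)
            exact mul_le_mul_of_nonneg_right hε1e hn0.le
    intro i
    obtain ⟨h5, h6⟩ := hsz m h1 h2 ω hω i
    exact ⟨h5.trans hK2, h6.trans hK2⟩
  · -- the tubes
    have h1 : ∑ m ∈ Smn ε R P Sg n, Pw μ (fun ω => r < p m (nd m ω) (A ω - T ω • a m (nd m ω) - o m (nd m ω))) ≤
        ∑ m ∈ (range (Ln P n * P)).filter (fun m => m % P < Sg),
          Pw μ (fun ω => r < p m (nd m ω) (A ω - T ω • a m (nd m ω) - o m (nd m ω))) := by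
      apply Finset.sum_le_sum_of_subset_of_nonneg
      · intro m hm
        obtain ⟨h1, h2, _, _⟩ := hSm m hm
        exact mem_filter.mpr ⟨mem_range.mpr h1, h2⟩
      · intro m _ _
        unfold Pw
        apply Finset.sum_nonneg
        intro ω _
        have hμ : 0 ≤ μ ω := by
          rw [← hπ c, Pool.Agent.Helper31.EC.push_ind]
          exact Finset.sum_nonneg fun w _ => mul_nonneg (Pool.Agent.Helper31.EC.ind_nonneg _) (hl w)
        split_ifs <;> [exact hμ; exact le_rfl]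
    refine (h1.trans htb).trans ?_
    calc e * n ≤ ε1 ^ 2 / 1024 * n := mul_le_mul_of_nonneg_right heε hn0.le
      _ = ε1 / 16 * (ε1 / 64 * n) := by ring
      _ ≤ ε1 / 16 * (Smn ε R P Sg n).card := mul_le_mul_of_nonneg_left hcard (by positivity)
  · -- the floor
    rw [one_div, inv_pow, ← Real.rpow_natCast, ← Real.rpow_neg (by norm_num)]
    apply Real.rpow_le_rpow_of_exponent_le (by norm_num)
    have := mul_le_mul_of_nonneg_right hρ1 hFnat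
    linarith
  · rw [Nat.cast_zero, zero_add]
    exact hb1
  · -- the probabilities
    have h1 : ε1 / 16 * (τ1 ^ 2 * n ^ 2 / cD) / (τ1 * n) / (Smn ε R P Sg n).card ≤ ε1 / 64 := by
      have h2 : ε1 / 16 * (τ1 ^ 2 * n ^ 2 / cD) / (τ1 * n) = ε1 / 16 * (τ1 * n / cD) := by
        field_simp
      rw [h2, div_le_iff₀ hcard0]
      have h3 : τ1 * n / cD ≤ ε1 / 256 * n := by
        rw [div_le_iff₀ hcD0]
        have h4 : τ1 * n ≤ ε1 / 256 * n := mul_le_mul_of_nonneg_right hτε hn0.le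
        have h5 : 0 ≤ ε1 / 256 * n := by positivity
        have h9 := mul_le_mul_of_nonneg_left hcD h5
        linarith
      have h6 := mul_le_mul_of_nonneg_left hcard (show 0 ≤ ε1 / 64 by positivity)
      have h7 := mul_le_mul_of_nonneg_left h3 (show 0 ≤ ε1 / 16 by positivity)
      have h8 : 0 ≤ ε1 * ε1 * n := by positivity
      linarith
    have h2 : (N : ℝ) / (S.card + 1) ≤ ε1 / 8 := by
      have h3 : (k0 : ℝ) ≤ S.card := by exact_mod_cast hkS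
      rw [div_le_iff₀ (by positivity)]
      have h4 := hk0.trans h3
      rw [div_le_iff₀ hε1'] at h4
      linarith
    have h3 : e ≤ ε1 / 16 := by
      refine heε.trans ?_
      have h9 := mul_le_mul_of_nonneg_left hε1q hε1'.le
      rw [sq]
      linarith
    linarith

end Pool.Agent.Helper70.FW
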