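import Pool.Agent.Helper70.FW.Eev
import Pool.Agent.Helper31.EC.Real

/-! Theorem FW: the finite theorem implies the theorem of the exact calculus. -/

set_option autoImplicit false

namespace Pool.Agent.Helper70.FW

open Finset Filter Topology Pool.Agent.Helper69.RK Pool.Agent.Helper31.EC Pool.Agent.Helper38.NS
open Pool.Agent.Helper92.W Pool.Agent.Helper61.EC Pool.Agent.Helper46.WF

noncomputable section

open Sp QS

variable {S : Sp}

/-- functions of the base, a known label and a label of small rate are known -/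
theorem lab0 {α β γ : ℕ → Type} {Bc : ∀ k, (S.F k).Ω → α k} (hB : Bdd Bc) {V : ∀ k, (S.F k).Ω → γ k} (hV : Bdd V)
    (R : ∀ k, (S.F k).Ω → β k) {J : ℕ → ℕ} (hJ : Tendsto J UF atTop)
    (hR : ∀ᶠ k in UF, CH (S.F k).μ (R k) (fun ω => (Quotient.mk (S.F k).Z ω, Bc k ω)) ≤
      1 / ((J k : ℝ) + 1) * lev S 1 k) (x : TR S)
    (hx : ∀ᶠ k in UF, ∀ ω ω', (S.F k).μ ω ≠ 0 → (S.F k).μ ω' ≠ 0 →
      (Quotient.mk (S.F k).Z ω, Bc k ω) = (Quotient.mk (S.F k).Z ω', Bc k ω') → R k ω = R k ω' → V k ω = V k ω' →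
      TR.ev x k ω = TR.ev x k ω') : dg (QS.mk x) 1 ≤ io Bc ⊔ io V := by
  have hd : QS.dg (QS.mk x) 1 = io ((TR.vec fun _ : Fin 1 => x).cellv 1) := QS.dg_mk _ le_rfl
  have hcb : Bdd ((TR.vec fun _ : Fin 1 => x).cellv 1) := (TR.vec fun _ : Fin 1 => x).bdd 1
  rw [hd, ← io_pair hB hV, io_le_io hcb (hB.pair hV)]
  refine squeeze_zero' (Eventually.of_forall fun k => rt_nonneg _ _ k) ?_
    (tendsto_one_div_add_atTop_nhds_zero_nat.comp hJ)
  filter_upwards [hR, hx] with k h1 h2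
  have hn := (S.F k).pos
  have hNle : (lev S 1 k : ℝ) ≤ (S.F k).n := by
    have := lev_le S zero_le_one k
    rwa [one_mul] at this
  show (S.F k).e (Setoid.ker ((TR.vec fun _ : Fin 1 => x).cellv 1 k))
      (Setoid.ker (fun ω => (Bc k ω, V k ω)) ⊓ (S.F k).Z) / (S.F k).n ≤ 1 / ((J k : ℝ) + 1)
  rw [div_le_iff₀ hn]
  have h3 := (S.F k).e_triangle (Setoid.ker ((TR.vec fun _ : Fin 1 => x).cellv 1 k)) (Setoid.ker (R k))
    (Setoid.ker (fun ω => (Bc k ω, V k ω)) ⊓ (S.F k).Z)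
  have h4 : (S.F k).e (Setoid.ker ((TR.vec fun _ : Fin 1 => x).cellv 1 k))
      (Setoid.ker (R k) ⊓ (Setoid.ker (fun ω => (Bc k ω, V k ω)) ⊓ (S.F k).Z)) = 0 := by
    apply (S.F k).e_zero
    intro ω ω' m1 m2 m3
    have g1 : R k ω = R k ω' := m3.1
    have g2 : (Bc k ω, V k ω) = (Bc k ω', V k ω') := m3.2.1
    have g3 : (S.F k).Z ω ω' := m3.2.2
    rw [Prod.mk.injEq] at g2
    have g4 := h2 ω ω' m1 m2 (by rw [g2.1, Quotient.sound g3]) g1 g2.2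
    show (TR.vec fun _ : Fin 1 => x).cellv 1 k ω = (TR.vec fun _ : Fin 1 => x).cellv 1 k ω'
    unfold VV.cellv
    have g5 : (TR.vec fun _ : Fin 1 => x).v k ω = (TR.vec fun _ : Fin 1 => x).v k ω' := by
      funext i
      exact g4
    rw [g5]
  have h5 : (S.F k).e (Setoid.ker (R k)) (Setoid.ker (fun ω => (Bc k ω, V k ω)) ⊓ (S.F k).Z) ≤
      CH (S.F k).μ (R k) (fun ω => (Quotient.mk (S.F k).Z ω, Bc k ω)) := by
    rw [← (S.F k).e_ker]
    apply (S.F k).e_anti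
    intro ω ω' _ _ m3
    have g2 : (Bc k ω, V k ω) = (Bc k ω', V k ω') := m3.1
    have g3 : (S.F k).Z ω ω' := m3.2
    rw [Prod.mk.injEq] at g2
    show (Quotient.mk (S.F k).Z ω, Bc k ω) = (Quotient.mk (S.F k).Z ω', Bc k ω')
    rw [g2.1, Quotient.sound g3]
  have h6 : 1 / ((J k : ℝ) + 1) * (lev S 1 k : ℝ) ≤ 1 / ((J k : ℝ) + 1) * (S.F k).n :=
    mul_le_mul_of_nonneg_left hNle (by positivity)
  linarith

/-- tubes of the finite spaces along the ultrafilter are tubes of the exact calculus -/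
theorem side_tub {N : ℕ} {α : ℕ → Type} {Bc : ∀ k, (S.F k).Ω → α k} (hB : Bdd Bc) (t : TR S) (a : Fin N → TR S)
    (ht : ∀ k ω, |TR.ev t k ω| ≤ 1) {l κ : ℝ} (hl : 0 ≤ l) (hl1 : l ≤ 1) (hk0 : 0 ≤ κ) (hκ : κ ≤ 1) {J : ℕ → ℕ}
    (hJ : Tendsto J UF atTop)
    (hT : ∀ᶠ k in UF, TubF N (lev S 1 k) (1 / ((J k : ℝ) + 1)) l κ (S.F k).μ
      (fun ω => (Quotient.mk (S.F k).Z ω, Bc k ω)) (fun ω => TR.ev t k ω) (fun ω i => TR.ev (a i) k ω)) :
    ∃ aQ oQ : Fin N → QS S, TubG S (io Bc) (QS.mk t) (fun i => QS.mk (a i)) aQ oQ l κ := by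
  classical
  -- the data
  have h0 : ∀ k, ∃ (β : Type) (R : (S.F k).Ω → β) (sl o : (S.F k).Ω → Fin N → ℝ),
      TubF N (lev S 1 k) (1 / ((J k : ℝ) + 1)) l κ (S.F k).μ (fun ω => (Quotient.mk (S.F k).Z ω, Bc k ω))
        (fun ω => TR.ev t k ω) (fun ω i => TR.ev (a i) k ω) →
      CH (S.F k).μ R (fun ω => (Quotient.mk (S.F k).Z ω, Bc k ω)) ≤ 1 / ((J k : ℝ) + 1) * lev S 1 k ∧
      (∀ ω ω', (S.F k).μ ω ≠ 0 → (S.F k).μ ω' ≠ 0 →
        (Quotient.mk (S.F k).Z ω, Bc k ω) = (Quotient.mk (S.F k).Z ω', Bc k ω') → R ω = R ω' →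
        fl ⌊l * lev S 1 k⌋₊ (TR.ev t k ω) = fl ⌊l * lev S 1 k⌋₊ (TR.ev t k ω') → sl ω = sl ω' ∧ o ω = o ω') ∧
      Pw (S.F k).μ (fun ω => ¬ ∀ i, |sl ω i| ≤ 2 ^ (1 / ((J k : ℝ) + 1) * lev S 1 k) ∧
        |o ω i| ≤ 2 ^ (1 / ((J k : ℝ) + 1) * lev S 1 k) ∧
        |TR.ev (a i) k ω - sl ω i * TR.ev t k ω - o ω i| ≤ 2 ^ (-(κ * lev S 1 k))) ≤ 1 / ((J k : ℝ) + 1) := by
    intro k
    by_cases h : TubF N (lev S 1 k) (1 / ((J k : ℝ) + 1)) l κ (S.F k).μ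
      (fun ω => (Quotient.mk (S.F k).Z ω, Bc k ω)) (fun ω => TR.ev t k ω) (fun ω i => TR.ev (a i) k ω)
    · obtain ⟨β, R, sl, o, h1⟩ := h
      exact ⟨β, R, sl, o, fun _ => h1⟩
    · exact ⟨Unit, fun _ => (), fun _ _ => 0, fun _ _ => 0, fun h' => absurd h' h⟩
  choose β R sl o h1 using h0
  have hlev1 : ∀ k, (lev S 1 k : ℝ) ≤ (S.F k).n := by
    intro k
    have := lev_le S zero_le_one k
    rwa [one_mul] at this
  have hlev2 : ∀ k, (S.F k).n < lev S 1 k + 1 := by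
    intro k
    have := lt_lev S 1 k
    rwa [one_mul] at this
  -- constants
  set K : ℕ → ℝ := fun k => 2 ^ ((1 / ((J k : ℝ) + 1)) * (S.F k).n) with hK
  have hKS : S.Sub K := S.Sub_diag hJ
  have hK0 : ∀ k, 0 ≤ K k := fun k => by positivity
  have hK2 : ∀ k, (2 : ℝ) ^ (1 / ((J k : ℝ) + 1) * lev S 1 k) ≤ K k := by
    intro k
    apply Real.rpow_le_rpow_of_exponent_le (by norm_num)
    exact mul_le_mul_of_nonneg_left (hlev1 k) (by positivity)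
  -- clipped functions
  have hcl : ∀ x : ∀ k, (S.F k).Ω → Fin N → ℝ, ∀ i : Fin N, ∃ y : TR S, ∀ k ω,
      TR.ev y k ω = max (-(K k)) (min (K k) (x k ω i)) := by
    intro x i
    refine ⟨⟨fun k ω => max (-(K k)) (min (K k) (x k ω i)), ⟨K, hKS, Eventually.of_forall fun k ω _ => ?_⟩⟩,
      fun _ _ => rfl⟩
    rw [abs_le]
    exact ⟨le_max_left _ _, max_le (by linarith [hK0 k]) (min_le_left _ _)⟩
  have hcl2 : ∀ (k : ℕ) (x : ℝ), |x| ≤ K k → max (-(K k)) (min (K k) x) = x := by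
    intro k x hx
    rw [abs_le] at hx
    rw [min_eq_right hx.2, max_eq_right hx.1]
  choose aT haT using hcl sl
  choose oT hoT using hcl o
  -- the cell of `t`
  have bV : Bdd (fun k ω => fl ⌊l * lev S 1 k⌋₊ (TR.ev t k ω)) ∧
      io (fun k ω => fl ⌊l * lev S 1 k⌋₊ (TR.ev t k ω)) ≤ dg (QS.mk t) l := by
    have b1 := bdd_fl S (TR.ev t) 1 ht l
    have i1 := io_fl S t 1 ht hl hl1
    have hle : ∀ k, ⌊l * lev S 1 k⌋₊ ≤ lev S l k := by
      intro k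
      unfold lev
      apply Nat.floor_le_floor
      exact mul_le_mul_of_nonneg_left (hlev1 k) hl
    have hf : ∀ᶠ k in UF, ∀ ω ω', (S.F k).μ ω ≠ 0 → (S.F k).μ ω' ≠ 0 → (S.F k).Z ω ω' →
        fl (lev S l k) (TR.ev t k ω) = fl (lev S l k) (TR.ev t k ω') →
        fl ⌊l * lev S 1 k⌋₊ (TR.ev t k ω) = fl ⌊l * lev S 1 k⌋₊ (TR.ev t k ω') :=
      Eventually.of_forall fun k ω ω' _ _ _ hh => fl_eq_of (hle k) hh
    refine ⟨b1.of_fun hf, ?_⟩
    rw [← i1]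
    exact io_le_of_fun b1 hf
  have key : ∀ (x : ∀ k, (S.F k).Ω → Fin N → ℝ) (y : Fin N → TR S),
      (∀ i k ω, TR.ev (y i) k ω = max (-(K k)) (min (K k) (x k ω i))) →
      (∀ᶠ k in UF, ∀ ω ω', (S.F k).μ ω ≠ 0 → (S.F k).μ ω' ≠ 0 →
        (Quotient.mk (S.F k).Z ω, Bc k ω) = (Quotient.mk (S.F k).Z ω', Bc k ω') → R k ω = R k ω' →
        fl ⌊l * lev S 1 k⌋₊ (TR.ev t k ω) = fl ⌊l * lev S 1 k⌋₊ (TR.ev t k ω') → x k ω = x k ω') →
      vd (fun i => QS.mk (y i)) 1 ≤ io Bc ⊔ dg (QS.mk t) l := by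
    intro x y hy hx
    rw [vd_le]
    intro i
    refine (lab0 hB bV.1 R hJ (hT.mono fun k hk => (h1 k hk).1) (y i) ?_).trans (sup_le_sup_left bV.2 _)
    filter_upwards [hx] with k hk ω ω' m1 m2 m3 m4 m5
    rw [hy, hy, hk ω ω' m1 m2 m3 m4 m5]
  refine ⟨fun i => QS.mk (aT i), fun i => QS.mk (oT i), ?_, ?_, ?_⟩
  · refine key sl aT haT ?_
    filter_upwards [hT] with k hk ω ω' m1 m2 m3 m4 m5
    exact ((h1 k hk).2.1 ω ω' m1 m2 m3 m4 m5).1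
  · refine key o oT hoT ?_
    filter_upwards [hT] with k hk ω ω' m1 m2 m3 m4 m5
    exact ((h1 k hk).2.1 ω ω' m1 m2 m3 m4 m5).2
  · intro i
    have h3 : QS.mk (a i) - QS.mk (aT i) * QS.mk t - QS.mk (oT i) = QS.mk (a i - aT i * t - oT i) := by
      rw [map_sub, map_sub, map_mul]
    rw [h3, QS.mk_mem_Id hκ]
    refine ⟨fun k ω => ∀ i, |sl k ω i| ≤ 2 ^ (1 / ((J k : ℝ) + 1) * lev S 1 k) ∧
        |o k ω i| ≤ 2 ^ (1 / ((J k : ℝ) + 1) * lev S 1 k) ∧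
        |TR.ev (a i) k ω - sl k ω i * TR.ev t k ω - o k ω i| ≤ 2 ^ (-(κ * lev S 1 k)), fun _ => 2, ?_,
      S.Sub_const (by norm_num), ?_⟩
    · refine squeeze_zero' (Eventually.of_forall fun k => mass_res_nonneg k _) ?_
        (tendsto_one_div_add_atTop_nhds_zero_nat.comp hJ)
      filter_upwards [hT] with k hk
      rw [← Pw_eq]
      exact (h1 k hk).2.2
    · refine Eventually.of_forall fun k ω _ hω => ?_
      obtain ⟨w1, w2, w3⟩ := hω i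
      rw [TR.ev_zero, sub_zero, TR.ev_sub, TR.ev_sub, TR.ev_mul, haT, hoT, hcl2 k _ (w1.trans (hK2 k)),
        hcl2 k _ (w2.trans (hK2 k))]
      refine w3.trans ?_
      have e1 : 2 * S.dl κ k = 2 ^ (1 + -(κ * (S.F k).n)) := by
        unfold Sp.dl
        rw [Real.rpow_add (by norm_num), Real.rpow_one]
      rw [e1]
      apply Real.rpow_le_rpow_of_exponent_le (by norm_num)
      have e2 := mul_le_mul_of_nonneg_left (hlev2 k).le hk0
      nlinarith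

/-- tubes of both sides for edges with nonnegative heights -/
def TUBESq (N : ℕ) (ρ l κ : ℝ) : Prop :=
  ∀ (S : Sp) (ι : Type) (_ : Fintype ι) (c : QS S) (f : ι → QS S) (T T' : QS S) (A C z z3 : Fin N → QS S),
    Blk S c f z z3 T T' A C → UQ S z (vd f 1) ρ → NN T → NN T' →
    ∃ a o a' o' : Fin N → QS S, TubG S (vd f 1) T A a o l κ ∧ TubG S (vd f 1) T' C a' o' l κ

/-- reduction of theorem FW to tubes for edges with nonnegative heights -/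
theorem wvq_of_tubesq {N : ℕ} {ρ l κ : ℝ} (hρ : 0 ≤ ρ) (hl : 0 ≤ l) (hlk : l ≤ κ) (h0 : 0 < κ) (h1 : κ ≤ 1)
    (hT : TUBESq N ρ l κ) : WVQ N ρ (ρ * (ρ * κ - l) - l) := by
  apply wvq_of_tubesp hρ hl hlk h0 h1
  intro S ι _ c f T T' A C z z3 hb hu nT nT'
  obtain ⟨a, o, a', o', t1, t2⟩ := hT S ι _ c f T T' A C z z3 hb hu nT nT'
  have hE : 0 < ul (S.pr fun _ _ => True) := ul_pr_typ_pos _ Typ_true
  have key : ∀ {X : QS S} {Y b p : Fin N → QS S}, TubG S (vd f 1) X Y b p l κ →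
      TubG (S.rest fun _ _ => True) (restL _ hE (vd f 1)) (QS.rest _ hE X) (fun i => QS.rest _ hE (Y i))
        (fun i => QS.rest _ hE (b i)) (fun i => QS.rest _ hE (p i)) l κ := by
    intro X Y b p h
    refine ⟨?_, ?_, fun i => ?_⟩
    · rw [QS.rest_vd, QS.rest_dg, ← restL_sup]
      exact restL_mono _ hE h.1
    · rw [QS.rest_vd, QS.rest_dg, ← restL_sup]
      exact restL_mono _ hE h.2.1
    · rw [← map_mul, ← map_sub, ← map_sub]
      exact rest_mem_Id _ hE h1 (h.2.2 i)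
  exact ⟨_, hE, _, _, _, _, key t1, key t2⟩

/-- finite tubes along the ultrafilter -/
theorem tub_ev {N : ℕ} {ι : Type} [Fintype ι] {z z3 A C : Fin N → QS S} {T T' c : QS S} {f : ι → QS S} {ρ l κ : ℝ}
    (hTop : TOPF N ρ l κ) (hb : Blk S c f z z3 T T' A C) (hu : UQ S z (vd f 1) ρ) (hN : 0 ≤ (N : ℝ) - ρ)
    (d : DD S c f z z3 T T' A C) {ε : ℝ} (hε : 0 < ε) :
    ∀ᶠ k in UF, TubF N (lev S 1 k) ε l κ (S.F k).μ (fun ω => (Quotient.mk (S.F k).Z ω, d.Bc k ω))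
        (fun ω => TR.ev d.t k ω) (fun ω i => TR.ev (d.a i) k ω) ∧
      TubF N (lev S 1 k) ε l κ (S.F k).μ (fun ω => (Quotient.mk (S.F k).Z ω, d.Bc k ω))
        (fun ω => TR.ev d.t' k ω) (fun ω i => TR.ev (d.cc i) k ω) := by
  obtain ⟨εQ, hεQ, h1⟩ := hTop ε hε
  obtain ⟨ηQ, hηQ, h2⟩ := edg_ev hb hu hN d hεQ
  obtain ⟨η, hη, n0, h3⟩ := h1 ηQ hηQ
  filter_upwards [h2 η hη, S.lim.eventually_ge_atTop ((n0 : ℝ) + 1)] with k hk hn
  have hlt : (S.F k).n < lev S 1 k + 1 := by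
    have := lt_lev S 1 k
    rwa [one_mul] at this
  have hn0 : n0 ≤ lev S 1 k := by
    have h4 : (n0 : ℝ) < lev S 1 k := by linarith
    have h5 : n0 < lev S 1 k := by exact_mod_cast h4
    exact h5.le
  exact ⟨h3 _ hn0 _ _ _ _ _ _ _ _ _ _ _ hk, h3 _ hn0 _ _ _ _ _ _ _ _ _ _ _ hk.swap⟩

/-- removing the scaling -/
theorem TubG.unscale {N : ℕ} {G : S.L} {X s v : QS S} {Y a o : Fin N → QS S} {l κ : ℝ} (hs : Scl s v) (hl : l ≤ 1)
    (h : TubG S G (s * X) (fun i => s * Y i) a o l κ) : TubG S G X Y a (fun i => v * o i) l κ := by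
  have hv : Scl v s := ⟨hs.dv, hs.ds, by rw [mul_comm]; exact hs.vs⟩
  obtain ⟨h1, h2, h3⟩ := h
  rw [hs.dg X hl] at h1 h2
  refine ⟨h1, ?_, fun i => ?_⟩
  · rw [hv.vd o le_rfl]
    exact h2
  · have e1 : Y i - a i * X - v * o i = v * (s * Y i - a i * (s * X) - o i) := by
      linear_combination (-(Y i) + a i * X) * hs.vs
    rw [e1]
    exact (Id S κ).mul_mem_left _ (h3 i)

/-- **the finite theorem implies tubes in the exact calculus** -/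
theorem tubesq_of_top {N : ℕ} {ρ l κ : ℝ} (hN : 0 ≤ (N : ℝ) - ρ) (hl : 0 ≤ l) (hlk : l ≤ κ) (h0 : 0 < κ)
    (h1 : κ ≤ 1) (hTop : TOPF N ρ l κ) : TUBESq N ρ l κ := by
  intro S ι _ c f T T' A C z z3 hb hu nT nT'
  obtain ⟨d⟩ := exists_DD hb nT nT'
  have hev := fun j : ℕ => tub_ev hTop hb hu hN d (ε := 1 / ((j : ℝ) + 1)) (by positivity)
  obtain ⟨J, hJ, _, hJ2⟩ := diag_in_place (fun _ _ _ => 0) (fun _ j k =>
    TubF N (lev S 1 k) (1 / ((j : ℝ) + 1)) l κ (S.F k).μ (fun ω => (Quotient.mk (S.F k).Z ω, d.Bc k ω))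
        (fun ω => TR.ev d.t k ω) (fun ω i => TR.ev (d.a i) k ω) ∧
      TubF N (lev S 1 k) (1 / ((j : ℝ) + 1)) l κ (S.F k).μ (fun ω => (Quotient.mk (S.F k).Z ω, d.Bc k ω))
        (fun ω => TR.ev d.t' k ω) (fun ω i => TR.ev (d.cc i) k ω)) (fun _ _ => UB_const 0) (fun _ j => hev j)
  have hJ3 := hJ2 0
  obtain ⟨a, o, t1⟩ := side_tub d.bB d.t d.a d.gt.1 hl (hlk.trans h1) h0.le h1 hJ (hJ3.mono fun k hk => hk.1)
  obtain ⟨a', o', t2⟩ := side_tub d.bB d.t' d.cc d.gt'.1 hl (hlk.trans h1) h0.le h1 hJ (hJ3.mono fun k hk => hk.2)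
  rw [d.iB, d.mt] at t1
  rw [d.iB, d.mt'] at t2
  simp only [d.ma] at t1
  simp only [d.mcc] at t2
  exact ⟨a, _, a', _, t1.unscale d.hs (hlk.trans h1), t2.unscale d.hs (hlk.trans h1)⟩

/-- **THE BRIDGE**: the finite theorem FW implies the theorem of the exact calculus -/
theorem wvq_of_top {N : ℕ} {ρ l κ : ℝ} (hρ : 0 ≤ ρ) (hl : 0 ≤ l) (hlk : l ≤ κ) (h0 : 0 < κ) (h1 : κ ≤ 1)
    (hTop : TOPF N ρ l κ) : WVQ N ρ (ρ * (ρ * κ - l) - l) := by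
  by_cases hN : 0 ≤ (N : ℝ) - ρ
  · exact wvq_of_tubesq hρ hl hlk h0 h1 (tubesq_of_top hN hl hlk h0 h1 hTop)
  · intro S ι _ f P Q T T' A C z z3 tP aP tQ cQ he i1 i2 i3 r1 r2 hu i
    exfalso
    have h2 := UQ_le_one hu i
    have h3 : (1 : ℝ) ≤ N := by
      have : 0 < N := Fin.pos i
      exact_mod_cast this
    apply hN
    linarith

end

end Pool.Agent.Helper70.FW
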