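import Pool.Agent.Helper70.FW.Top

/-! Theorem FW: finite edges, exchange of the two sides. -/

set_option autoImplicit false

namespace Pool.Agent.Helper70.FW

open Finset Pool.Agent.Helper69.RK Pool.Agent.Helper92.W Pool.Agent.Helper61.EC Pool.Agent.Helper46.WF

noncomputable section

variable {N n : ℕ} {ρ η εQ ηQ c : ℝ} {Ω φ : Type} {μ : Ω → ℝ} {F : Ω → φ} {z : Ω → Fin N → ℝ}

theorem QuoF.mono (h : QuoF N n εQ ηQ μ F z) {ηQ' : ℝ} (h1 : ηQ' ≤ ηQ) : QuoF N n εQ ηQ' μ F z := by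
  intro Ω' ft μ' π g1 g2 χ X w a g3 g4 g5 g6
  refine h Ω' ft μ' π g1 g2 χ X w a g3 g4 g5 (g6.trans ?_)
  have : ηQ' * (n : ℝ) ≤ ηQ * n := mul_le_mul_of_nonneg_right h1 (Nat.cast_nonneg n)
  linarith

variable [Fintype Ω] {T T' : Ω → ℝ} {A C : Ω → Fin N → ℝ}

/-- exchange of the sides -/
theorem Edg.swap (h : Edg N n ρ η εQ ηQ c μ F T T' A C z) : Edg N n ρ η εQ ηQ (-c) μ F T' T C A z := by
  have e3 : (fun ω i => z ω i + -c * (T' ω * A ω i - C ω i * T ω)) =
      fun ω i => z ω i + c * (T ω * C ω i - A ω i * T' ω) := by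
    funext ω i
    ring
  have e3' : ∀ ω i, z ω i + -c * (T' ω * A ω i - C ω i * T ω) = z ω i + c * (T ω * C ω i - A ω i * T' ω) :=
    fun ω i => congrFun (congrFun e3 ω) i
  have lab : ∀ {α : Type} (X : Ω → α), CH μ X (fun ω => ((T' ω, C ω), (T ω, A ω), F ω)) =
      CH μ X (fun ω => ((T ω, A ω), (T' ω, C ω), F ω)) := by
    intro α X
    apply e2_CH_congr
    · intro ω ω' _ _
      simp only [Prod.mk.injEq]
      tauto
    · intro ω ω' _ _
      simp only [Prod.mk.injEq]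
      tauto
  refine ⟨h.nn, h.ms, ?_, h.bT', h.bT, h.bC, h.bA, h.bz, h.dT', h.dT, h.dC, h.dA, h.dz, ?_, ?_, ?_, h.r2, h.r1, h.U,
    ?_, h.Q, ?_⟩
  · rcases h.hc with h | h
    · right; rw [h]
    · left; rw [h]; ring
  · rw [lab]
    exact h.i1
  · simp only [e3']
    rw [lab]
    exact h.i2
  · have h1 := e1_chain μ (fun ω => (T' ω, C ω)) (fun ω => (T ω, A ω)) F
    have h2 := e1_chain μ (fun ω => (T ω, A ω)) (fun ω => (T' ω, C ω)) F
    have h3 : CH μ (fun ω => ((T' ω, C ω), (T ω, A ω))) F = CH μ (fun ω => ((T ω, A ω), (T' ω, C ω))) F := by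
      apply e2_CH_congr
      · intro ω ω' _ _
        rfl
      · intro ω ω' _ _
        simp only [Prod.mk.injEq]
        tauto
    have h4 := h.i3
    linarith
  · simp only [e3']
    exact h.U3
  · rw [e3]
    exact h.Q3

end

end Pool.Agent.Helper70.FW
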