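import Pool.Agent.Helper70.FW.Top
import Pool.Agent.Helper31.EC.Diag
import Pool.Agent.Helper31.EC.Dens

/-! Theorem FW: the second order quotient condition of the finite spaces from the exact calculus. -/

set_option autoImplicit false

namespace Pool.Agent.Helper70.FW

open Finset Filter Topology Pool.Agent.Helper69.RK Pool.Agent.Helper31.EC
open Pool.Agent.Helper92.W Pool.Agent.Helper61.EC Pool.Agent.Helper46.WF

noncomputable section

open Sp QS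

/-- quotients given a function of the condition -/
theorem e_quot (F : FSp) (Q Z X W G : Setoid F.Ω) (hW : ∀ ω ω', F.μ ω ≠ 0 → F.μ ω' ≠ 0 → X ω ω' → G ω ω' → W ω ω')
    {C1 C2 : ℝ} (h1 : F.e Q (Z ⊓ (W ⊓ G)) ≤ C1) (h2 : F.e Z G ≤ F.e Z (X ⊓ G) + C2) :
    F.e Q (W ⊓ G) ≤ F.e Q (X ⊓ G) + (C1 + C2) := by
  have a1 := F.e_chain Z Q (W ⊓ G)
  have a2 := F.e_chain Q Z (W ⊓ G)
  have a3 := F.e_chain Z Q (X ⊓ G)
  have a4 := F.e_chain Q Z (X ⊓ G)
  rw [inf_comm Z Q] at a1 a3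
  have b1 : F.e Z (W ⊓ G) ≤ F.e Z G := F.e_anti fun ω ω' _ _ h => h.2
  have b2 : 0 ≤ F.e Q (Z ⊓ (X ⊓ G)) := F.e_nonneg _ _
  have b3 : F.e Z (Q ⊓ (X ⊓ G)) ≤ F.e Z (Q ⊓ (W ⊓ G)) := F.e_anti fun ω ω' p q h =>
    ⟨h.1, hW ω ω' p q h.2.1 h.2.2, h.2.2⟩
  linarith

/-- the floors of quotients are almost functions of the floors -/
theorem e_floor (F : FSp) {N : ℕ} (n : ℕ) (z w : F.Ω → Fin N → ℝ) (a : Fin N) {C : ℝ} (hC : 0 ≤ C)
    (hz : ∀ ω i, |z ω i| ≤ C) (hw : ∀ ω i, |w ω i| ≤ 1) (G : Setoid F.Ω) :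
    F.e (Setoid.ker fun ω => vfl n fun i => z ω i - w ω i * z ω a)
      (Setoid.ker (fun ω => vfl n (z ω)) ⊓ (Setoid.ker (fun ω => vfl n (w ω)) ⊓ G)) ≤
      N * Real.logb 2 (C + 3 + 1) := by
  apply F.e_int_le _ _ _ (by linarith)
  intro ω ω' _ _ h i
  have key : ∀ x y : ℝ, fl n x = fl n y → |(2 : ℝ) ^ n * x - 2 ^ n * y| ≤ 1 := by
    intro x y hxy
    have h1 := Int.floor_le ((2 : ℝ) ^ n * x)
    have h2 := Int.lt_floor_add_one ((2 : ℝ) ^ n * x)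
    have h3 := Int.floor_le ((2 : ℝ) ^ n * y)
    have h4 := Int.lt_floor_add_one ((2 : ℝ) ^ n * y)
    have h5 : ⌊(2 : ℝ) ^ n * x⌋ = ⌊(2 : ℝ) ^ n * y⌋ := hxy
    rw [h5] at h1 h2
    rw [abs_le]
    constructor <;> linarith
  have e1 : vfl n (z ω) = vfl n (z ω') := h.1
  have e2 : vfl n (w ω) = vfl n (w ω') := h.2.1
  have d1 := key _ _ (congrFun e1 i)
  have d2 := key _ _ (congrFun e1 a)
  have d3 := key _ _ (congrFun e2 i)
  have f1 := Int.floor_le ((2 : ℝ) ^ n * (z ω i - w ω i * z ω a))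
  have f2 := Int.lt_floor_add_one ((2 : ℝ) ^ n * (z ω i - w ω i * z ω a))
  have f3 := Int.floor_le ((2 : ℝ) ^ n * (z ω' i - w ω' i * z ω' a))
  have f4 := Int.lt_floor_add_one ((2 : ℝ) ^ n * (z ω' i - w ω' i * z ω' a))
  have g : |(2 : ℝ) ^ n * (z ω i - w ω i * z ω a) - 2 ^ n * (z ω' i - w ω' i * z ω' a)| ≤ C + 2 := by
    have g1 : (2 : ℝ) ^ n * (z ω i - w ω i * z ω a) - 2 ^ n * (z ω' i - w ω' i * z ω' a) =
        (2 ^ n * z ω i - 2 ^ n * z ω' i) - w ω i * (2 ^ n * z ω a - 2 ^ n * z ω' a) -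
          (2 ^ n * w ω i - 2 ^ n * w ω' i) * z ω' a := by ring
    rw [g1]
    have g2 : |w ω i * (2 ^ n * z ω a - 2 ^ n * z ω' a)| ≤ 1 := by
      rw [abs_mul]
      exact mul_le_one₀ (hw ω i) (abs_nonneg _) d2
    have g3 : |(2 ^ n * w ω i - 2 ^ n * w ω' i) * z ω' a| ≤ C := by
      rw [abs_mul]
      calc |(2 : ℝ) ^ n * w ω i - 2 ^ n * w ω' i| * |z ω' a| ≤ 1 * C :=
            mul_le_mul d3 (hz ω' a) (abs_nonneg _) zero_le_one
        _ = C := one_mul C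
    rw [abs_le] at g2 g3 d1 ⊢
    constructor <;> linarith [g2.1, g2.2, g3.1, g3.2, d1.1, d1.2]
  rw [abs_le] at g
  show |((⌊(2 : ℝ) ^ n * (z ω i - w ω i * z ω a)⌋ : ℤ) : ℝ) - ((⌊(2 : ℝ) ^ n * (z ω' i - w ω' i * z ω' a)⌋ : ℤ) : ℝ)| ≤ _
  rw [abs_le]
  constructor <;> linarith [g.1, g.2]

/-- finitely many values along the ultrafilter -/
theorem UF_const {N : ℕ} (a : ℕ → Fin N) : ∃ a0, ∀ᶠ k in UF, a k = a0 := by
  by_contra hc
  have h1 : ∀ᶠ k in UF, ∀ a0, a k ≠ a0 := by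
    rw [eventually_all]
    intro a0
    exact UF_not fun h => hc ⟨a0, h⟩
  obtain ⟨k, hk⟩ := h1.exists
  exact hk (a k) rfl

/-- entropies given pairs -/
theorem CH_inf (F : FSp) {α β γ : Type} (f : F.Ω → α) (g : F.Ω → β) (h : F.Ω → γ) :
    CH F.μ f (fun ω => (g ω, h ω)) = F.e (Setoid.ker f) (Setoid.ker g ⊓ Setoid.ker h) := by
  symm
  apply F.e_congr
  · intro ω ω' _ _
    exact Iff.rfl
  · intro ω ω' _ _
    rw [Prod.mk.injEq]
    exact Iff.rfl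

variable {S : Sp} {N : ℕ}

/-- data that violate the condition -/
structure FD (N n : ℕ) (εQ ηQ : ℝ) {Ω φ : Type} (μ : Ω → ℝ) (F : Ω → φ) (z : Ω → Fin N → ℝ) where
  Ω' : Type
  ft : Fintype Ω'
  μ' : Ω' → ℝ
  π : Ω' → Ω
  w : Ω' → Fin N → ℝ
  χ : Type
  X : Ω' → χ
  a : Fin N
  nn : ∀ ω, 0 ≤ μ' ω
  law : push π μ' = μ
  hw : ∀ ω i, |w ω i| ≤ 1
  bad : ¬ QuoF N n εQ ηQ μ F z → (∀ ω, w ω a = 1) ∧
    (∀ ω ω', μ' ω ≠ 0 → μ' ω' ≠ 0 → X ω = X ω' → F (π ω) = F (π ω') → w ω = w ω') ∧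
    CH μ' (fun ω => vfl n (z (π ω))) (fun ω => F (π ω)) ≤
      CH μ' (fun ω => vfl n (z (π ω))) (fun ω => (X ω, F (π ω))) + ηQ * n ∧
    CH μ' (fun ω => vfl n fun i => z (π ω) i - w ω i * z (π ω) a) (fun ω => (X ω, F (π ω))) < (N - 1 - εQ) * n

theorem exists_FD (n : ℕ) (εQ ηQ : ℝ) {Ω φ : Type} [Fintype Ω] (μ : Ω → ℝ) (hμ : ∀ ω, 0 ≤ μ ω) (F : Ω → φ)
    (z : Ω → Fin N → ℝ) (a0 : Fin N) : Nonempty (FD N n εQ ηQ μ F z) := by
  classical
  by_cases h : QuoF N n εQ ηQ μ F z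
  · refine ⟨⟨Ω, inferInstance, μ, id, fun _ _ => 0, Unit, fun _ => (), a0, hμ, ?_, ?_, fun h' => absurd h h'⟩⟩
    · funext ω
      unfold push
      rw [Finset.sum_eq_single ω]
      · exact if_pos rfl
      · intro b _ hb
        exact if_neg hb
      · intro h
        exact absurd (Finset.mem_univ _) h
    · intro ω i
      rw [abs_zero]
      exact zero_le_one
  · have h0 := h
    unfold QuoF at h
    push Not at h
    obtain ⟨Ω', ft, μ', π, h1, h2, χ, X, w, a, h3, h4, h5, h6, h7⟩ := h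
    exact ⟨⟨Ω', ft, μ', π, w, χ, X, a, h1, h2, h4, fun _ => ⟨h3, h5, h6, h7⟩⟩⟩

/-- the space of a sequence of laws over a space -/
def ovl (S : Sp) (Ω' : ℕ → Type) (ft : ∀ k, Fintype (Ω' k)) (μ' : ∀ k, Ω' k → ℝ) (π : ∀ k, Ω' k → (S.F k).Ω)
    (nn : ∀ k ω, 0 ≤ μ' k ω) (law : ∀ k, push (π k) (μ' k) = (S.F k).μ) : Sp where
  F := fun k => {
    Ω := Ω' k
    ft := ft k
    μ := μ' k
    nn := nn k
    ms := by
      rw [← push_ms (π k) (μ' k) (nn k), law k]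
      exact (S.F k).ms
    Z := Setoid.comap (π k) (S.F k).Z
    n := (S.F k).n
    pos := (S.F k).pos }
  lim := S.lim

/-- its projection -/
def ovlP (S : Sp) (Ω' : ℕ → Type) (ft : ∀ k, Fintype (Ω' k)) (μ' : ∀ k, Ω' k → ℝ) (π : ∀ k, Ω' k → (S.F k).Ω)
    (nn : ∀ k ω, 0 ≤ μ' k ω) (law : ∀ k, push (π k) (μ' k) = (S.F k).μ) : Pj (ovl S Ω' ft μ' π nn law) S where
  π := π
  law := law
  hZ := fun _ _ _ _ _ => Iff.rfl
  hn := fun _ => rfl

/-- rates in extensions -/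
theorem rt_ext {R : Sp} (p : Pj R S) {α β : ℕ → Type} (X : ∀ k, (R.F k).Ω → α k) (Bc : ∀ k, (S.F k).Ω → β k) (k : ℕ) :
    R.rt (fun k => Setoid.ker (X k)) (fun k => Setoid.ker fun ω => Bc k (p.π k ω)) k * (S.F k).n =
      CH (R.F k).μ (X k) (fun ω => (Quotient.mk (S.F k).Z (p.π k ω), Bc k (p.π k ω))) := by
  have hn := (S.F k).pos
  unfold Sp.rt
  rw [p.hn k, div_mul_cancel₀ _ hn.ne']
  apply (R.F k).e_congr
  · intro ω ω' _ _
    exact Iff.rfl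
  · intro ω ω' h1 h2
    rw [Prod.mk.injEq]
    constructor
    · rintro ⟨u1, u2⟩
      exact ⟨Quotient.sound ((p.hZ k ω' ω h2 h1).mp u2), u1⟩
    · rintro ⟨u1, u2⟩
      exact ⟨u2, (p.hZ k ω' ω h2 h1).mpr (Quotient.exact u1)⟩

theorem rt_ext2 {R : Sp} (p : Pj R S) {α β γ : ℕ → Type} (X : ∀ k, (R.F k).Ω → α k) (W : ∀ k, (R.F k).Ω → γ k)
    (Bc : ∀ k, (S.F k).Ω → β k) (k : ℕ) :
    R.rt (fun k => Setoid.ker (X k)) (fun k => Setoid.ker fun ω => (W k ω, Bc k (p.π k ω))) k * (S.F k).n =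
      CH (R.F k).μ (X k) (fun ω => (W k ω, (Quotient.mk (S.F k).Z (p.π k ω), Bc k (p.π k ω)))) := by
  have hn := (S.F k).pos
  unfold Sp.rt
  rw [p.hn k, div_mul_cancel₀ _ hn.ne']
  apply (R.F k).e_congr
  · intro ω ω' _ _
    exact Iff.rfl
  · intro ω ω' h1 h2
    rw [Prod.mk.injEq, Prod.mk.injEq]
    constructor
    · rintro ⟨u1, u2⟩
      have u3 : (W k ω', Bc k (p.π k ω')) = (W k ω, Bc k (p.π k ω)) := u1
      rw [Prod.mk.injEq] at u3
      exact ⟨u3.1, Quotient.sound ((p.hZ k ω' ω h2 h1).mp u2), u3.2⟩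
    · rintro ⟨u1, u2, u3⟩
      refine ⟨?_, (p.hZ k ω' ω h2 h1).mpr (Quotient.exact u2)⟩
      show (W k ω', Bc k (p.π k ω')) = (W k ω, Bc k (p.π k ω))
      rw [u1, u3]

/-- the limit of violations -/
theorem quoF_core {α : ℕ → Type} (Bc : ∀ k, (S.F k).Ω → α k) (hB : Bdd Bc) (z : Fin N → TR S) {C : ℝ} (hC : 0 ≤ C)
    (hz : ∀ i k ω, |TR.ev (z i) k ω| ≤ C) {R : Sp} (p : Pj R S)
    (hQ : ∀ (X : R.L) (w : Fin N → QS R) (a : Fin N),
      I (p.map (vd (fun i => QS.mk (z i)) 1)) X (p.map (io Bc)) = 0 →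
      (∀ i, dg (w i) 1 ≤ p.map (io Bc) ⊔ X) → IsUnit (w a) →
      Helper31.EC.h (vd (fun i => p.qs (QS.mk (z i)) * w a - p.qs (QS.mk (z a)) * w i) 1) (p.map (io Bc) ⊔ X) =
        N - 1)
    (εQ : ℝ) (hε : 0 < εQ) (J : ℕ → ℕ) (hJ : Tendsto J UF atTop) (w : ∀ k, (R.F k).Ω → Fin N → ℝ) (χ : ℕ → Type)
    (X : ∀ k, (R.F k).Ω → χ k) (a : ℕ → Fin N) (hw : ∀ k ω i, |w k ω i| ≤ 1)
    (hbad : ∀ᶠ k in UF, (∀ ω, w k ω (a k) = 1) ∧
      (∀ ω ω', (R.F k).μ ω ≠ 0 → (R.F k).μ ω' ≠ 0 → X k ω = X k ω' →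
        (Quotient.mk (S.F k).Z (p.π k ω), Bc k (p.π k ω)) = (Quotient.mk (S.F k).Z (p.π k ω'), Bc k (p.π k ω')) →
        w k ω = w k ω') ∧
      CH (R.F k).μ (fun ω => vfl (lev S 1 k) (fun i => TR.ev (z i) k (p.π k ω)))
          (fun ω => (Quotient.mk (S.F k).Z (p.π k ω), Bc k (p.π k ω))) ≤
        CH (R.F k).μ (fun ω => vfl (lev S 1 k) (fun i => TR.ev (z i) k (p.π k ω)))
          (fun ω => (X k ω, (Quotient.mk (S.F k).Z (p.π k ω), Bc k (p.π k ω)))) + 1 / ((J k : ℝ) + 1) * lev S 1 k ∧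
      CH (R.F k).μ (fun ω => vfl (lev S 1 k) fun i => TR.ev (z i) k (p.π k ω) - w k ω i * TR.ev (z (a k)) k (p.π k ω))
          (fun ω => (X k ω, (Quotient.mk (S.F k).Z (p.π k ω), Bc k (p.π k ω)))) < (N - 1 - εQ) * lev S 1 k) :
    False := by
  classical
  obtain ⟨a0, ha0⟩ := UF_const a
  -- random variables
  obtain ⟨wT, hwT⟩ : ∃ wT : Fin N → TR R, ∀ i k ω, TR.ev (wT i) k ω = w k ω i :=
    ⟨fun i => ⟨fun k ω => w k ω i, ⟨fun _ => 1, R.Sub_const zero_le_one, Eventually.of_forall fun k ω _ => hw k ω i⟩⟩,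
      fun _ _ _ => rfl⟩
  have hwT1 : ∀ i k ω, |TR.ev (wT i) k ω| ≤ 1 := fun i k ω => by rw [hwT]; exact hw k ω i
  have hzT : ∀ i k ω, TR.ev (p.tr (z i)) k ω = TR.ev (z i) k (p.π k ω) := fun _ _ _ => rfl
  have hzT1 : ∀ i k ω, |TR.ev (p.tr (z i)) k ω| ≤ C := fun i k ω => hz i k _
  obtain ⟨qT, hqT⟩ : ∃ qT : Fin N → TR R, qT = fun i => p.tr (z i) * wT a0 - p.tr (z a0) * wT i := ⟨_, rfl⟩
  have hqe : ∀ i k ω, TR.ev (qT i) k ω =
      TR.ev (z i) k (p.π k ω) * w k ω a0 - TR.ev (z a0) k (p.π k ω) * w k ω i := by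
    intro i k ω
    rw [hqT]
    beta_reduce
    rw [TR.ev_sub, TR.ev_mul, TR.ev_mul, hwT, hwT]
    rfl
  have hq1 : ∀ i k ω, |TR.ev (qT i) k ω| ≤ 2 * C := by
    intro i k ω
    rw [hqe]
    have b1 : |TR.ev (z i) k (p.π k ω) * w k ω a0| ≤ C := by
      rw [abs_mul]
      calc |TR.ev (z i) k (p.π k ω)| * |w k ω a0| ≤ C * 1 := mul_le_mul (hz i k _) (hw k ω a0) (abs_nonneg _) hC
        _ = C := mul_one C
    have b2 : |TR.ev (z a0) k (p.π k ω) * w k ω i| ≤ C := by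
      rw [abs_mul]
      calc |TR.ev (z a0) k (p.π k ω)| * |w k ω i| ≤ C * 1 := mul_le_mul (hz a0 k _) (hw k ω i) (abs_nonneg _) hC
        _ = C := mul_one C
    exact (abs_sub _ _).trans (by linarith)
  have hlev : ∀ k, lev R 1 k = lev S 1 k := by
    intro k
    unfold lev
    rw [p.hn k]
  obtain ⟨bz, iz⟩ := io_vfl (fun i => p.tr (z i)) C hzT1 zero_le_one le_rfl
  obtain ⟨bw, iw⟩ := io_vfl wT 1 hwT1 zero_le_one le_rfl
  obtain ⟨bq, iq⟩ := io_vfl qT (2 * C) hq1 zero_le_one le_rfl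
  have bB : Bdd (S := R) fun k ω => Bc k (p.π k ω) := (p.bdd_iff Bc).mpr hB
  have iB : p.map (io Bc) = io (S := R) fun k ω => Bc k (p.π k ω) := p.map_io Bc
  have ez : p.map (vd (fun i => QS.mk (z i)) 1) =
      io (S := R) (fun k ω => vfl (lev R 1 k) (fun i => TR.ev (p.tr (z i)) k ω)) := by
    rw [iz, ← p.qs_vd]
    rfl
  -- error term
  have tJ : Tendsto (fun k => 1 / ((J k : ℝ) + 1)) UF (𝓝 0) := tendsto_one_div_add_atTop_nhds_zero_nat.comp hJ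
  have uJ := UB_of_tendsto tJ
  have hn1 : ∀ k, (lev S 1 k : ℝ) ≤ (S.F k).n := by
    intro k
    have := lev_le S zero_le_one k
    rwa [one_mul] at this
  -- independence
  have hI : I (p.map (vd (fun i => QS.mk (z i)) 1)) (vd (fun i => QS.mk (wT i)) 1) (p.map (io Bc)) = 0 := by
    rw [I_zero_iff_h, ez, ← iw, iB]
    apply le_antisymm (h_anti le_sup_right)
    rw [← io_pair bw bB, h_io bz bB, h_io bz (bw.pair bB)]
    have u1 : UB (R.rt (fun k => Setoid.ker (fun ω => vfl (lev R 1 k) (fun i => TR.ev (p.tr (z i)) k ω)))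
      (fun k => Setoid.ker fun ω => Bc k (p.π k ω))) := UB_rt bz.toInf _
    have u2 : UB (R.rt (fun k => Setoid.ker (fun ω => vfl (lev R 1 k) (fun i => TR.ev (p.tr (z i)) k ω)))
      (fun k => Setoid.ker fun ω => (vfl (lev R 1 k) (fun i => TR.ev (wT i) k ω), Bc k (p.π k ω)))) := UB_rt bz.toInf _
    have e1 := ul_add u2 uJ
    rw [ul_eq tJ, add_zero] at e1
    rw [← e1]
    refine ul_mono u1 (u2.add uJ) ?_
    filter_upwards [hbad] with k hk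
    obtain ⟨_, h2, h3, _⟩ := hk
    have hn := (S.F k).pos
    have g1 := rt_ext p (fun k ω => vfl (lev R 1 k) (fun i => TR.ev (p.tr (z i)) k ω)) Bc k
    have g2 := rt_ext2 p (fun k ω => vfl (lev R 1 k) (fun i => TR.ev (p.tr (z i)) k ω))
      (fun k ω => vfl (lev R 1 k) (fun i => TR.ev (wT i) k ω)) Bc k
    have g3 : CH (R.F k).μ (fun ω => vfl (lev S 1 k) (fun i => TR.ev (z i) k (p.π k ω)))
          (fun ω => (X k ω, (Quotient.mk (S.F k).Z (p.π k ω), Bc k (p.π k ω)))) ≤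
        CH (R.F k).μ (fun ω => vfl (lev R 1 k) (fun i => TR.ev (p.tr (z i)) k ω))
          (fun ω => (vfl (lev R 1 k) (fun i => TR.ev (wT i) k ω),
            (Quotient.mk (S.F k).Z (p.π k ω), Bc k (p.π k ω)))) := by
      rw [hlev k]
      apply (st_E2 st_E1).2.1 _ _ _ _ _ _ _ _ (R.F k).nn
      intro ω ω' m1 m2 m3
      rw [Prod.mk.injEq] at m3 ⊢
      refine ⟨?_, m3.2⟩
      have m4 := h2 ω ω' m1 m2 m3.1 m3.2
      simp only [hwT]
      rw [m4]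
    rw [← hlev k] at h3
    have g4 : (lev R 1 k : ℝ) ≤ (S.F k).n := by rw [hlev k]; exact hn1 k
    have g5 : 1 / ((J k : ℝ) + 1) * (lev R 1 k : ℝ) ≤ 1 / ((J k : ℝ) + 1) * (S.F k).n :=
      mul_le_mul_of_nonneg_left g4 (by positivity)
    rw [← hlev k] at g3
    have g6 : R.rt (fun k => Setoid.ker (fun ω => vfl (lev R 1 k) (fun i => TR.ev (p.tr (z i)) k ω)))
        (fun k => Setoid.ker fun ω => Bc k (p.π k ω)) k * (S.F k).n ≤
        (R.rt (fun k => Setoid.ker (fun ω => vfl (lev R 1 k) (fun i => TR.ev (p.tr (z i)) k ω)))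
        (fun k => Setoid.ker fun ω => (vfl (lev R 1 k) (fun i => TR.ev (wT i) k ω), Bc k (p.π k ω))) k +
          1 / ((J k : ℝ) + 1)) * (S.F k).n := by
      rw [add_mul, g1, g2]
      refine h3.trans ?_
      exact add_le_add g3 g5
    exact le_of_mul_le_mul_right g6 hn
  have hU : IsUnit (QS.mk (wT a0)) := by
    have e1 : QS.mk (wT a0) = 1 := by
      rw [← map_one QS.mk, QS.mk_eq]
      refine ⟨fun _ _ => True, fun _ => 0, Typ_true, R.Sub_const le_rfl, ?_⟩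
      filter_upwards [hbad, ha0] with k hk hk2 ω _ _
      have h3 := hk.1 ω
      rw [hk2] at h3
      rw [hwT, h3]
      show |1 - 1| ≤ _
      rw [sub_self, abs_zero, zero_mul]
    rw [e1]
    exact isUnit_one
  have h5 := hQ (vd (fun i => QS.mk (wT i)) 1) (fun i => QS.mk (wT i)) a0 hI
    (fun i => (dg_le_vd (fun i => QS.mk (wT i)) 1 i).trans le_sup_right) hU
  have e5 : vd (fun i => p.qs (QS.mk (z i)) * QS.mk (wT a0) - p.qs (QS.mk (z a0)) * QS.mk (wT i)) 1 =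
      io (S := R) (fun k ω => vfl (lev R 1 k) (fun i => TR.ev (qT i) k ω)) := by
    rw [iq, hqT]
    congr 1
  rw [e5, iB, ← iw, sup_comm, ← io_pair bw bB, h_io bq (bw.pair bB)] at h5
  have u3 : UB (R.rt (fun k => Setoid.ker (fun ω => vfl (lev R 1 k) (fun i => TR.ev (qT i) k ω)))
      (fun k => Setoid.ker fun ω => (vfl (lev R 1 k) (fun i => TR.ev (wT i) k ω), Bc k (p.π k ω)))) := UB_rt bq.toInf _
  have tC : Tendsto (fun k => (N * Real.logb 2 (C + 3 + 1)) / (S.F k).n) UF (𝓝 0) := S.div_n_tendsto _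
  have tS := (tJ.add tC).const_add ((N : ℝ) - 1 - εQ)
  rw [add_zero, add_zero] at tS
  have h6 : ul (R.rt (fun k => Setoid.ker (fun ω => vfl (lev R 1 k) (fun i => TR.ev (qT i) k ω)))
      (fun k => Setoid.ker fun ω => (vfl (lev R 1 k) (fun i => TR.ev (wT i) k ω), Bc k (p.π k ω)))) ≤ N - 1 - εQ := by
    rw [← ul_eq tS]
    refine ul_mono u3 (UB_of_tendsto tS) ?_
    filter_upwards [hbad, ha0] with k hk hk2
    obtain ⟨h1, h2, h3, h4⟩ := hk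
    rw [hk2] at h1 h4
    have hn := (S.F k).pos
    have g2 := rt_ext2 p (fun k ω => vfl (lev R 1 k) (fun i => TR.ev (qT i) k ω))
      (fun k ω => vfl (lev R 1 k) (fun i => TR.ev (wT i) k ω)) Bc k
    have f1 : (fun ω => vfl (lev R 1 k) (fun i => TR.ev (qT i) k ω)) =
        fun ω => vfl (lev S 1 k) fun i => TR.ev (z i) k (p.π k ω) - w k ω i * TR.ev (z a0) k (p.π k ω) := by
      funext ω
      rw [hlev k]
      congr 1
      funext i
      rw [hqe, h1 ω]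
      ring
    have f2 : (fun ω => (vfl (lev R 1 k) (fun i => TR.ev (wT i) k ω),
        (Quotient.mk (S.F k).Z (p.π k ω), Bc k (p.π k ω)))) =
        fun ω => (vfl (lev S 1 k) (w k ω), (Quotient.mk (S.F k).Z (p.π k ω), Bc k (p.π k ω))) := by
      funext ω
      rw [hlev k]
      congr 1
      congr 1
      funext i
      exact hwT i k ω
    have h3' := h3
    rw [CH_inf (R.F k) _ (X k)] at h3'
    have g7 := e_quot (R.F k)
      (Setoid.ker fun ω => vfl (lev S 1 k) fun i => TR.ev (z i) k (p.π k ω) - w k ω i * TR.ev (z a0) k (p.π k ω))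
      (Setoid.ker fun ω => vfl (lev S 1 k) (fun i => TR.ev (z i) k (p.π k ω))) (Setoid.ker (X k))
      (Setoid.ker fun ω => vfl (lev S 1 k) (w k ω))
      (Setoid.ker fun ω => (Quotient.mk (S.F k).Z (p.π k ω), Bc k (p.π k ω)))
      (fun ω ω' m1 m2 m3 m4 => by
        show vfl _ (w k ω) = vfl _ (w k ω')
        rw [h2 ω ω' m1 m2 m3 m4])
      (e_floor (R.F k) (lev S 1 k) (fun ω i => TR.ev (z i) k (p.π k ω)) (w k) a0 hC (fun ω i => hz i k _) (hw k) _)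
      (C2 := 1 / ((J k : ℝ) + 1) * lev S 1 k) (by
        rw [← (R.F k).e_ker] at h3'
        exact h3')
    rw [← CH_inf, ← CH_inf] at g7
    beta_reduce at g2
    rw [f1, f2] at g2
    have g8 : 0 ≤ CH (R.F k).μ
        (fun ω => vfl (lev S 1 k) fun i => TR.ev (z i) k (p.π k ω) - w k ω i * TR.ev (z a0) k (p.π k ω))
        (fun ω => (X k ω, (Quotient.mk (S.F k).Z (p.π k ω), Bc k (p.π k ω)))) := e1_nonneg _ _ _ (R.F k).nn
    have g9 : ((N : ℝ) - 1 - εQ) * lev S 1 k ≤ (N - 1 - εQ) * (S.F k).n := by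
      have g10 : 0 ≤ (N : ℝ) - 1 - εQ := by
        by_contra hc
        push Not at hc
        have : ((N : ℝ) - 1 - εQ) * lev S 1 k ≤ 0 := mul_nonpos_of_nonpos_of_nonneg hc.le (Nat.cast_nonneg _)
        linarith
      exact mul_le_mul_of_nonneg_left (hn1 k) g10
    have g11 : 1 / ((J k : ℝ) + 1) * (lev S 1 k : ℝ) ≤ 1 / ((J k : ℝ) + 1) * (S.F k).n :=
      mul_le_mul_of_nonneg_left (hn1 k) (by positivity)
    have g12 : R.rt (fun k => Setoid.ker (fun ω => vfl (lev R 1 k) (fun i => TR.ev (qT i) k ω)))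
      (fun k => Setoid.ker fun ω => (vfl (lev R 1 k) (fun i => TR.ev (wT i) k ω), Bc k (p.π k ω))) k * (S.F k).n ≤
      ((N : ℝ) - 1 - εQ + (1 / ((J k : ℝ) + 1) + (N * Real.logb 2 (C + 3 + 1)) / (S.F k).n)) * (S.F k).n := by
      have g13 : ((N : ℝ) - 1 - εQ + (1 / ((J k : ℝ) + 1) + (N * Real.logb 2 (C + 3 + 1)) / (S.F k).n)) * (S.F k).n =
          (N - 1 - εQ) * (S.F k).n + (1 / ((J k : ℝ) + 1) * (S.F k).n + N * Real.logb 2 (C + 3 + 1)) := by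
        field_simp
      rw [g13]
      have g14 : R.rt (fun k => Setoid.ker (fun ω => vfl (lev R 1 k) (fun i => TR.ev (qT i) k ω)))
        (fun k => Setoid.ker fun ω => (vfl (lev R 1 k) (fun i => TR.ev (wT i) k ω), Bc k (p.π k ω))) k * (S.F k).n = _ := g2
      rw [g14]
      linarith
    exact le_of_mul_le_mul_right g12 hn
  rw [h5] at h6
  linarith

/-- **the second order condition of the finite spaces** -/
theorem quoF_ev {α : ℕ → Type} (Bc : ∀ k, (S.F k).Ω → α k) (hB : Bdd Bc) (z : Fin N → TR S) {C : ℝ} (hC : 0 ≤ C)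
    (hz : ∀ i k ω, |TR.ev (z i) k ω| ≤ C)
    (hQ : ∀ (R : Sp) (p : Pj R S) (X : R.L) (w : Fin N → QS R) (a : Fin N),
      I (p.map (vd (fun i => QS.mk (z i)) 1)) X (p.map (io Bc)) = 0 →
      (∀ i, dg (w i) 1 ≤ p.map (io Bc) ⊔ X) → IsUnit (w a) →
      Helper31.EC.h (vd (fun i => p.qs (QS.mk (z i)) * w a - p.qs (QS.mk (z a)) * w i) 1) (p.map (io Bc) ⊔ X) =
        N - 1)
    (εQ : ℝ) (hε : 0 < εQ) :
    ∃ ηQ : ℝ, 0 < ηQ ∧ ∀ᶠ k in UF, QuoF N (lev S 1 k) εQ ηQ (S.F k).μ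
      (fun ω => (Quotient.mk (S.F k).Z ω, Bc k ω)) (fun ω i => TR.ev (z i) k ω) := by
  classical
  by_contra hcon
  have hb : ∀ j : ℕ, ∀ᶠ k in UF, ¬ QuoF N (lev S 1 k) εQ (1 / ((j : ℝ) + 1)) (S.F k).μ
      (fun ω => (Quotient.mk (S.F k).Z ω, Bc k ω)) (fun ω i => TR.ev (z i) k ω) := by
    intro j
    exact UF_not fun h => hcon ⟨_, by positivity, h⟩
  obtain ⟨J, hJ, _, hJ2⟩ := diag_in_place (fun _ _ _ => 0) (fun _ j k => ¬ QuoF N (lev S 1 k) εQ (1 / ((j : ℝ) + 1))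
    (S.F k).μ (fun ω => (Quotient.mk (S.F k).Z ω, Bc k ω)) (fun ω i => TR.ev (z i) k ω)) (fun _ _ => UB_const 0)
    (fun _ j => hb j)
  have hJ3 := hJ2 0
  beta_reduce at hJ3
  obtain ⟨k0, hk0⟩ := (hb 0).exists
  obtain ⟨a0⟩ : Nonempty (Fin N) := by
    by_contra hc
    apply hk0
    intro _ _ _ _ _ _ _ _ _ a
    exact absurd ⟨a⟩ hc
  obtain ⟨D, -⟩ : ∃ D : ∀ k, FD N (lev S 1 k) εQ (1 / ((J k : ℝ) + 1)) (S.F k).μ
      (fun ω => (Quotient.mk (S.F k).Z ω, Bc k ω)) (fun ω i => TR.ev (z i) k ω), True :=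
    ⟨fun k => (exists_FD _ _ _ _ (S.F k).nn _ _ a0).some, trivial⟩
  refine quoF_core Bc hB z hC hz (ovlP S (fun k => (D k).Ω') (fun k => (D k).ft) (fun k => (D k).μ')
    (fun k => (D k).π) (fun k => (D k).nn) (fun k => (D k).law)) (hQ _ _) εQ hε J hJ (fun k => (D k).w)
    (fun k => (D k).χ) (fun k => (D k).X) (fun k => (D k).a) (fun k => (D k).hw) ?_
  filter_upwards [hJ3] with k hk
  exact (D k).bad hk

end

end Pool.Agent.Helper70.FW
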