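import Pool.Agent.Helper70.FW.Top
import Pool.Agent.Helper61.VW.Gen

/-! Theorem FW: cumulative deficits along most paths from the exact calculus. -/

set_option autoImplicit false

namespace Pool.Agent.Helper70.FW

open Finset Filter Topology Pool.Agent.Helper69.RK Pool.Agent.Helper31.EC
open Pool.Agent.Helper92.W Pool.Agent.Helper61.EC Pool.Agent.Helper46.WF

noncomputable section

open Sp QS

theorem srp_mono {Ω α β γ : Type} [Fintype Ω] (μ : Ω → ℝ) (h0 : ∀ ω, 0 ≤ μ ω) (f : Ω → α) (f' : Ω → β) (g : Ω → γ)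
    (ω : Ω) (hω : μ ω ≠ 0) (h : ∀ ω', f' ω' = f' ω → f ω' = f ω) : srp μ f g ω ≤ srp μ f' g ω := by
  unfold srp
  have p1 := e1_pr_pos μ (fun ω' => (f' ω', g ω')) h0 ω hω
  have q1 : pr μ (fun ω' => (f' ω', g ω')) ω ≤ pr μ (fun ω' => (f ω', g ω')) ω := by
    apply e1_pr_mono _ _ _ h0
    intro ω' _ hh
    rw [Prod.mk.injEq] at hh ⊢
    exact ⟨h ω' hh.1, hh.2⟩
  have r1 := Real.logb_le_logb_of_le (by norm_num : (1 : ℝ) < 2) p1 q1
  linarith

theorem srp_unit {Ω α γ : Type} [Fintype Ω] (μ : Ω → ℝ) (f : Ω → α) (g : Ω → γ) (ω : Ω) :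
    srp μ f (fun ω' => ((), g ω')) ω = srp μ f g ω := by
  have e1 : Helper69.RK.pr μ (fun ω' => ((), g ω')) ω = Helper69.RK.pr μ g ω := by
    unfold Helper69.RK.pr
    refine Finset.sum_congr rfl fun ω' _ => ?_
    by_cases h : g ω' = g ω
    · have h3 : (((), g ω') : Unit × γ) = ((), g ω) := by rw [h]
      rw [if_pos h, if_pos h3]
    · have h3 : ¬ ((((), g ω') : Unit × γ) = ((), g ω)) := fun hh => h (congrArg Prod.snd hh)
      rw [if_neg h, if_neg h3]
  have e2 : Helper69.RK.pr μ (fun ω' => (f ω', ((), g ω'))) ω = Helper69.RK.pr μ (fun ω' => (f ω', g ω')) ω := by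
    unfold Helper69.RK.pr
    refine Finset.sum_congr rfl fun ω' _ => ?_
    by_cases h : (f ω', g ω') = (f ω, g ω)
    · have h2 := h
      rw [Prod.mk.injEq] at h2
      have h3 : ((f ω', ((), g ω')) : α × (Unit × γ)) = (f ω, ((), g ω)) := by rw [h2.1, h2.2]
      rw [if_pos h, if_pos h3]
    · have h3 : ¬ (((f ω', ((), g ω')) : α × (Unit × γ)) = (f ω, ((), g ω))) := fun hh => h (by
        rw [Prod.mk.injEq, Prod.mk.injEq] at hh
        rw [hh.1, hh.2.2])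
      rw [if_neg h, if_neg h3]
  unfold srp
  rw [e1, e2]

variable {S : Sp} {N : ℕ}

/-- **cumulative deficits along most paths** -/
theorem uF_ev {α : ℕ → Type} (Bc : ∀ k, (S.F k).Ω → α k) (hB : Bdd Bc) (z : Fin N → TR S) {K : ℝ}
    (hz : ∀ i k ω, |TR.ev (z i) k ω| ≤ K) {C : ℝ} (hC : 0 ≤ C)
    (hU : ∀ (E : ∀ k, (S.F k).Ω → Prop) (hE : 0 < ul (S.pr E)) (r : ℝ), 0 ≤ r → r ≤ 1 →
      Helper31.EC.h (restL E hE (vd (fun i => QS.mk (z i)) r)) (restL E hE (io Bc)) ≤ C * r)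
    {η : ℝ} (hη : 0 < η) :
    ∀ᶠ k in UF, Pw (S.F k).μ (fun ω => ∃ m ≤ lev S 1 k, C * m + η * lev S 1 k <
      srp (S.F k).μ (fun ω' => vfl m fun i => TR.ev (z i) k ω') (fun ω' => (Quotient.mk (S.F k).Z ω', Bc k ω')) ω) ≤
      η := by
  classical
  by_contra hcon
  have h1 := UF_not hcon
  obtain ⟨M, hM8⟩ := exists_nat_ge (8 * (C + 1) / η)
  have hM0 : (0 : ℝ) < M := lt_of_lt_of_le (by positivity) hM8
  have hM1 : 1 ≤ M := by exact_mod_cast hM0
  have hM2 : C * (1 / (M : ℝ)) ≤ η / 4 := by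
    rw [div_le_iff₀ hη] at hM8
    rw [mul_one_div, div_le_iff₀ hM0]
    nlinarith
  set E : Fin (M + 1) → ∀ k, (S.F k).Ω → Prop := fun p k ω =>
    (C * ((p : ℕ) / (M : ℝ)) + η / 4) * (S.F k).n ≤
      srp (S.F k).μ (fun ω' => vfl (lev S ((p : ℕ) / (M : ℝ)) k) fun i => TR.ev (z i) k ω')
        (fun ω' => (Quotient.mk (S.F k).Z ω', Bc k ω')) ω with hE
  obtain ⟨p, hp⟩ := pos_of_cover E _ hη (h1.mono fun k hk => not_le.mp hk) (by
    filter_upwards [S.lim.eventually_ge_atTop 2] with k hn2 ω hω hbad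
    have hn := (S.F k).pos
    have hNle : (lev S 1 k : ℝ) ≤ (S.F k).n := by
      have := lev_le S zero_le_one k
      rwa [one_mul] at this
    have hNlt : (S.F k).n < lev S 1 k + 1 := by
      have := lt_lev S 1 k
      rwa [one_mul] at this
    obtain ⟨m, hm, hs⟩ := hbad
    have hmn : (m : ℝ) ≤ (S.F k).n := le_trans (by exact_mod_cast hm) hNle
    obtain ⟨j, hj⟩ : ∃ j, j = ⌈(m : ℝ) / (S.F k).n * M⌉₊ := ⟨_, rfl⟩
    have hjM : j ≤ M := by
      rw [hj]
      apply Nat.ceil_le.mpr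
      have : (m : ℝ) / (S.F k).n ≤ 1 := by
        rw [div_le_one hn]
        exact hmn
      calc (m : ℝ) / (S.F k).n * M ≤ 1 * M := mul_le_mul_of_nonneg_right this hM0.le
        _ = M := one_mul _
    have hj1 : (m : ℝ) / (S.F k).n * M ≤ j := by
      rw [hj]
      exact Nat.le_ceil _
    have hj2 : (j : ℝ) < (m : ℝ) / (S.F k).n * M + 1 := by
      rw [hj]
      exact Nat.ceil_lt_add_one (by positivity)
    refine ⟨⟨j, by omega⟩, ?_⟩
    show (C * ((j : ℕ) / (M : ℝ)) + η / 4) * (S.F k).n ≤ srp (S.F k).μ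
      (fun ω' => vfl (lev S ((j : ℕ) / (M : ℝ)) k) fun i => TR.ev (z i) k ω')
        (fun ω' => (Quotient.mk (S.F k).Z ω', Bc k ω')) ω
    have g0 : m ≤ lev S ((j : ℕ) / (M : ℝ)) k := by
      unfold lev
      apply Nat.le_floor
      have h3 : (m : ℝ) / (S.F k).n ≤ (j : ℝ) / M := by
        rw [le_div_iff₀ hM0]
        exact hj1
      have h4 := mul_le_mul_of_nonneg_right h3 hn.le
      rwa [div_mul_cancel₀ _ hn.ne'] at h4
    have g1 := srp_mono (S.F k).μ (S.F k).nn (fun ω' => vfl m fun i => TR.ev (z i) k ω')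
      (fun ω' => vfl (lev S ((j : ℕ) / (M : ℝ)) k) fun i => TR.ev (z i) k ω')
      (fun ω' => (Quotient.mk (S.F k).Z ω', Bc k ω')) ω hω (fun ω' hh => by
        funext i
        exact fl_eq_of g0 (congrFun hh i))
    refine le_trans ?_ g1
    refine le_trans ?_ hs.le
    have g2 : (j : ℝ) / M * (S.F k).n ≤ m + 1 / M * (S.F k).n := by
      have g3 : (j : ℝ) / M ≤ (m : ℝ) / (S.F k).n + 1 / M := by
        rw [div_le_iff₀ hM0, add_mul, one_div, inv_mul_cancel₀ hM0.ne']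
        exact hj2.le
      have g4 := mul_le_mul_of_nonneg_right g3 hn.le
      rw [add_mul, div_mul_cancel₀ _ hn.ne'] at g4
      exact g4
    have g4 : C * (1 / (M : ℝ)) * (S.F k).n ≤ η / 4 * (S.F k).n := mul_le_mul_of_nonneg_right hM2 hn.le
    have g5 : C * ((j : ℝ) / M * (S.F k).n) ≤ C * (m + 1 / M * (S.F k).n) := mul_le_mul_of_nonneg_left g2 hC
    have g7 : η * ((S.F k).n / 2) ≤ η * (lev S 1 k) := mul_le_mul_of_nonneg_left (by linarith) hη.le
    nlinarith)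
  have hpM : ((p : ℕ) : ℝ) ≤ M := by
    have := p.2
    have h2 : (p : ℕ) ≤ M := by omega
    exact_mod_cast h2
  have hr1 : ((p : ℕ) : ℝ) / M ≤ 1 := (div_le_one hM0).mpr hpM
  have hr0 : 0 ≤ ((p : ℕ) : ℝ) / M := by positivity
  have h2 := hU (E p) hp _ hr0 hr1
  obtain ⟨bz, iz⟩ := io_vfl z K hz hr0 hr1
  have bY : Bdd (S := S) (fun k (_ : (S.F k).Ω) => ()) := hB.comp (fun k _ => ())
  have h3 := h_event_ge bz bY hB (E p) hp (C * ((p : ℕ) / (M : ℝ)) + η / 4) (fun k ω _ hω => by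
    rw [srp_unit]
    exact hω)
  have h4 : io (fun k (_ : (S.F k).Ω) => ()) ⊔ io Bc = io Bc :=
    sup_eq_right.mpr (io_comp_le hB (fun k _ => ()))
  rw [h4, iz] at h3
  linarith

end

end Pool.Agent.Helper70.FW
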