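import Pool.Agent.Helper70.FW.Sgn
import Pool.Agent.Helper70.FW.Qfn
import Pool.Agent.Helper70.FW.Uev
import Pool.Agent.Helper70.FW.Edf

/-! Theorem FW: digital representatives of the functions of an edge. -/

set_option autoImplicit false

namespace Pool.Agent.Helper70.FW

open Finset Filter Topology Pool.Agent.Helper69.RK Pool.Agent.Helper31.EC Pool.Agent.Helper38.NS
open Pool.Agent.Helper92.W Pool.Agent.Helper61.EC Pool.Agent.Helper46.WF

noncomputable section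

open Sp QS

variable {S : Sp}

theorem NN.mul {x y : QS S} (hx : NN x) (hy : NN y) : NN (x * y) := by
  obtain ⟨g, rfl, hg⟩ := hx
  obtain ⟨g', rfl, hg'⟩ := hy
  refine ⟨g * g', map_mul _ _ _, ?_⟩
  filter_upwards [hg, hg'] with k h1 h2 ω hω
  rw [TR.ev_mul]
  exact mul_nonneg (h1 ω hω) (h2 ω hω)

/-- normalisation by a nonnegative scalar -/
theorem norm_pos {ι : Type} [Fintype ι] (f : ι → QS S) :
    ∃ u v : TR S, (∀ r ≤ 1, QS.dg (QS.mk u) r = ⊥) ∧ (∀ r ≤ 1, QS.dg (QS.mk v) r = ⊥) ∧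
      QS.mk v * QS.mk u = 1 ∧ (∀ k ω, |TR.ev u k ω| ≤ 1 / 4) ∧ NN (QS.mk u) ∧
      ∃ g : ι → TR S, (∀ i k ω, |TR.ev (g i) k ω| ≤ 1 / 4) ∧ ∀ i, QS.mk (g i) = QS.mk u * f i := by
  classical
  have h1 : ∀ i, ∃ K : ℕ → ℝ, S.Sub K ∧ ∀ᶠ k in UF, ∀ ω, (S.F k).μ ω ≠ 0 → |TR.ev (QS.rep (f i)) k ω| ≤ K k :=
    fun i => (QS.rep (f i)).2
  choose K hK hK' using h1
  set L : ℕ → ℝ := fun k => ∑ i, |K i k| with hL
  have hLS : S.Sub L := by
    have h2 : ∀ s : Finset ι, S.Sub (fun k => ∑ i ∈ s, |K i k|) := by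
      intro s
      induction s using Finset.induction_on with
      | empty => simpa using S.Sub_const (le_refl (0 : ℝ))
      | insert a s ha ih =>
        have h3 : (fun k => ∑ i ∈ insert a s, |K i k|) = fun k => |K a k| + ∑ i ∈ s, |K i k| := by
          funext k; rw [Finset.sum_insert ha]
        rw [h3]
        refine Sub.add ?_ ih
        refine (hK a).mono (Eventually.of_forall fun k => abs_nonneg _) ?_
        filter_upwards [(hK a).1] with k hk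
        rw [abs_of_nonneg hk]
    exact h2 Finset.univ
  have hL0 : ∀ k, 0 ≤ L k := fun k => Finset.sum_nonneg fun i _ => abs_nonneg _
  have hu0 : ∀ k, 0 ≤ 1 / (4 * (L k + 1)) := fun k => by
    have := hL0 k
    positivity
  have hu : ∀ k, |1 / (4 * (L k + 1))| ≤ 1 / 4 := by
    intro k
    have := hL0 k
    rw [abs_of_nonneg (hu0 k)]
    apply one_div_le_one_div_of_le (by norm_num)
    linarith
  set u : TR S := cst S (fun k => 1 / (4 * (L k + 1)))
    ⟨fun _ => 1 / 4, S.Sub_const (by norm_num), Eventually.of_forall hu⟩ with hud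
  set v : TR S := cst S (fun k => 4 * (L k + 1))
    ⟨fun k => 4 * (L k + 1), (S.Sub_const (by norm_num : (0 : ℝ) ≤ 4)).mul (hLS.add (S.Sub_const zero_le_one)),
      Eventually.of_forall fun k => by
        have := hL0 k
        rw [abs_of_nonneg (by positivity)]⟩ with hvd
  refine ⟨u, v, fun r hr => cst_dg _ _ hr, fun r hr => cst_dg _ _ hr, ?_, fun k ω => hu k, ?_, ?_⟩
  · rw [← map_mul, ← map_one QS.mk]
    congr 1
    apply Subtype.ext
    funext k ω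
    show 4 * (L k + 1) * (1 / (4 * (L k + 1))) = 1
    have := hL0 k
    field_simp
  · exact ⟨u, rfl, Eventually.of_forall fun k ω _ => hu0 k⟩
  · refine ⟨fun i => ⟨fun k ω => max (-(1 / 4)) (min (1 / 4) (1 / (4 * (L k + 1)) * TR.ev (QS.rep (f i)) k ω)),
      ⟨fun _ => 1 / 4, S.Sub_const (by norm_num), Eventually.of_forall fun k ω _ => ?_⟩⟩, fun i k ω => ?_, fun i => ?_⟩
    · rw [abs_le]
      exact ⟨le_max_left _ _, max_le (by norm_num) (min_le_left _ _)⟩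
    · show |max (-(1 / 4)) (min (1 / 4) (1 / (4 * (L k + 1)) * TR.ev (QS.rep (f i)) k ω))| ≤ 1 / 4
      rw [abs_le]
      exact ⟨le_max_left _ _, max_le (by norm_num) (min_le_left _ _)⟩
    · have h2 : QS.mk u * f i = QS.mk (u * QS.rep (f i)) := by rw [map_mul, QS.mk_rep]
      rw [h2, QS.mk_eq]
      apply TR.Te.ag
      refine ⟨fun _ _ => True, Typ_true, ?_⟩
      filter_upwards [hK' i] with k hk ω hω _
      have h3 : |1 / (4 * (L k + 1)) * TR.ev (QS.rep (f i)) k ω| ≤ 1 / 4 := by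
        have h4 := hL0 k
        rw [abs_mul, abs_of_nonneg (hu0 k)]
        have h5 : |TR.ev (QS.rep (f i)) k ω| ≤ L k := by
          refine (hk ω hω).trans ((le_abs_self _).trans ?_)
          exact Finset.single_le_sum (f := fun i => |K i k|) (fun i _ => abs_nonneg _) (Finset.mem_univ i)
        calc 1 / (4 * (L k + 1)) * |TR.ev (QS.rep (f i)) k ω| ≤ 1 / (4 * (L k + 1)) * (L k + 1) :=
              mul_le_mul_of_nonneg_left (by linarith) (hu0 k)
          _ = 1 / 4 := by field_simp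
      rw [abs_le] at h3
      show max (-(1 / 4)) (min (1 / 4) (1 / (4 * (L k + 1)) * TR.ev (QS.rep (f i)) k ω)) =
        1 / (4 * (L k + 1)) * TR.ev (QS.rep (f i)) k ω
      rw [min_eq_right h3.2, max_eq_right h3.1]

/-- digital functions -/
def DG (d : TR S) : Prop := (∀ k ω, |TR.ev d k ω| ≤ 1) ∧ ∀ k ω, TR.ev d k ω = rd (lev S 1 k) (TR.ev d k ω)

theorem rd_rd (N : ℕ) (x : ℝ) : rd N (rd N x) = rd N x := by
  show ((fl N (rd N x) : ℤ) : ℝ) / 2 ^ N = ((fl N x : ℤ) : ℝ) / 2 ^ N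
  rw [fl_rd]

theorem exists_dig (g : TR S) (hg : ∀ k ω, |TR.ev g k ω| ≤ 1 / 4) : ∃ d : TR S, QS.mk d = QS.mk g ∧ DG d := by
  have h1 : ∀ k ω, |TR.ev g k ω| ≤ 1 := fun k ω => (hg k ω).trans (by norm_num)
  refine ⟨rdT g h1, mk_rdT g h1, fun k ω => ?_, fun k ω => ?_⟩
  · rw [rdT_ev]
    exact rd_le_one _ (h1 k ω)
  · rw [rdT_ev, rd_rd]

theorem rd_nonneg (N : ℕ) {x : ℝ} (hx : 0 ≤ x) : 0 ≤ rd N x := by
  unfold rd
  have h1 : (0 : ℤ) ≤ fl N x := Int.floor_nonneg.mpr (by positivity)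
  have h2 : (0 : ℝ) ≤ ((fl N x : ℤ) : ℝ) := by exact_mod_cast h1
  positivity

theorem rd_le_self (N : ℕ) (x : ℝ) : rd N x ≤ x := by
  unfold rd
  rw [div_le_iff₀ (by positivity)]
  have := Int.floor_le ((2 : ℝ) ^ N * x)
  unfold fl
  linarith

theorem exists_dig0 (g : TR S) (hg : ∀ k ω, |TR.ev g k ω| ≤ 1 / 4) (hn : NN (QS.mk g)) :
    ∃ d : TR S, QS.mk d = QS.mk g ∧ DG d ∧ ∀ k ω, 0 ≤ TR.ev d k ω ∧ TR.ev d k ω < 1 := by
  obtain ⟨g0, e0, h0⟩ := hn
  obtain ⟨g1, hg1⟩ : ∃ g1 : TR S, ∀ k ω, TR.ev g1 k ω = max 0 (TR.ev g k ω) :=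
    ⟨⟨fun k ω => max 0 (TR.ev g k ω), ⟨fun _ => 1 / 4, S.Sub_const (by norm_num), Eventually.of_forall fun k ω _ => by
      rw [abs_of_nonneg (le_max_left _ _)]
      exact max_le (by norm_num) ((le_abs_self _).trans (hg k ω))⟩⟩, fun _ _ => rfl⟩
  have hg1b : ∀ k ω, 0 ≤ TR.ev g1 k ω ∧ TR.ev g1 k ω ≤ 1 / 4 := by
    intro k ω
    rw [hg1]
    exact ⟨le_max_left _ _, max_le (by norm_num) ((le_abs_self _).trans (hg k ω))⟩
  have e1 : QS.mk g1 = QS.mk g := by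
    rw [QS.mk_eq] at e0 ⊢
    obtain ⟨E, K, hE, hK, hh⟩ := e0
    refine ⟨E, K, hE, hK, ?_⟩
    filter_upwards [hh, h0] with k a1 a2 ω hω hEω
    have b1 := a1 ω hω hEω
    have b2 := a2 ω hω
    rw [hg1]
    rcases le_total 0 (TR.ev g k ω) with h | h
    · rw [max_eq_right h, sub_self, abs_zero]
      exact (abs_nonneg _).trans b1
    · rw [max_eq_left h]
      rw [abs_le] at b1 ⊢
      constructor <;> linarith [b1.1, b1.2]
  obtain ⟨d, hd, hd1⟩ := exists_dig g1 (fun k ω => by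
    rw [abs_of_nonneg (hg1b k ω).1]
    exact (hg1b k ω).2)
  have h2 : ∀ k ω, |TR.ev g1 k ω| ≤ 1 := fun k ω => by
    rw [abs_of_nonneg (hg1b k ω).1]
    exact (hg1b k ω).2.trans (by norm_num)
  refine ⟨rdT g1 h2, (mk_rdT g1 h2).trans e1, ⟨fun k ω => ?_, fun k ω => ?_⟩, fun k ω => ?_⟩
  · rw [rdT_ev]
    exact rd_le_one _ (h2 k ω)
  · rw [rdT_ev, rd_rd]
  · rw [rdT_ev]
    refine ⟨rd_nonneg _ (hg1b k ω).1, ?_⟩
    have := rd_le_self (lev S 1 k) (TR.ev g1 k ω)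
    linarith [(hg1b k ω).2]

/-- the label of one side -/
theorem io_side {N : ℕ} {t : TR S} {a : Fin N → TR S} (ht : DG t) (ha : ∀ i, DG (a i)) :
    Bdd (fun k ω => (TR.ev t k ω, fun i => TR.ev (a i) k ω)) ∧
      io (fun k ω => (TR.ev t k ω, fun i => TR.ev (a i) k ω)) = dg (QS.mk t) 1 ⊔ vd (fun i => QS.mk (a i)) 1 := by
  have b1 := bdd_fl S (TR.ev t) 1 ht.1 1
  have i1 := io_fl S t 1 ht.1 zero_le_one le_rfl
  obtain ⟨b2, i2⟩ := io_vfl a 1 (fun i => (ha i).1) zero_le_one le_rfl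
  have bp := b1.pair b2
  have f1 : ∀ k, ∀ ω ω', (fl (lev S 1 k) (TR.ev t k ω), vfl (lev S 1 k) fun i => TR.ev (a i) k ω) =
      (fl (lev S 1 k) (TR.ev t k ω'), vfl (lev S 1 k) fun i => TR.ev (a i) k ω') →
      (TR.ev t k ω, fun i => TR.ev (a i) k ω) = (TR.ev t k ω', fun i => TR.ev (a i) k ω') := by
    intro k ω ω' hh
    rw [Prod.mk.injEq] at hh ⊢
    constructor
    · rw [ht.2 k ω, ht.2 k ω']
      unfold rd
      rw [hh.1]
    · funext i
      rw [(ha i).2 k ω, (ha i).2 k ω']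
      unfold rd
      have h3 : fl (lev S 1 k) (TR.ev (a i) k ω) = fl (lev S 1 k) (TR.ev (a i) k ω') := congrFun hh.2 i
      rw [h3]
  have bX : Bdd (fun k ω => (TR.ev t k ω, fun i => TR.ev (a i) k ω)) :=
    bp.of_fun (Eventually.of_forall fun k ω ω' _ _ _ hh => f1 k ω ω' hh)
  refine ⟨bX, ?_⟩
  rw [← i1, ← i2, ← io_pair b1 b2]
  apply le_antisymm
  · exact io_le_of_fun bp (Eventually.of_forall fun k ω ω' _ _ _ hh => f1 k ω ω' hh)
  · refine io_le_of_fun bX (Eventually.of_forall fun k ω ω' _ _ _ hh => ?_)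
    rw [Prod.mk.injEq] at hh ⊢
    refine ⟨by rw [hh.1], ?_⟩
    funext i
    show fl _ (TR.ev (a i) k ω) = fl _ (TR.ev (a i) k ω')
    rw [congrFun hh.2 i]

/-- scalars with trivial digits -/
structure Scl (s v : QS S) : Prop where
  ds : ∀ r ≤ 1, dg s r = ⊥
  dv : ∀ r ≤ 1, dg v r = ⊥
  vs : v * s = 1

theorem Scl.dg {s v : QS S} (h : Scl s v) (x : QS S) {r : ℝ} (hr : r ≤ 1) : QS.dg (s * x) r = QS.dg x r :=
  dg_scalar h.ds h.dv h.vs x hr

theorem Scl.vd {ν : Type} [Fintype ν] {s v : QS S} (h : Scl s v) (x : ν → QS S) {r : ℝ} (hr : r ≤ 1) :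
    QS.vd (fun i => s * x i) r = QS.vd x r := by
  unfold QS.vd
  congr 1
  funext i
  exact h.dg (x i) hr

theorem Scl.pull {s v : QS S} (h : Scl s v) {R : Sp} (p : Pj R S) : Scl (p.qs s) (p.qs v) where
  ds := fun r hr => by rw [p.qs_dg, h.ds r hr, p.map_bot]
  dv := fun r hr => by rw [p.qs_dg, h.dv r hr, p.map_bot]
  vs := by rw [← map_mul, h.vs, map_one]

theorem Scl.mul {s v s' v' : QS S} (h : Scl s v) (h' : Scl s' v') : Scl (s * s') (v * v') where
  ds := fun r hr => by rw [h.dg s' hr, h'.ds r hr]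
  dv := fun r hr => by
    have h1 : Scl v s := ⟨h.dv, h.ds, by rw [mul_comm]; exact h.vs⟩
    rw [h1.dg v' hr, h'.dv r hr]
  vs := by
    have : v * v' * (s * s') = (v * s) * (v' * s') := by ring
    rw [this, h.vs, h'.vs, one_mul]

end

end Pool.Agent.Helper70.FW
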