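import Pool.Agent.Helper70.FW.Dig

/-! Theorem FW: edges of the exact calculus give finite digital edges along the ultrafilter. -/

set_option autoImplicit false

namespace Pool.Agent.Helper70.FW

open Finset Filter Topology Pool.Agent.Helper69.RK Pool.Agent.Helper31.EC Pool.Agent.Helper38.NS
open Pool.Agent.Helper92.W Pool.Agent.Helper61.EC Pool.Agent.Helper46.WF

noncomputable section

open Sp QS

variable {S : Sp} {N : ℕ} {ι : Type} [Fintype ι] {z z3 A C : Fin N → QS S} {T T' c : QS S} {f : ι → QS S} {ρ : ℝ}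

/-- digital data of an edge -/
structure DD (S : Sp) {N : ℕ} {ι : Type} [Fintype ι] (c : QS S) (f : ι → QS S) (z z3 : Fin N → QS S) (T T' : QS S)
    (A C : Fin N → QS S) where
  α : ℕ → Type
  Bc : ∀ k, (S.F k).Ω → α k
  c0 : ℝ
  u : QS S
  v : QS S
  t : TR S
  t' : TR S
  a : Fin N → TR S
  cc : Fin N → TR S
  zz : Fin N → TR S
  z3T : Fin N → TR S
  bB : Bdd Bc
  iB : io Bc = vd f 1
  hc : c0 = 1 ∨ c0 = -1
  hs : Scl u v
  mt : QS.mk t = u * T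
  mt' : QS.mk t' = u * T'
  ma : ∀ i, QS.mk (a i) = u * A i
  mcc : ∀ i, QS.mk (cc i) = u * C i
  mzz : ∀ i, QS.mk (zz i) = u * u * z i
  m3 : ∀ i, QS.mk (z3T i) = u * u * z3 i
  gt : DG t
  gt' : DG t'
  ga : ∀ i, DG (a i)
  gcc : ∀ i, DG (cc i)
  gzz : ∀ i, DG (zz i)
  pt : ∀ k ω, 0 ≤ TR.ev t k ω ∧ TR.ev t k ω < 1
  pt' : ∀ k ω, 0 ≤ TR.ev t' k ω ∧ TR.ev t' k ω < 1
  e3 : ∀ i k ω, TR.ev (z3T i) k ω =
    TR.ev (zz i) k ω + c0 * (TR.ev t k ω * TR.ev (cc i) k ω - TR.ev (a i) k ω * TR.ev t' k ω)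

theorem exists_DD (hb : Blk S c f z z3 T T' A C) (nT : NN T) (nT' : NN T') :
    Nonempty (DD S c f z z3 T T' A C) := by
  classical
  obtain ⟨α, Bc, bB, iB⟩ := exists_io (S := S) (vd f 1)
  obtain ⟨u, v, du, dv, vu, u4, nu, g, g4, gm⟩ := norm_pos
    (Sum.elim z (Sum.elim (fun _ : Unit => T) (Sum.elim (fun _ : Unit => T') (Sum.elim A C))))
  have mz : ∀ i, QS.mk (g (Sum.inl i)) = QS.mk u * z i := fun i => gm (Sum.inl i)
  have mT : QS.mk (g (Sum.inr (Sum.inl ()))) = QS.mk u * T := gm (Sum.inr (Sum.inl ()))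
  have mT' : QS.mk (g (Sum.inr (Sum.inr (Sum.inl ())))) = QS.mk u * T' := gm (Sum.inr (Sum.inr (Sum.inl ())))
  have mA : ∀ i, QS.mk (g (Sum.inr (Sum.inr (Sum.inr (Sum.inl i))))) = QS.mk u * A i :=
    fun i => gm (Sum.inr (Sum.inr (Sum.inr (Sum.inl i))))
  have mC : ∀ i, QS.mk (g (Sum.inr (Sum.inr (Sum.inr (Sum.inr i))))) = QS.mk u * C i :=
    fun i => gm (Sum.inr (Sum.inr (Sum.inr (Sum.inr i))))
  obtain ⟨t, t1, t2, t3⟩ := exists_dig0 (g (Sum.inr (Sum.inl ()))) (g4 _) (by rw [mT]; exact nu.mul nT)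
  obtain ⟨t', t1', t2', t3'⟩ := exists_dig0 (g (Sum.inr (Sum.inr (Sum.inl ())))) (g4 _) (by rw [mT']; exact nu.mul nT')
  have hA : ∀ i, ∃ d : TR S, QS.mk d = QS.mk u * A i ∧ DG d := fun i => by
    obtain ⟨d, h1, h2⟩ := exists_dig (g (Sum.inr (Sum.inr (Sum.inr (Sum.inl i))))) (g4 _)
    exact ⟨d, h1.trans (mA i), h2⟩
  have hC : ∀ i, ∃ d : TR S, QS.mk d = QS.mk u * C i ∧ DG d := fun i => by
    obtain ⟨d, h1, h2⟩ := exists_dig (g (Sum.inr (Sum.inr (Sum.inr (Sum.inr i))))) (g4 _)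
    exact ⟨d, h1.trans (mC i), h2⟩
  have hz : ∀ i, ∃ d : TR S, QS.mk d = QS.mk u * QS.mk u * z i ∧ DG d := fun i => by
    obtain ⟨d, h1, h2⟩ := exists_dig (u * g (Sum.inl i)) (fun k ω => by
      rw [TR.ev_mul, abs_mul]
      calc |TR.ev u k ω| * |TR.ev (g (Sum.inl i)) k ω| ≤ 1 / 4 * (1 / 4) :=
            mul_le_mul (u4 k ω) (g4 _ k ω) (abs_nonneg _) (by norm_num)
        _ ≤ 1 / 4 := by norm_num)
    refine ⟨d, h1.trans ?_, h2⟩
    rw [map_mul, mz, mul_assoc]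
  choose a a1 a2 using hA
  choose cc c1 c2 using hC
  choose zz z1 z2 using hz
  obtain ⟨c0, cT, hc0, hcT, hce⟩ : ∃ (c0 : ℝ) (cT : TR S), (c0 = 1 ∨ c0 = -1) ∧ QS.mk cT = c ∧
      ∀ k ω, TR.ev cT k ω = c0 := by
    rcases hb.hc with h | h
    · refine ⟨1, 1, Or.inl rfl, ?_, fun _ _ => rfl⟩
      rw [map_one, h]
    · refine ⟨-1, -1, Or.inr rfl, ?_, fun _ _ => rfl⟩
      rw [map_neg, map_one, h]
  refine ⟨⟨α, Bc, c0, QS.mk u, QS.mk v, t, t', a, cc, zz, fun i => zz i + cT * (t * cc i - a i * t'), bB, iB, hc0,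
    ⟨du, dv, vu⟩, t1.trans mT, t1'.trans mT', a1, c1, z1, fun i => ?_, t2, t2', a2, c2, z2, t3, t3', fun i k ω => ?_⟩⟩
  · rw [map_add, map_mul, map_sub, map_mul, map_mul, z1, c1, a1, t1, t1', mT, mT', hcT, hb.e i]
    ring
  · rw [TR.ev_add, TR.ev_mul, TR.ev_sub, TR.ev_mul, TR.ev_mul, hce]

namespace DD

variable (d : DD S c f z z3 T T' A C)

theorem scl : Scl (d.u * d.u) (d.v * d.v) := d.hs.mul d.hs

theorem z3b (i : Fin N) (k : ℕ) (ω : (S.F k).Ω) : |TR.ev (d.z3T i) k ω| ≤ 3 := by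
  rw [d.e3]
  have h1 := (d.gzz i).1 k ω
  have h2 : |TR.ev d.t k ω * TR.ev (d.cc i) k ω| ≤ 1 := by
    rw [abs_mul]
    exact mul_le_one₀ (d.gt.1 k ω) (abs_nonneg _) ((d.gcc i).1 k ω)
  have h3 : |TR.ev (d.a i) k ω * TR.ev d.t' k ω| ≤ 1 := by
    rw [abs_mul]
    exact mul_le_one₀ ((d.ga i).1 k ω) (abs_nonneg _) (d.gt'.1 k ω)
  rw [abs_le] at h1 h2 h3 ⊢
  rcases d.hc with h | h
  · rw [h]
    constructor <;> linarith [h1.1, h1.2, h2.1, h2.2, h3.1, h3.2]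
  · rw [h]
    constructor <;> linarith [h1.1, h1.2, h2.1, h2.2, h3.1, h3.2]

theorem vt : dg (QS.mk d.t) 1 = dg T 1 := by rw [d.mt]; exact d.hs.dg T le_rfl

theorem vt' : dg (QS.mk d.t') 1 = dg T' 1 := by rw [d.mt']; exact d.hs.dg T' le_rfl

theorem va : vd (fun i => QS.mk (d.a i)) 1 = vd A 1 := by
  simp only [d.ma]
  exact d.hs.vd A le_rfl

theorem vc : vd (fun i => QS.mk (d.cc i)) 1 = vd C 1 := by
  simp only [d.mcc]
  exact d.hs.vd C le_rfl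

theorem vz {r : ℝ} (hr : r ≤ 1) : vd (fun i => QS.mk (d.zz i)) r = vd z r := by
  simp only [d.mzz]
  exact d.scl.vd z hr

theorem v3 {r : ℝ} (hr : r ≤ 1) : vd (fun i => QS.mk (d.z3T i)) r = vd z3 r := by
  simp only [d.m3]
  exact d.scl.vd z3 hr

end DD

/-- scaled quotients -/
theorem quo_scl {zs x : Fin N → QS S} {s v : QS S} (hs : Scl s v) (hx : ∀ i, zs i = s * x i) {R : Sp} (p : Pj R S)
    (w : Fin N → QS R) (a : Fin N) :
    vd (fun i => p.qs (zs i) * w a - p.qs (zs a) * w i) 1 = vd (fun i => p.qs (x i) * w a - p.qs (x a) * w i) 1 := by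
  have h1 : (fun i => p.qs (zs i) * w a - p.qs (zs a) * w i) =
      fun i => p.qs s * (p.qs (x i) * w a - p.qs (x a) * w i) := by
    funext i
    rw [hx, hx, map_mul, map_mul]
    ring
  rw [h1]
  exact (hs.pull p).vd _ le_rfl

/-- from the depth of the space to the integer depth -/
theorem to_lev {k : ℕ} (hn2 : 2 ≤ (S.F k).n) {η : ℝ} (hη : 0 ≤ η) : η / 2 * (S.F k).n ≤ η * lev S 1 k := by
  have hNlt : (S.F k).n < lev S 1 k + 1 := by
    have := lt_lev S 1 k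
    rwa [one_mul] at this
  have h3 : (S.F k).n / 2 ≤ lev S 1 k := by linarith
  have h4 := mul_le_mul_of_nonneg_left h3 hη
  linarith

theorem to_lev_full {k : ℕ} {η t : ℝ} (hη : 0 ≤ η) (ht0 : 0 ≤ t) (ht : (1 - η / 2) * (S.F k).n ≤ t) :
    (1 - η) * lev S 1 k ≤ t := by
  have hn := (S.F k).pos
  have hNle : (lev S 1 k : ℝ) ≤ (S.F k).n := by
    have := lev_le S zero_le_one k
    rwa [one_mul] at this
  rcases le_total 0 (1 - η) with h3 | h3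
  · have h4 := mul_le_mul_of_nonneg_left hNle h3
    have h5 : (1 - η) * (S.F k).n ≤ (1 - η / 2) * (S.F k).n := mul_le_mul_of_nonneg_right (by linarith) hn.le
    linarith
  · have h4 : (1 - η) * lev S 1 k ≤ 0 := mul_nonpos_of_nonpos_of_nonneg h3 (Nat.cast_nonneg _)
    linarith

/-- **edges of the exact calculus are finite digital edges along the ultrafilter** -/
theorem edg_ev (hb : Blk S c f z z3 T T' A C) (hu : UQ S z (vd f 1) ρ) (hN : 0 ≤ (N : ℝ) - ρ)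
    (d : DD S c f z z3 T T' A C) {εQ : ℝ} (hε : 0 < εQ) :
    ∃ ηQ : ℝ, 0 < ηQ ∧ ∀ η : ℝ, 0 < η → ∀ᶠ k in UF, Edg N (lev S 1 k) ρ η εQ ηQ d.c0 (S.F k).μ
      (fun ω => (Quotient.mk (S.F k).Z ω, d.Bc k ω)) (fun ω => TR.ev d.t k ω) (fun ω => TR.ev d.t' k ω)
      (fun ω i => TR.ev (d.a i) k ω) (fun ω i => TR.ev (d.cc i) k ω) (fun ω i => TR.ev (d.zz i) k ω) := by
  classical
  have hcard : (Fintype.card (Fin N) : ℝ) = N := by rw [Fintype.card_fin]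
  have hzb : ∀ i k ω, |TR.ev (d.zz i) k ω| ≤ 1 := fun i => (d.gzz i).1
  -- second order conditions
  obtain ⟨q1, hq1, Q1⟩ := quoF_ev d.Bc d.bB d.zz zero_le_one hzb (by
    intro R p X w a h1 h2 h3
    rw [d.vz le_rfl, d.iB] at h1
    rw [d.iB] at h2 ⊢
    have h4 := hu.Q R p X w a 1 zero_le_one le_rfl h1 h2 h3
    rw [mul_one, hcard] at h4
    rw [quo_scl d.scl (fun i => d.mzz i) p w a]
    exact h4) εQ hε
  obtain ⟨q2, hq2, Q2⟩ := quoF_ev d.Bc d.bB d.z3T (by norm_num : (0 : ℝ) ≤ 3) d.z3b (by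
    intro R p X w a h1 h2 h3
    rw [d.v3 le_rfl, d.iB] at h1
    rw [d.iB] at h2 ⊢
    have h4 := Q_move hu hb R p X w a h1 h2 h3
    rw [hcard] at h4
    rw [quo_scl d.scl (fun i => d.m3 i) p w a]
    exact h4) εQ hε
  refine ⟨min q1 q2, lt_min hq1 hq2, ?_⟩
  intro η hη
  -- deficits
  have U1 := uF_ev d.Bc d.bB d.zz hzb hN (by
    intro E hE r h0 h1
    rw [d.vz h1, d.iB]
    have h2 := hu.U S (Pj.id S) E hE r h0 h1
    rw [Pj.id_map, Pj.id_map, hcard] at h2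
    exact h2) hη
  have U2 := uF_ev d.Bc d.bB d.z3T d.z3b hN (by
    intro E hE r h0 h1
    rw [d.v3 h1, d.iB]
    have h2 := U_move hu hb E hE r h0 h1
    rw [hcard] at h2
    exact h2) hη
  -- labels
  obtain ⟨bP, iP⟩ := io_side d.gt d.ga
  obtain ⟨bP', iP'⟩ := io_side d.gt' d.gcc
  rw [d.vt, d.va] at iP
  rw [d.vt', d.vc] at iP'
  obtain ⟨bz, iz⟩ := io_vfl d.zz 1 hzb zero_le_one le_rfl
  obtain ⟨b3, i3⟩ := io_vfl d.z3T 3 d.z3b zero_le_one le_rfl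
  rw [d.vz le_rfl] at iz
  rw [d.v3 le_rfl] at i3
  have bt := bdd_fl S (TR.ev d.t) 1 d.gt.1 1
  have bt' := bdd_fl S (TR.ev d.t') 1 d.gt'.1 1
  have it := io_fl S d.t 1 d.gt.1 zero_le_one le_rfl
  have it' := io_fl S d.t' 1 d.gt'.1 zero_le_one le_rfl
  rw [d.vt] at it
  rw [d.vt'] at it'
  have h2 := half_pos hη
  have e1 := ev_indep S bz d.bB (bP.pair bP') (by rw [io_pair bP bP', iz, iP, iP', d.iB]; exact hb.i1) h2
  have e2 := ev_indep S b3 d.bB (bP.pair bP') (by rw [io_pair bP bP', i3, iP, iP', d.iB]; exact hb.i2) h2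
  have e3 := ev_indep S bP d.bB bP' (by rw [iP, iP', d.iB]; exact hb.i3) h2
  have e4 := ev_full S bt d.bB (by rw [it, d.iB]; exact hb.r1) h2
  have e5 := ev_full S bt' d.bB (by rw [it', d.iB]; exact hb.r2) h2
  filter_upwards [Q1, Q2, U1, U2, e1, e2, e3, e4, e5, S.lim.eventually_ge_atTop 2] with k k1 k2 k3 k4 k5 k6 k7 k8 k9 hn2
  have lab : ∀ {β : Type} (X : (S.F k).Ω → β), CH (S.F k).μ X (fun ω =>
      (((TR.ev d.t k ω, fun i => TR.ev (d.a i) k ω), (TR.ev d.t' k ω, fun i => TR.ev (d.cc i) k ω)),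
        (Quotient.mk (S.F k).Z ω, d.Bc k ω))) = CH (S.F k).μ X (fun ω =>
      ((TR.ev d.t k ω, fun i => TR.ev (d.a i) k ω), (TR.ev d.t' k ω, fun i => TR.ev (d.cc i) k ω),
        (Quotient.mk (S.F k).Z ω, d.Bc k ω))) := by
    intro β X
    apply e2_CH_congr
    · intro ω ω' _ _
      simp only [Prod.mk.injEq]
      tauto
    · intro ω ω' _ _
      simp only [Prod.mk.injEq]
      tauto
  have f3 : ∀ ω, (fun i => TR.ev (d.z3T i) k ω) = fun i => TR.ev (d.zz i) k ω +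
      d.c0 * (TR.ev d.t k ω * TR.ev (d.cc i) k ω - TR.ev (d.a i) k ω * TR.ev d.t' k ω) := fun ω => by
    funext i
    exact d.e3 i k ω
  have hη2 := to_lev (S := S) hn2 hη.le
  rw [lab] at k5 k6
  simp only [f3] at k6 k4
  refine ⟨(S.F k).nn, (S.F k).ms, d.hc, d.pt k, d.pt' k, fun ω i => (d.ga i).1 k ω, fun ω i => (d.gcc i).1 k ω,
    fun ω i => (d.gzz i).1 k ω, d.gt.2 k, d.gt'.2 k, fun ω i => (d.ga i).2 k ω, fun ω i => (d.gcc i).2 k ω,
    fun ω i => (d.gzz i).2 k ω, k5.trans (by linarith), k6.trans (by linarith), k7.trans (by linarith),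
    to_lev_full hη.le (e1_nonneg _ _ _ (S.F k).nn) k8, to_lev_full hη.le (e1_nonneg _ _ _ (S.F k).nn) k9, k3, k4,
    k1.mono (min_le_left _ _), ?_⟩
  have k2' := k2.mono (min_le_right q1 q2)
  simp only [d.e3] at k2'
  exact k2'

end

end Pool.Agent.Helper70.FW
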