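import Pool.Agent.Helper70.FW.Star
import Pool.Agent.Helper31.EC.Uns

/-! Theorem VW: tubes of the finite spaces as tubes of the exact calculus on an event. -/

set_option autoImplicit false

namespace Pool.Agent.Helper70.FW

open Finset Filter Topology Pool.Agent.Helper69.RK Pool.Agent.Helper31.EC Pool.Agent.Helper38.NS

noncomputable section

open Sp QS

variable {S : Sp}

/-- bounded functions of a random variable are known to it -/
theorem exists_fn {α : ℕ → Type} {W : ∀ k, (S.F k).Ω → α k} (hW : Bdd W) (a : ∀ k, (S.F k).Ω → ℝ)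
    (hf : ∀ᶠ k in UF, ∀ ω ω', (S.F k).μ ω ≠ 0 → (S.F k).μ ω' ≠ 0 → W k ω = W k ω' → a k ω = a k ω')
    {K : ℕ → ℝ} (hK : S.Sub K) (hb : ∀ᶠ k in UF, ∀ ω, (S.F k).μ ω ≠ 0 → |a k ω| ≤ K k) :
    ∃ x : TR S, (∀ k ω, TR.ev x k ω = a k ω) ∧ dg (QS.mk x) 1 ≤ io W := by
  refine ⟨⟨a, K, hK, hb⟩, fun _ _ => rfl, ?_⟩
  rw [dg_mk _ le_rfl, io_eq hW]
  apply TR.dg_le_cl _ _ _ (fun _ _ => True) Typ_true (fun _ => 0) (S.Sub_const le_rfl)
  filter_upwards [hf] with k hk ω ω' h1 h2 _ _ _ h3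
  have h4 : a k ω = a k ω' := hk ω ω' h1 h2 h3
  show |a k ω - a k ω'| ≤ _
  rw [h4, sub_self, abs_zero, zero_mul]

theorem rest_supp_ev {E : ∀ k, (S.F k).Ω → Prop} (hE : 0 < ul (S.pr E)) :
    ∀ᶠ k in UF, ∀ ω, ((S.rest E).F k).μ ω ≠ 0 → (S.F k).μ ω ≠ 0 ∧ E k ω := by
  have h0 := ul_tendsto (UB_pr E)
  filter_upwards [h0.eventually (lt_mem_nhds hE)] with k hk ω hω
  obtain ⟨h1, h2⟩ := (S.F k).rest_supp (E k) ω hω
  exact ⟨h1, h2 (ne_of_gt hk)⟩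

/-- **tubes of the finite spaces**: `W` is the star (or the node), `V` the cell of `T` -/
theorem tub_of_fin {ν : Type} [Fintype ν] {G : S.L} {α β : ℕ → Type} {W : ∀ k, (S.F k).Ω → α k}
    {V : ∀ k, (S.F k).Ω → β k} (hW : Bdd W) (hWG : io W ≤ G) (hV : Bdd V) {l κ : ℝ} {T : TR S}
    (hVT : io V ≤ dg (QS.mk T) l) {A : ν → TR S} {a o : ∀ k, (S.F k).Ω → ν → ℝ} {K : ℕ → ℝ} (hK : S.Sub K)
    {E : ∀ k, (S.F k).Ω → Prop} (hE : 0 < ul (S.pr E)) (hκ : κ ≤ 1)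
    (ha : ∀ᶠ k in UF, ∀ ω ω', (S.F k).μ ω ≠ 0 → (S.F k).μ ω' ≠ 0 → E k ω → E k ω' → W k ω = W k ω' →
      V k ω = V k ω' → a k ω = a k ω')
    (ho : ∀ᶠ k in UF, ∀ ω ω', (S.F k).μ ω ≠ 0 → (S.F k).μ ω' ≠ 0 → E k ω → E k ω' → W k ω = W k ω' →
      V k ω = V k ω' → o k ω = o k ω')
    (hg : ∀ᶠ k in UF, ∀ ω, (S.F k).μ ω ≠ 0 → E k ω → ∀ i, |a k ω i| ≤ K k ∧ |o k ω i| ≤ K k ∧
      |TR.ev (A i) k ω - a k ω i * TR.ev T k ω - o k ω i| ≤ K k * S.dl κ k) :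
    ∃ aQ oQ : ν → QS (S.rest E), TubG (S.rest E) (restL E hE G) (QS.rest E hE (QS.mk T))
      (fun i => QS.rest E hE (QS.mk (A i))) aQ oQ l κ := by
  have hs := rest_supp_ev hE
  have hW' : Bdd (S := S.rest E) W := rest_VB E hW
  have hV' : Bdd (S := S.rest E) V := rest_VB E hV
  have hWV' := hW'.pair hV'
  have hK' : (S.rest E).Sub K := hK
  have h1 : ∀ i, ∃ x : TR (S.rest E), (∀ k ω, TR.ev x k ω = a k ω i) ∧
      dg (QS.mk x) 1 ≤ io (S := S.rest E) (fun k ω => (W k ω, V k ω)) := by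
    intro i
    refine exists_fn hWV' (fun k ω => a k ω i) ?_ hK' ?_
    · filter_upwards [ha, hs] with k hk hk2 ω ω' m1 m2 hw
      rw [Prod.mk.injEq] at hw
      exact congrFun (hk ω ω' (hk2 ω m1).1 (hk2 ω' m2).1 (hk2 ω m1).2 (hk2 ω' m2).2 hw.1 hw.2) i
    · filter_upwards [hg, hs] with k hk hk2 ω m1
      exact (hk ω (hk2 ω m1).1 (hk2 ω m1).2 i).1
  have h2 : ∀ i, ∃ x : TR (S.rest E), (∀ k ω, TR.ev x k ω = o k ω i) ∧
      dg (QS.mk x) 1 ≤ io (S := S.rest E) (fun k ω => (W k ω, V k ω)) := by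
    intro i
    refine exists_fn hWV' (fun k ω => o k ω i) ?_ hK' ?_
    · filter_upwards [ho, hs] with k hk hk2 ω ω' m1 m2 hw
      rw [Prod.mk.injEq] at hw
      exact congrFun (hk ω ω' (hk2 ω m1).1 (hk2 ω' m2).1 (hk2 ω m1).2 (hk2 ω' m2).2 hw.1 hw.2) i
    · filter_upwards [hg, hs] with k hk hk2 ω m1
      exact (hk ω (hk2 ω m1).1 (hk2 ω m1).2 i).2.1
  choose x hx hx1 using h1
  choose y hy hy1 using h2
  have e1 : io (S := S.rest E) W = restL E hE (io W) := (restL_io E hE hW).symm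
  have e2 : io (S := S.rest E) V = restL E hE (io V) := (restL_io E hE hV).symm
  refine ⟨fun i => QS.mk (x i), fun i => QS.mk (y i), ?_, ?_, ?_⟩
  · rw [vd_le]
    intro i
    refine (hx1 i).trans ?_
    rw [io_pair hW' hV', e1, e2, QS.rest_dg]
    exact sup_le_sup (restL_mono E hE hWG) (restL_mono E hE hVT)
  · rw [vd_le]
    intro i
    refine (hy1 i).trans ?_
    rw [io_pair hW' hV', e1, e2, QS.rest_dg]
    exact sup_le_sup (restL_mono E hE hWG) (restL_mono E hE hVT)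
  · intro i
    have h3 : QS.rest E hE (QS.mk (A i)) - QS.mk (x i) * QS.rest E hE (QS.mk T) - QS.mk (y i) =
        QS.mk (TR.rest E (A i) - x i * TR.rest E T - y i) := by
      rw [QS.rest_mk, QS.rest_mk, map_sub, map_sub, map_mul]
    rw [h3, QS.mk_mem_Id hκ]
    refine ⟨fun _ _ => True, K, Typ_true, hK', ?_⟩
    filter_upwards [hg, hs] with k hk hk2 ω m1 _
    have h4 := (hk ω (hk2 ω m1).1 (hk2 ω m1).2 i).2.2
    rw [TR.ev_zero, sub_zero, TR.ev_sub, TR.ev_sub, TR.ev_mul, hx, hy]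
    exact h4

/-- two events of probability at least `3 / 4` -/
theorem pr_and_pos {E E' : ∀ k, (S.F k).Ω → Prop} {p : ℝ} (hp : p < 1 / 2)
    (h1 : ∀ᶠ k in UF, S.pr (fun k ω => ¬ E k ω) k ≤ p) (h2 : ∀ᶠ k in UF, S.pr (fun k ω => ¬ E' k ω) k ≤ p) :
    0 < ul (S.pr fun k ω => E k ω ∧ E' k ω) := by
  have h3 : ∀ᶠ k in UF, 1 - 2 * p ≤ S.pr (fun k ω => E k ω ∧ E' k ω) k := by
    filter_upwards [h1, h2] with k a b
    have c1 := pr_compl (fun k ω => E k ω ∧ E' k ω) k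
    have c2 : S.pr (fun k ω => ¬ (E k ω ∧ E' k ω)) k ≤ S.pr (fun k ω => ¬ E k ω) k + S.pr (fun k ω => ¬ E' k ω) k := by
      show ∑ ω, _ ≤ ∑ ω, _ + ∑ ω, _
      rw [← Finset.sum_add_distrib]
      apply Finset.sum_le_sum
      intro ω _
      by_cases a : E k ω
      · by_cases b : E' k ω
        · rw [res_neg (S.F k).μ (fun ω => ¬ (E k ω ∧ E' k ω)) ω (fun hc => hc ⟨a, b⟩),
            res_neg (S.F k).μ (fun ω => ¬ E k ω) ω (fun hc => hc a),
            res_neg (S.F k).μ (fun ω => ¬ E' k ω) ω (fun hc => hc b)]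
          simp
        · rw [res_neg (S.F k).μ (fun ω => ¬ E k ω) ω (fun hc => hc a),
            res_pos (S.F k).μ (fun ω => ¬ E' k ω) ω b,
            res_pos (S.F k).μ (fun ω => ¬ (E k ω ∧ E' k ω)) ω (fun hc => b hc.2)]
          simp
      · have h2 := (S.F k).res_nonneg (fun ω => ¬ E' k ω) ω
        rw [res_pos (S.F k).μ (fun ω => ¬ (E k ω ∧ E' k ω)) ω (fun hc => a hc.1),
          res_pos (S.F k).μ (fun ω => ¬ E k ω) ω a]
        linarith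
    linarith
  exact lt_of_lt_of_le (by linarith) (const_le_ul (UB_pr _) h3)

end

end Pool.Agent.Helper70.FW
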