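import Pool.Agent.Helper70.FW.Res
import Pool.Agent.Helper97.SL.Rj

/-! Theorem FW: the other end of an edge has the same deficit and full quotients. -/

set_option autoImplicit false

namespace Pool.Agent.Helper70.FW

open Finset Filter Topology Pool.Agent.Helper69.RK Pool.Agent.Helper31.EC Pool.Agent.Helper38.NS
open Pool.Agent.Helper97.SL

noncomputable section

open Sp QS

variable {S : Sp} {ν ι : Type} [Fintype ν] [Fintype ι] {z z3 A C : ν → QS S} {T T' c : QS S} {f : ι → QS S} {ρ : ℝ}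

/-- quotients have at most one coordinate less -/
theorem quot_le1 (z w : ν → QS S) (a : ν) (Y : S.L) :
    Helper31.EC.h (vd (fun i => z i * w a - z a * w i) 1) Y ≤ Fintype.card ν - 1 := by
  classical
  have e1 : vd (fun i => z i * w a - z a * w i) 1 = (Finset.univ.erase a).sup fun i => dg (z i * w a - z a * w i) 1 := by
    apply le_antisymm
    · rw [vd_le]
      intro i
      by_cases hi : i = a
      · have e2 : z i * w a - z a * w i = 0 := by rw [hi]; ring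
        rw [e2, dg_of_mem_Id (QS.Id S 1).zero_mem le_rfl le_rfl]
        exact bot_le
      · exact Finset.le_sup (f := fun i => dg (z i * w a - z a * w i) 1) (Finset.mem_erase.mpr ⟨hi, Finset.mem_univ i⟩)
    · apply Finset.sup_le
      intro i _
      exact dg_le_vd (fun i => z i * w a - z a * w i) 1 i
  rw [e1]
  refine (h_finsup_le _ _ _).trans ?_
  have e3 : ∀ i ∈ Finset.univ.erase a, Helper31.EC.h (dg (z i * w a - z a * w i) 1) Y ≤ 1 := by
    intro i _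
    exact (h_le_H _ _).trans (H_dg_le _ zero_le_one)
  refine (Finset.sum_le_sum e3).trans (le_of_eq ?_)
  rw [Finset.sum_const, Finset.card_erase_of_mem (Finset.mem_univ a), nsmul_eq_mul, Finset.card_univ,
    Nat.cast_sub (Fintype.card_pos_iff.mpr ⟨a⟩), Nat.cast_one, mul_one]

/-- digits of the noise -/
theorem Blk.noise_le (hb : Blk S c f z z3 T T' A C) (i : ν) :
    dg (c * (T * C i - A i * T')) 1 ≤ dg T 1 ⊔ vd A 1 ⊔ (dg T' 1 ⊔ vd C 1) := by
  have h1 : c ∈ Kn S 1 le_rfl (dg T 1 ⊔ vd A 1 ⊔ (dg T' 1 ⊔ vd C 1)) := by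
    rcases hb.hc with h | h
    · rw [h]; exact (Kn S 1 le_rfl _).one_mem
    · rw [h]; exact (Kn S 1 le_rfl _).neg_mem (Kn S 1 le_rfl _).one_mem
  have a1 : T ∈ Kn S 1 le_rfl (dg T 1 ⊔ vd A 1 ⊔ (dg T' 1 ⊔ vd C 1)) := by
    show dg T 1 ≤ _
    exact le_sup_left.trans le_sup_left
  have a2 : C i ∈ Kn S 1 le_rfl (dg T 1 ⊔ vd A 1 ⊔ (dg T' 1 ⊔ vd C 1)) := by
    show dg (C i) 1 ≤ _
    exact (dg_le_vd C 1 i).trans (le_sup_right.trans le_sup_right)
  have a3 : A i ∈ Kn S 1 le_rfl (dg T 1 ⊔ vd A 1 ⊔ (dg T' 1 ⊔ vd C 1)) := by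
    show dg (A i) 1 ≤ _
    exact (dg_le_vd A 1 i).trans (le_sup_right.trans le_sup_left)
  have a4 : T' ∈ Kn S 1 le_rfl (dg T 1 ⊔ vd A 1 ⊔ (dg T' 1 ⊔ vd C 1)) := by
    show dg T' 1 ≤ _
    exact le_sup_left.trans le_sup_right
  exact (Kn S 1 le_rfl _).mul_mem h1 ((Kn S 1 le_rfl _).sub_mem ((Kn S 1 le_rfl _).mul_mem a1 a2)
    ((Kn S 1 le_rfl _).mul_mem a3 a4))

theorem Blk.z3_sup (hb : Blk S c f z z3 T T' A C) {r : ℝ} (hr : r ≤ 1) :
    vd z3 r ⊔ (dg T 1 ⊔ vd A 1 ⊔ (dg T' 1 ⊔ vd C 1)) = vd z r ⊔ (dg T 1 ⊔ vd A 1 ⊔ (dg T' 1 ⊔ vd C 1)) := by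
  have h1 := vd_shift z (fun i => c * (T * C i - A i * T')) (B := dg T 1 ⊔ vd A 1 ⊔ (dg T' 1 ⊔ vd C 1)) hr
    hb.noise_le
  have h2 : z3 = fun i => z i + c * (T * C i - A i * T') := by
    funext i
    exact hb.e i
  rw [h2]
  exact h1

/-- a copy of the sides of an edge over its other end -/
theorem exists_side (hb : Blk S c f z z3 T T' A C) {R : Sp} (p : Pj R S) :
    ∃ (D : Sp) (p1 : Pj D R) (p2 : Pj D S), p1.map (p.map (vd f 1)) = p2.map (vd f 1) ∧
      (∀ r, p1.map (p.map (vd z3 r)) = p2.map (vd z3 r)) ∧ (∀ i, p1.qs (p.qs (z3 i)) = p2.qs (z3 i)) ∧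
      ∀ x : R.L, I (p1.map x ⊔ p2.map (vd z3 1)) (p2.map (dg T 1 ⊔ vd A 1 ⊔ (dg T' 1 ⊔ vd C 1)))
        (p2.map (vd f 1)) = 0 := by
  obtain ⟨D, p1, p2, c1, c2, c3⟩ := exists_copyF p (Sum.elim f z3)
  have cf : ∀ i, p1.qs (p.qs (f i)) = p2.qs (f i) := fun i => c1 (Sum.inl i)
  have cz : ∀ i, p1.qs (p.qs (z3 i)) = p2.qs (z3 i) := fun i => c1 (Sum.inr i)
  have ef : p1.map (p.map (vd f 1)) = p2.map (vd f 1) := by
    rw [← p.qs_vd, ← p1.qs_vd, ← p2.qs_vd]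
    exact vd_congr cf 1
  have ez : ∀ r, p1.map (p.map (vd z3 r)) = p2.map (vd z3 r) := by
    intro r
    rw [← p.qs_vd, ← p1.qs_vd, ← p2.qs_vd]
    exact vd_congr cz r
  refine ⟨D, p1, p2, ef, ez, cz, fun x => ?_⟩
  have k1 : I (p2.map (vd z3 1)) (p2.map (dg T 1 ⊔ vd A 1 ⊔ (dg T' 1 ⊔ vd C 1))) (p2.map (vd f 1)) = 0 := by
    rw [p2.I_map]
    exact hb.i2
  have k2 := c2 x (dg T 1 ⊔ vd A 1 ⊔ (dg T' 1 ⊔ vd C 1))
  rw [vd_sum, p.map_sup, p1.map_sup, ef, ez] at k2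
  rw [sup_comm, I_chain, k1, zero_add, sup_comm (p2.map (vd z3 1))]
  exact k2

/-- (U) for the other end -/
theorem U_move (hu : UQ S z (vd f 1) ρ) (hb : Blk S c f z z3 T T' A C) (E : ∀ k, (S.F k).Ω → Prop)
    (hE : 0 < ul (S.pr E)) (k : ℝ) (h0 : 0 ≤ k) (h1 : k ≤ 1) :
    Helper31.EC.h (restL E hE (vd z3 k)) (restL E hE (vd f 1)) ≤ (Fintype.card ν - ρ) * k := by
  obtain ⟨D, p1, p2, ef, ez, cz, key⟩ := exists_side hb (Pj.id S)
  have hE' := rj_pos p1 E hE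
  have e1 := (rj p1 E).h_map (restL E hE (vd z3 k)) (restL E hE (vd f 1))
  rw [rj_map p1 E hE, rj_map p1 E hE] at e1
  have e2 := ez k
  have e3 := ef
  rw [Pj.id_map] at e2 e3
  rw [e2, e3] at e1
  rw [← e1]
  have h2 := hu.U D p2 (fun k ω => E k (p1.π k ω)) hE' k h0 h1
  refine le_trans ?_ h2
  have e4 := hb.z3_sup h1
  generalize dg T 1 ⊔ vd A 1 ⊔ (dg T' 1 ⊔ vd C 1) = G at key e4
  have h3 := I_rest_zero (fun k ω => E k (p1.π k ω)) hE' (I_zero_mono (key ⊥) (A := p2.map (vd z3 k))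
    (B := p2.map G) ((p2.map_mono (vd_mono z3 h1)).trans (le_sup_right.trans le_sup_left)) le_sup_left)
  rw [I_eq] at h3
  have h4 : Helper31.EC.h (restL (fun k ω => E k (p1.π k ω)) hE' (p2.map (vd z3 k)))
      (restL (fun k ω => E k (p1.π k ω)) hE' (p2.map G) ⊔ restL (fun k ω => E k (p1.π k ω)) hE' (p2.map (vd f 1))) =
      Helper31.EC.h (restL (fun k ω => E k (p1.π k ω)) hE' (p2.map (vd z k)))
      (restL (fun k ω => E k (p1.π k ω)) hE' (p2.map G) ⊔ restL (fun k ω => E k (p1.π k ω)) hE' (p2.map (vd f 1))) := by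
    have e5 := congrArg (fun x => restL (fun k ω => E k (p1.π k ω)) hE' (p2.map x)) e4
    beta_reduce at e5
    rw [p2.map_sup, p2.map_sup, restL_sup, restL_sup] at e5
    apply h_congr_left
    · refine le_trans (le_sup_left.trans (le_of_eq e5)) ?_
      exact sup_le le_sup_left (le_sup_left.trans le_sup_right)
    · refine le_trans (le_sup_left.trans (le_of_eq e5.symm)) ?_
      exact sup_le le_sup_left (le_sup_left.trans le_sup_right)
  have h5 : Helper31.EC.h (restL (fun k ω => E k (p1.π k ω)) hE' (p2.map (vd z k)))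
      (restL (fun k ω => E k (p1.π k ω)) hE' (p2.map G) ⊔ restL (fun k ω => E k (p1.π k ω)) hE' (p2.map (vd f 1))) ≤
      Helper31.EC.h (restL (fun k ω => E k (p1.π k ω)) hE' (p2.map (vd z k)))
        (restL (fun k ω => E k (p1.π k ω)) hE' (p2.map (vd f 1))) := h_anti le_sup_right
  linarith

/-- (Q) for the other end, at full depth -/
theorem Q_move (hu : UQ S z (vd f 1) ρ) (hb : Blk S c f z z3 T T' A C) (R : Sp) (p : Pj R S) (X : R.L)
    (w : ν → QS R) (a : ν) (hi : I (p.map (vd z3 1)) X (p.map (vd f 1)) = 0)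
    (hw : ∀ i, dg (w i) 1 ≤ p.map (vd f 1) ⊔ X) (ha : IsUnit (w a)) :
    Helper31.EC.h (vd (fun i => p.qs (z3 i) * w a - p.qs (z3 a) * w i) 1) (p.map (vd f 1) ⊔ X) =
      Fintype.card ν - 1 := by
  obtain ⟨D, p1, p2, ef, ez, cz, key⟩ := exists_side hb p
  have e1 := (p1).h_map (vd (fun i => p.qs (z3 i) * w a - p.qs (z3 a) * w i) 1) (p.map (vd f 1) ⊔ X)
  apply le_antisymm
  · exact quot_le1 (fun i => p.qs (z3 i)) w a (p.map (vd f 1) ⊔ X)
  rw [← e1]
  set Y := p1.map X with hY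
  set G := p2.map (dg T 1 ⊔ vd A 1 ⊔ (dg T' 1 ⊔ vd C 1)) with hG
  set F := p2.map (vd f 1) with hF
  -- independence
  have i3 : I (p2.map (vd z3 1)) Y F = 0 := by
    rw [← ez 1, ← ef, hY, p1.I_map]
    exact hi
  have k1 : I (p2.map (vd z3 1)) (Y ⊔ G) F = 0 := by
    rw [I_chain_right, i3, zero_add]
    have k2 := key X
    rw [← hY, I_chain] at k2
    have n1 := I_nonneg Y G F
    have n2 := I_nonneg (p2.map (vd z3 1)) G (Y ⊔ F)
    linarith
  have k3 : I (p2.map (vd z3 1)) Y (G ⊔ F) = 0 := by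
    rw [sup_comm Y G, I_chain_right] at k1
    have n1 := I_nonneg (p2.map (vd z3 1)) G F
    have n2 := I_nonneg (p2.map (vd z3 1)) Y (G ⊔ F)
    linarith
  have e4 : p2.map (vd z3 1) ⊔ G = p2.map (vd z 1) ⊔ G := by
    rw [hG, ← p2.map_sup, ← p2.map_sup, hb.z3_sup (le_refl (1 : ℝ))]
  have k4 : I (p2.map (vd z 1)) Y (G ⊔ F) = 0 := by
    rw [← k3]
    apply I_congr_left
    · refine le_trans (le_sup_left.trans (le_of_eq e4.symm)) ?_
      exact sup_le le_sup_left (le_sup_left.trans le_sup_right)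
    · refine le_trans (le_sup_left.trans (le_of_eq e4)) ?_
      exact sup_le le_sup_left (le_sup_left.trans le_sup_right)
  have k5 : I (p2.map (vd z 1)) (Y ⊔ G) F = 0 := by
    rw [sup_comm Y G, I_chain_right, k4, add_zero, hF, hG, p2.I_map]
    exact hb.i1
  have hFm : p1.map (p.map (vd f 1) ⊔ X) = F ⊔ Y := by
    rw [p1.map_sup, ef]
  have hw' : ∀ i, dg (p1.qs (w i)) 1 ≤ F ⊔ (Y ⊔ G) := by
    intro i
    rw [p1.qs_dg]
    refine (p1.map_mono (hw i)).trans ?_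
    rw [hFm]
    exact sup_le le_sup_left (le_sup_left.trans le_sup_right)
  have h5 := hu.Q D p2 (Y ⊔ G) (fun i => p1.qs (w i)) a 1 zero_le_one le_rfl k5 hw' (ha.map p1.qs)
  rw [mul_one] at h5
  rw [← h5, hFm]
  have hg : ∀ i, dg (p2.qs (c * (T * C i - A i * T'))) 1 ≤ F ⊔ (Y ⊔ G) := by
    intro i
    rw [p2.qs_dg]
    exact (p2.map_mono (hb.noise_le i)).trans (le_sup_right.trans le_sup_right)
  have e5 := vd_shift (fun i => p2.qs (z i) * p1.qs (w a) - p2.qs (z a) * p1.qs (w i))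
    (fun i => p2.qs (c * (T * C i - A i * T')) * p1.qs (w a) - p2.qs (c * (T * C a - A a * T')) * p1.qs (w i))
    (B := F ⊔ (Y ⊔ G)) (le_refl (1 : ℝ)) (fun i => by
      apply (Kn D 1 le_rfl _).sub_mem
      · exact (Kn D 1 le_rfl _).mul_mem (hg i) (hw' a)
      · exact (Kn D 1 le_rfl _).mul_mem (hg a) (hw' i))
  have e6 : (fun i => p2.qs (z i) * p1.qs (w a) - p2.qs (z a) * p1.qs (w i) +
      (p2.qs (c * (T * C i - A i * T')) * p1.qs (w a) - p2.qs (c * (T * C a - A a * T')) * p1.qs (w i))) =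
      fun i => p1.qs (p.qs (z3 i) * w a - p.qs (z3 a) * w i) := by
    funext i
    rw [map_sub p1.qs, map_mul p1.qs, map_mul p1.qs, cz, cz, hb.e i, hb.e a, map_add p2.qs, map_add p2.qs]
    ring
  rw [e6] at e5
  have e7 : Helper31.EC.h (vd (fun i => p1.qs (p.qs (z3 i) * w a - p.qs (z3 a) * w i)) 1) (F ⊔ (Y ⊔ G)) =
      Helper31.EC.h (vd (fun i => p2.qs (z i) * p1.qs (w a) - p2.qs (z a) * p1.qs (w i)) 1) (F ⊔ (Y ⊔ G)) := by
    apply h_congr_left
    · exact le_sup_left.trans (le_of_eq e5)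
    · exact le_sup_left.trans (le_of_eq e5.symm)
  rw [← e7, ← p1.qs_vd]
  exact h_anti (sup_le_sup_left le_sup_left F)

end

end Pool.Agent.Helper70.FW
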