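import Pool.Agent.Helper25.EC.M1
import Pool.Agent.Helper80.MX.Span
import Pool.Agent.Helper81.TP.Abs
import Pool.Agent.Helper82.TP.Base

/-! Theorem FW, end of the proof in the exact calculus: a vector function which is not small has, on an event of
positive probability, a large coordinate of maximal size; its ratios are functions of its digits. -/

set_option autoImplicit false

namespace Pool.Agent.Helper70.FW

open Finset Filter Topology Pool.Agent.Helper69.RK Pool.Agent.Helper31.EC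

noncomputable section

open Sp QS

variable {S : Sp}

theorem typ_fin {ι : Type} (s : Finset ι) (A : ι → ∀ k, (S.F k).Ω → Prop) (hA : ∀ i ∈ s, Typ (A i)) :
    Typ (fun k ω => ∀ i ∈ s, A i k ω) := by
  classical
  induction s using Finset.induction_on with
  | empty => exact Typ_true.mono (Eventually.of_forall fun k ω _ _ i hi => absurd hi (Finset.notMem_empty i))
  | insert a s ha ih =>
    have h1 := (ih fun i hi => hA i (Finset.mem_insert_of_mem hi)).and (hA a (Finset.mem_insert_self a s))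
    refine h1.mono (Eventually.of_forall fun k ω _ h i hi => ?_)
    rcases Finset.mem_insert.mp hi with h2 | h2
    · rw [h2]; exact h.2
    · exact h.1 i h2

/-- the corner of the cell of level `1` -/
def fl1 (f : QS S) : TR S := TR.cor ((TR.vec fun _ : Fin 1 => rep f).fl 1 zero_le_one) 0

theorem mk_fl1 (f : QS S) : mk (fl1 f) = f := by
  have h1 := Pool.Agent.Helper80.MX.sub_qfl_mem f zero_le_one le_rfl
  rw [mem_Id_one, sub_eq_zero] at h1
  exact h1.symm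

theorem ev_fl1 (f : QS S) (k : ℕ) (ω : (S.F k).Ω) :
    TR.ev (fl1 f) k ω = ⌊TR.ev (rep f) k ω / S.dl 1 k⌋ * S.dl 1 k := rfl

open Classical in
/-- a quotient on an event, a constant elsewhere -/
def rat (F G : TR S) (E : ∀ k, (S.F k).Ω → Prop) (hE : ∀ k ω, E k ω → |TR.ev F k ω| ≤ |TR.ev G k ω|) (c : ℝ) :
    TR S := ⟨fun k ω => if E k ω then TR.ev F k ω / TR.ev G k ω else c, by
  refine ⟨fun _ => 1 + |c|, S.Sub_const (by positivity), Eventually.of_forall fun k ω _ => ?_⟩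
  show |if E k ω then TR.ev F k ω / TR.ev G k ω else c| ≤ 1 + |c|
  by_cases h : E k ω
  · rw [if_pos h, abs_div]
    have h1 : |TR.ev F k ω| / |TR.ev G k ω| ≤ 1 := div_le_one_of_le₀ (hE k ω h) (abs_nonneg _)
    have h2 := abs_nonneg c
    linarith
  · rw [if_neg h]
    linarith⟩

theorem ev_rat_pos (F G : TR S) (E : ∀ k, (S.F k).Ω → Prop)
    (hE : ∀ k ω, E k ω → |TR.ev F k ω| ≤ |TR.ev G k ω|) (c : ℝ) (k : ℕ) (ω : (S.F k).Ω) (h : E k ω) :
    TR.ev (rat F G E hE c) k ω = TR.ev F k ω / TR.ev G k ω := if_pos h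

theorem ev_rat_neg (F G : TR S) (E : ∀ k, (S.F k).Ω → Prop)
    (hE : ∀ k ω, E k ω → |TR.ev F k ω| ≤ |TR.ev G k ω|) (c : ℝ) (k : ℕ) (ω : (S.F k).Ω) (h : ¬ E k ω) :
    TR.ev (rat F G E hE c) k ω = c := if_neg h

/-- **ratios** of a vector function which is not small -/
theorem ratio {N : ℕ} (f : Fin N → QS S) {r : ℝ} (hr : r ≤ 1) (hf : ¬ ∀ i, f i ∈ Id S r) :
    ∃ (δ : ℝ) (a : Fin N) (w : Fin N → QS S) (E : ∀ k, (S.F k).Ω → Prop) (hE : 0 < ul (S.pr E)),
      0 < δ ∧ w a = 1 ∧ (∀ i, dg (w i) 1 ≤ vd f 1) ∧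
      (∀ i, QS.rest E hE (f i) = QS.rest E hE (w i) * QS.rest E hE (f a)) ∧
      (∀ (τ : QS S) (m : ℝ), m ≤ 1 → m ≤ 1 - r + δ →
        dg (QS.rest E hE τ) m ≤ dg (QS.rest E hE (τ * f a)) 1 ⊔ dg (QS.rest E hE (f a)) 1) := by
  classical
  -- the size
  have h1 : ∃ δ : ℝ, 0 < δ ∧ ¬ Typ (fun k ω => ∀ i ∈ (univ : Finset (Fin N)),
      |TR.ev (fl1 (f i)) k ω| ≤ S.dl (r - δ) k) := by
    by_contra hc
    push Not at hc
    apply hf
    intro i
    rw [← mk_fl1 (f i), mk_mem_Id hr]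
    apply TR.ag_of_levels
    intro δ hδ
    refine (hc δ hδ).mono (Eventually.of_forall fun k ω _ h => ?_)
    rw [TR.ev_zero, sub_zero]
    exact h i (mem_univ i)
  obtain ⟨δ, hδ, hnt⟩ := h1
  -- the event on which the coordinate `a` is the largest one
  obtain ⟨Ev, hEv⟩ : ∃ Ev : Fin N → ∀ k, (S.F k).Ω → Prop, Ev = fun a k ω =>
      (∀ i, |TR.ev (fl1 (f i)) k ω| ≤ |TR.ev (fl1 (f a)) k ω|) ∧ S.dl (r - δ) k < |TR.ev (fl1 (f a)) k ω| :=
    ⟨_, rfl⟩
  have h2 : ∃ a, 0 < ul (S.pr (Ev a)) := by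
    by_contra hc
    push Not at hc
    apply hnt
    have h3 := typ_fin (univ : Finset (Fin N)) (fun a k ω => ¬ Ev a k ω)
      (fun a _ => Pool.Agent.Helper25.EC.typ_not (not_lt.mpr (hc a)))
    refine h3.mono (Eventually.of_forall fun k ω _ h i hi => ?_)
    by_contra hcon
    push Not at hcon
    obtain ⟨a, -, ha⟩ := Finset.exists_max_image (univ : Finset (Fin N)) (fun i => |TR.ev (fl1 (f i)) k ω|)
      ⟨i, hi⟩
    apply h a (mem_univ a)
    rw [hEv]
    exact ⟨fun j => ha j (mem_univ j), lt_of_lt_of_le hcon (ha i hi)⟩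
  obtain ⟨a, hE⟩ := h2
  have hle : ∀ i, ∀ k ω, Ev a k ω → |TR.ev (fl1 (f i)) k ω| ≤ |TR.ev (fl1 (f a)) k ω| := by
    intro i k ω h
    rw [hEv] at h
    exact h.1 i
  have hlt : ∀ k ω, Ev a k ω → S.dl (r - δ) k < |TR.ev (fl1 (f a)) k ω| := by
    intro k ω h
    rw [hEv] at h
    exact h.2
  have hne : ∀ k ω, Ev a k ω → TR.ev (fl1 (f a)) k ω ≠ 0 := by
    intro k ω h h0
    have := hlt k ω h
    rw [h0, abs_zero] at this
    exact absurd this (not_lt.mpr (S.dl_pos _ k).le)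
  set w : Fin N → QS S := fun i => mk (rat (fl1 (f i)) (fl1 (f a)) (Ev a) (hle i) (if i = a then 1 else 0))
    with hw
  refine ⟨δ, a, w, Ev a, hE, hδ, ?_, ?_, ?_, ?_⟩
  · -- `w a = 1`
    rw [hw]
    show QS.mk _ = 1
    rw [← map_one QS.mk]
    congr 1
    apply Subtype.ext
    funext k ω
    show TR.ev (rat (fl1 (f a)) (fl1 (f a)) (Ev a) (hle a) (if a = a then 1 else 0)) k ω = 1
    by_cases h : Ev a k ω
    · rw [ev_rat_pos _ _ _ _ _ _ _ h]
      exact div_self (hne k ω h)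
    · rw [ev_rat_neg _ _ _ _ _ _ _ h, if_pos rfl]
  · -- digits
    intro i
    obtain ⟨y, hy⟩ : ∃ y : S.VV N, y = TR.vec (fun j => rep (f j)) := ⟨_, rfl⟩
    have e1 : vd f 1 = y.dg 1 := by
      rw [hy, TR.vec_dg_eq]
      unfold vd
      congr 1
      funext j
      conv_lhs => rw [← mk_rep (f j)]
      rw [dg_mk _ le_rfl]
    rw [e1, hw]
    show dg (QS.mk _) 1 ≤ _
    rw [dg_mk _ le_rfl]
    unfold TR.dg
    apply VV.dg_le_io _ _ (y.bdd 1) (fun _ _ => True) Typ_true (fun _ => 0) (S.Sub_const le_rfl)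
    refine Eventually.of_forall fun k ω ω' _ _ _ _ _ g _ => ?_
    have e2 : ∀ j, TR.ev (fl1 (f j)) k ω = TR.ev (fl1 (f j)) k ω' := by
      intro j
      rw [ev_fl1, ev_fl1]
      have e3 : y.cellv 1 k ω j = y.cellv 1 k ω' j := congrFun g j
      rw [hy] at e3
      have e4 : ⌊TR.ev (rep (f j)) k ω / S.dl 1 k⌋ = ⌊TR.ev (rep (f j)) k ω' / S.dl 1 k⌋ := e3
      rw [e4]
    have e5 : Ev a k ω ↔ Ev a k ω' := by
      rw [hEv]
      simp only [e2]
    have e6 : TR.ev (rat (fl1 (f i)) (fl1 (f a)) (Ev a) (hle i) (if i = a then 1 else 0)) k ω =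
        TR.ev (rat (fl1 (f i)) (fl1 (f a)) (Ev a) (hle i) (if i = a then 1 else 0)) k ω' := by
      by_cases h : Ev a k ω
      · rw [ev_rat_pos _ _ _ _ _ _ _ h, ev_rat_pos _ _ _ _ _ _ _ (e5.mp h), e2, e2]
      · rw [ev_rat_neg _ _ _ _ _ _ _ h, ev_rat_neg _ _ _ _ _ _ _ (fun hc => h (e5.mpr hc))]
    show |TR.ev (rat (fl1 (f i)) (fl1 (f a)) (Ev a) (hle i) (if i = a then 1 else 0)) k ω -
      TR.ev (rat (fl1 (f i)) (fl1 (f a)) (Ev a) (hle i) (if i = a then 1 else 0)) k ω'| ≤ _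
    rw [e6, sub_self, abs_zero, zero_mul]
  · -- the quotient on the event
    intro i
    have e1 : QS.rest (Ev a) hE (f i) = mk (TR.rest (Ev a) (fl1 (f i))) := by
      rw [← QS.rest_mk, mk_fl1]
    have e2 : QS.rest (Ev a) hE (f a) = mk (TR.rest (Ev a) (fl1 (f a))) := by
      rw [← QS.rest_mk, mk_fl1]
    rw [e1, e2, hw]
    show _ = QS.rest (Ev a) hE (QS.mk _) * _
    rw [QS.rest_mk, ← map_mul, mk_eq]
    refine ⟨fun _ _ => True, fun _ => 0, Typ_true, (S.rest (Ev a)).Sub_const le_rfl, ?_⟩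
    filter_upwards [Pool.Agent.Helper25.EC.rest_mem (Ev a) hE] with k hk ω hω _
    have h3 := (hk ω hω).2
    have h4 := ev_rat_pos (fl1 (f i)) (fl1 (f a)) (Ev a) (hle i) (if i = a then 1 else 0) k ω h3
    show |TR.ev (fl1 (f i)) k ω -
      TR.ev (rat (fl1 (f i)) (fl1 (f a)) (Ev a) (hle i) (if i = a then 1 else 0)) k ω *
        TR.ev (fl1 (f a)) k ω| ≤ _
    rw [h4, div_mul_cancel₀ _ (hne k ω h3), sub_self, abs_zero, zero_mul]
  · -- division
    intro τ m hm hm'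
    have e2 : QS.rest (Ev a) hE (f a) = mk (TR.rest (Ev a) (fl1 (f a))) := by
      rw [← QS.rest_mk, mk_fl1]
    obtain ⟨t, rfl⟩ := mk_surj τ
    rw [map_mul, e2, QS.rest_mk, ← map_mul, dg_mk _ hm, dg_mk _ le_rfl, dg_mk _ le_rfl]
    have h5 := Pool.Agent.Helper25.EC.div_dg_le (TR.rest (Ev a) t) (TR.rest (Ev a) (fl1 (f a)))
      (TR.rest (Ev a) t * TR.rest (Ev a) (fl1 (f a))) 1 (r - δ) (by
        filter_upwards [Pool.Agent.Helper25.EC.rest_mem (Ev a) hE] with k hk ω hω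
        exact hlt k ω (hk ω hω).2) (TR.Ag.refl 1 _)
    refine (TR.dg_mono _ ?_).trans (h5.trans (by rw [sup_comm]))
    linarith

/-- **ratios**, general index type -/
theorem ratio' {ν : Type} [Fintype ν] (f : ν → QS S) {r : ℝ} (hr : r ≤ 1) (hf : ¬ ∀ i, f i ∈ Id S r) :
    ∃ (δ : ℝ) (a : ν) (w : ν → QS S) (E : ∀ k, (S.F k).Ω → Prop) (hE : 0 < ul (S.pr E)),
      0 < δ ∧ w a = 1 ∧ (∀ i, dg (w i) 1 ≤ vd f 1) ∧
      (∀ i, QS.rest E hE (f i) = QS.rest E hE (w i) * QS.rest E hE (f a)) ∧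
      (∀ (τ : QS S) (m : ℝ), m ≤ 1 → m ≤ 1 - r + δ →
        dg (QS.rest E hE τ) m ≤ dg (QS.rest E hE (τ * f a)) 1 ⊔ dg (QS.rest E hE (f a)) 1) := by
  classical
  obtain ⟨e⟩ : Nonempty (Fin (Fintype.card ν) ≃ ν) := ⟨(Fintype.equivFin ν).symm⟩
  have hf' : ¬ ∀ i, (f ∘ e) i ∈ Id S r := by
    intro h
    apply hf
    intro i
    have h1 := h (e.symm i)
    rwa [Function.comp_apply, e.apply_symm_apply] at h1
  obtain ⟨δ, a, w, E, hE, h1, h2, h3, h4, h5⟩ := ratio (f ∘ e) hr hf'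
  refine ⟨δ, e a, w ∘ e.symm, E, hE, h1, ?_, ?_, ?_, h5⟩
  · rw [Function.comp_apply, e.symm_apply_apply, h2]
  · intro i
    have h6 := h3 (e.symm i)
    rw [vd_equiv] at h6
    exact h6
  · intro i
    have h6 := h4 (e.symm i)
    rw [Function.comp_apply, e.apply_symm_apply] at h6
    exact h6

end

end Pool.Agent.Helper70.FW
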