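import Pool.Agent.Helper70.FW.Mov
import Pool.Agent.Helper61.VW.Gen

/-! Theorem FW: reduction to edges with nonnegative heights. -/

set_option autoImplicit false

namespace Pool.Agent.Helper70.FW

open Finset Filter Topology Pool.Agent.Helper69.RK Pool.Agent.Helper31.EC Pool.Agent.Helper38.NS
open Pool.Agent.Helper61.EC Pool.Agent.Helper46.WF

noncomputable section

open Sp QS

variable {S : Sp} {ν ι : Type} [Fintype ν] [Fintype ι] {z z3 A C : ν → QS S} {T T' c : QS S} {f : ι → QS S} {ρ : ℝ}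

/-- nonnegative functions -/
def NN (x : QS S) : Prop := ∃ g : TR S, QS.mk g = x ∧ ∀ᶠ k in UF, ∀ ω, (S.F k).μ ω ≠ 0 → 0 ≤ TR.ev g k ω

theorem NN.rest {x : QS S} (h : NN x) {E : ∀ k, (S.F k).Ω → Prop} (hE : 0 < ul (S.pr E)) : NN (QS.rest E hE x) := by
  obtain ⟨g, rfl, hg⟩ := h
  refine ⟨TR.rest E g, (QS.rest_mk E hE g).symm, ?_⟩
  filter_upwards [hg, rest_supp_ev hE] with k h1 h2 ω hω
  exact h1 ω (h2 ω hω).1

/-- signs are constant on an event -/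
theorem exists_sign (x x' : QS S) : ∃ (E : ∀ k, (S.F k).Ω → Prop) (hE : 0 < ul (S.pr E)),
    (NN (QS.rest E hE x) ∨ NN (-QS.rest E hE x)) ∧ (NN (QS.rest E hE x') ∨ NN (-QS.rest E hE x')) := by
  classical
  obtain ⟨g, rfl⟩ := QS.mk_surj x
  obtain ⟨g', rfl⟩ := QS.mk_surj x'
  obtain ⟨p, hp⟩ := pos_of_cover (S := S) (ι := Bool × Bool)
    (fun p k ω => (0 ≤ TR.ev g k ω ↔ p.1 = true) ∧ (0 ≤ TR.ev g' k ω ↔ p.2 = true)) (fun _ _ => True)
    (η := 1 / 2) (by norm_num) (Eventually.of_forall fun k => by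
      have h1 : Pw (S.F k).μ (fun _ => True) = 1 := by
        rw [Pw_eq]
        have h2 : res (S.F k).μ (fun _ => True) = (S.F k).μ := by
          funext ω
          exact res_pos _ _ _ trivial
        rw [h2]
        exact (S.F k).ms
      rw [h1]
      norm_num)
    (Eventually.of_forall fun k ω _ _ => ⟨(decide (0 ≤ TR.ev g k ω), decide (0 ≤ TR.ev g' k ω)), by simp, by simp⟩)
  have key : ∀ (b : Bool) (y : TR S),
      (∀ k ω, (fun k ω => (0 ≤ TR.ev g k ω ↔ p.1 = true) ∧ (0 ≤ TR.ev g' k ω ↔ p.2 = true)) k ω →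
        (0 ≤ TR.ev y k ω ↔ b = true)) →
      NN (QS.rest _ hp (QS.mk y)) ∨ NN (-QS.rest _ hp (QS.mk y)) := by
    intro b y hy
    cases b with
    | true =>
      left
      refine ⟨TR.rest _ y, (QS.rest_mk _ hp y).symm, ?_⟩
      filter_upwards [rest_supp_ev hp] with k h2 ω hω
      exact (hy k ω (h2 ω hω).2).mpr rfl
    | false =>
      right
      refine ⟨-TR.rest _ y, ?_, ?_⟩
      · rw [map_neg, QS.rest_mk]
      · filter_upwards [rest_supp_ev hp] with k h2 ω hω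
        have h3 : ¬ 0 ≤ TR.ev y k ω := fun h => by
          have := (hy k ω (h2 ω hω).2).mp h
          exact Bool.noConfusion this
        show 0 ≤ -(TR.ev y k ω)
        linarith [not_le.mp h3]
  exact ⟨_, hp, key p.1 g fun k ω h => h.1, key p.2 g' fun k ω h => h.2⟩

/-- a sign -/
def Sg (s : QS S) : Prop := s = 1 ∨ s = -1

theorem Sg.sq {s : QS S} (hs : Sg s) : s * s = 1 := by
  rcases hs with h | h <;> rw [h] <;> ring

theorem Sg.mul {s s' : QS S} (hs : Sg s) (hs' : Sg s') : Sg (s * s') := by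
  rcases hs with h | h <;> rcases hs' with h' | h' <;> rw [h, h']
  · left; ring
  · right; ring
  · right; ring
  · left; ring

theorem Sg.mem {s : QS S} (hs : Sg s) {r : ℝ} (hr : r ≤ 1) (Y : S.L) : s ∈ Kn S r hr Y := by
  rcases hs with h | h
  · rw [h]; exact (Kn S r hr Y).one_mem
  · rw [h]; exact (Kn S r hr Y).neg_mem (Kn S r hr Y).one_mem

theorem Sg.dg_mul {s : QS S} (hs : Sg s) (x : QS S) : dg (s * x) 1 = dg x 1 := by
  apply le_antisymm
  · exact (Kn S 1 le_rfl (dg x 1)).mul_mem (hs.mem le_rfl _) (show dg x 1 ≤ dg x 1 from le_rfl)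
  · have h1 : dg (s * (s * x)) 1 ≤ dg (s * x) 1 :=
      (Kn S 1 le_rfl (dg (s * x) 1)).mul_mem (hs.mem le_rfl _) (show dg (s * x) 1 ≤ dg (s * x) 1 from le_rfl)
    rwa [← mul_assoc, hs.sq, one_mul] at h1

theorem Sg.vd_mul {s : QS S} (hs : Sg s) (x : ν → QS S) : vd (fun i => s * x i) 1 = vd x 1 := by
  unfold vd
  congr 1
  funext i
  exact hs.dg_mul (x i)

theorem Sg.rest {s : QS S} (hs : Sg s) {E : ∀ k, (S.F k).Ω → Prop} (hE : 0 < ul (S.pr E)) :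
    Sg (QS.rest E hE s) := by
  rcases hs with h | h
  · left; rw [h, map_one]
  · right; rw [h, map_neg, map_one]

/-- change of signs -/
theorem Blk.flip (hb : Blk S c f z z3 T T' A C) {s s' : QS S} (hs : Sg s) (hs' : Sg s') :
    Blk S (c * (s * s')) f z z3 (s * T) (s' * T') (fun i => s * A i) (fun i => s' * C i) where
  hc := Sg.mul hb.hc (hs.mul hs')
  e := by
    intro i
    rw [hb.e i]
    have h1 : c * (s * s') * (s * T * (s' * C i) - s * A i * (s' * T')) =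
        c * ((s * s) * (s' * s')) * (T * C i - A i * T') := by ring
    rw [h1, hs.sq, hs'.sq]
    ring
  i1 := by
    rw [hs.dg_mul, hs'.dg_mul, hs.vd_mul, hs'.vd_mul]
    exact hb.i1
  i2 := by
    rw [hs.dg_mul, hs'.dg_mul, hs.vd_mul, hs'.vd_mul]
    exact hb.i2
  i3 := by
    rw [hs.dg_mul, hs'.dg_mul, hs.vd_mul, hs'.vd_mul]
    exact hb.i3
  r1 := by
    rw [hs.dg_mul]
    exact hb.r1
  r2 := by
    rw [hs'.dg_mul]
    exact hb.r2

/-- tubes on an event for edges with nonnegative heights -/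
def TUBESp (N : ℕ) (ρ l κ : ℝ) : Prop :=
  ∀ (S : Sp) (ι : Type) (_ : Fintype ι) (c : QS S) (f : ι → QS S) (T T' : QS S) (A C z z3 : Fin N → QS S),
    Blk S c f z z3 T T' A C → UQ S z (vd f 1) ρ → NN T → NN T' →
    ∃ (E : ∀ k, (S.F k).Ω → Prop) (hE : 0 < ul (S.pr E)) (a o a' o' : Fin N → QS (S.rest E)),
      TubG (S.rest E) (restL E hE (vd f 1)) (QS.rest E hE T) (fun i => QS.rest E hE (A i)) a o l κ ∧
      TubG (S.rest E) (restL E hE (vd f 1)) (QS.rest E hE T') (fun i => QS.rest E hE (C i)) a' o' l κ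

/-- **reduction of theorem FW to tubes on an event for edges with nonnegative heights** -/
theorem wvq_of_tubesp {N : ℕ} {ρ l κ : ℝ} (hρ : 0 ≤ ρ) (hl : 0 ≤ l) (hlk : l ≤ κ) (h0 : 0 < κ) (h1 : κ ≤ 1)
    (hT : TUBESp N ρ l κ) : WVQ N ρ (ρ * (ρ * κ - l) - l) := by
  intro S ι _ f P Q T T' A C z z3 tP aP tQ cQ he i1 i2 i3 r1 r2 hu i
  have hb : Blk S 1 f z z3 T T' A C := by
    have a1 : dg T 1 ⊔ vd A 1 ⊔ (dg T' 1 ⊔ vd C 1) ≤ P ⊔ Q ⊔ vd f 1 := by order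
    refine ⟨Or.inl rfl, fun i => ?_, I_zero_mono i1 le_sup_left a1, I_zero_mono i2 le_sup_left a1,
      I_zero_mono i3 (sup_le tP aP) (sup_le tQ cQ), r1, r2⟩
    rw [he i, one_mul]
  have hθ : ρ * (ρ * κ - l) - l ≤ 1 := by
    have hρ1 := UQ_le_one hu i
    have h4 : ρ * κ ≤ 1 * κ := mul_le_mul_of_nonneg_right hρ1 h0.le
    rcases le_or_gt (ρ * κ - l) 0 with h6 | h6
    · have := mul_nonpos_of_nonneg_of_nonpos hρ h6
      linarith
    · have : ρ * (ρ * κ - l) ≤ 1 * (ρ * κ - l) := mul_le_mul_of_nonneg_right hρ1 h6.le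
      linarith
  by_contra hc
  obtain ⟨E0, hE0, hout0⟩ := exists_out hθ hc
  obtain ⟨E1, hE1, g1, g2⟩ := exists_sign (QS.rest E0 hE0 T) (QS.rest E0 hE0 T')
  obtain ⟨E2, hE2, hout2⟩ := exists_out hθ (hout0 E1 hE1)
  have hu2 := UQ_rest (UQ_rest (UQ_rest hu E0 hE0) E1 hE1) E2 hE2
  rw [← QS.rest_vd, ← QS.rest_vd, ← QS.rest_vd] at hu2
  have hb2 := ((hb.rest E0 hE0).rest E1 hE1).rest E2 hE2
  -- signs
  have hs : ∀ x : QS ((S.rest E0).rest E1), NN x ∨ NN (-x) → ∃ s, Sg s ∧ NN (s * QS.rest E2 hE2 x) := by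
    intro x hx
    rcases hx with h | h
    · exact ⟨1, Or.inl rfl, by rw [one_mul]; exact h.rest hE2⟩
    · refine ⟨-1, Or.inr rfl, ?_⟩
      have h3 : -1 * QS.rest E2 hE2 x = QS.rest E2 hE2 (-x) := by rw [map_neg]; ring
      rw [h3]
      exact h.rest hE2
  obtain ⟨s, hs1, hs2⟩ := hs _ g1
  obtain ⟨s', hs1', hs2'⟩ := hs _ g2
  obtain ⟨E3, hE3, a, o, a', o', t1, t2⟩ := hT _ _ _ _ _ _ _ _ _ _ _ (hb2.flip hs1 hs1') hu2 hs2 hs2'
  have hb3 := (hb2.flip hs1 hs1').rest E3 hE3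
  have hu3 := UQ_rest hu2 E3 hE3
  rw [← QS.rest_vd] at hu3
  have k1 : restL E3 hE3 (vd (fun i => QS.rest E2 hE2 (QS.rest E1 hE1 (QS.rest E0 hE0 (f i)))) 1) =
      vd (fun i => QS.rest E3 hE3 (QS.rest E2 hE2 (QS.rest E1 hE1 (QS.rest E0 hE0 (f i))))) 1 :=
    (QS.rest_vd E3 hE3 _ 1).symm
  rw [k1] at t1 t2
  have h2 := end_star hu3 hρ hb3 hl hlk h0 h1 (t1.mono (le_sup_left.trans le_sup_left))
    (t2.mono (le_sup_left.trans le_sup_left)) i
  apply hout2 E3 hE3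
  have e1 : QS.rest E3 hE3 (QS.rest E2 hE2 (QS.rest E1 hE1 (QS.rest E0 hE0 (T * C i - A i * T')))) =
      QS.rest E3 hE3 (s * s') * (QS.rest E3 hE3 (s * QS.rest E2 hE2 (QS.rest E1 hE1 (QS.rest E0 hE0 T))) *
        QS.rest E3 hE3 (s' * QS.rest E2 hE2 (QS.rest E1 hE1 (QS.rest E0 hE0 (C i)))) -
        QS.rest E3 hE3 (s * QS.rest E2 hE2 (QS.rest E1 hE1 (QS.rest E0 hE0 (A i)))) *
        QS.rest E3 hE3 (s' * QS.rest E2 hE2 (QS.rest E1 hE1 (QS.rest E0 hE0 T')))) := by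
    simp only [map_sub, map_mul]
    have q1 : QS.rest E3 hE3 s * QS.rest E3 hE3 s = 1 := by rw [← map_mul, hs1.sq, map_one]
    have q2 : QS.rest E3 hE3 s' * QS.rest E3 hE3 s' = 1 := by rw [← map_mul, hs1'.sq, map_one]
    linear_combination -((QS.rest E3 hE3 (QS.rest E2 hE2 (QS.rest E1 hE1 (QS.rest E0 hE0 T))) *
        QS.rest E3 hE3 (QS.rest E2 hE2 (QS.rest E1 hE1 (QS.rest E0 hE0 (C i)))) -
        QS.rest E3 hE3 (QS.rest E2 hE2 (QS.rest E1 hE1 (QS.rest E0 hE0 (A i)))) *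
        QS.rest E3 hE3 (QS.rest E2 hE2 (QS.rest E1 hE1 (QS.rest E0 hE0 T')))) *
        (QS.rest E3 hE3 s' * QS.rest E3 hE3 s')) * q1 - (QS.rest E3 hE3 (QS.rest E2 hE2 (QS.rest E1 hE1 (QS.rest E0 hE0 T))) *
        QS.rest E3 hE3 (QS.rest E2 hE2 (QS.rest E1 hE1 (QS.rest E0 hE0 (C i)))) -
        QS.rest E3 hE3 (QS.rest E2 hE2 (QS.rest E1 hE1 (QS.rest E0 hE0 (A i)))) *
        QS.rest E3 hE3 (QS.rest E2 hE2 (QS.rest E1 hE1 (QS.rest E0 hE0 T')))) * q2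
  rw [e1]
  exact (Id _ _).mul_mem_left _ h2

end

end Pool.Agent.Helper70.FW
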