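import Pool.Agent.Helper70.FW.Sec3

/-! Theorem VW, end of the proof in the exact calculus: tubes over the stars; spectator stars. -/

set_option autoImplicit false

namespace Pool.Agent.Helper70.FW

open Finset Filter Topology Pool.Agent.Helper69.RK Pool.Agent.Helper31.EC Pool.Agent.Helper38.NS

noncomputable section

open Sp QS

variable {S : Sp} {ν : Type} [Fintype ν] {z : ν → QS S} {ρ : ℝ}
variable {ι : Type} [Fintype ι] {c : QS S} {f : ι → QS S} {z3 : ν → QS S} {T T' : QS S} {A C : ν → QS S}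

/-- tubes of level `l` and relative depth `κ` over an information `G` -/
def TubG (S : Sp) {ν : Type} [Fintype ν] (G : S.L) (T : QS S) (A a o : ν → QS S) (l κ : ℝ) : Prop :=
  vd a 1 ≤ G ⊔ dg T l ∧ vd o 1 ≤ G ⊔ dg T l ∧ ∀ i, A i - a i * T - o i ∈ Id S κ

theorem TubG.mono {G G' : S.L} {a o : ν → QS S} {l κ : ℝ} (h : TubG S G T A a o l κ) (hG : G ≤ G') :
    TubG S G' T A a o l κ :=
  ⟨h.1.trans (sup_le_sup_right hG _), h.2.1.trans (sup_le_sup_right hG _), h.2.2⟩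

theorem TubG.pull {G : S.L} {a o : ν → QS S} {l κ : ℝ} (h : TubG S G T A a o l κ) {D : Sp} (p : Pj D S) :
    TubG D (p.map G) (p.qs T) (fun i => p.qs (A i)) (fun i => p.qs (a i)) (fun i => p.qs (o i)) l κ := by
  obtain ⟨h1, h2, h3⟩ := h
  refine ⟨?_, ?_, ?_⟩
  · rw [p.qs_vd, p.qs_dg, ← p.map_sup]
    exact p.map_mono h1
  · rw [p.qs_vd, p.qs_dg, ← p.map_sup]
    exact p.map_mono h2
  · intro i
    rw [← map_mul, ← map_sub, ← map_sub]
    exact Pool.Agent.Helper82.TP.Pj_mem_Id p (h3 i)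

theorem TubG.tub {a o : ν → QS S} {l κ : ℝ} (h : TubG S (vd f 1) T A a o l κ) : Tub S f T A a o l κ :=
  ⟨h.1, h.2.1, h.2.2⟩

theorem Blk.pull (hb : Blk S c f z z3 T T' A C) {D : Sp} (p : Pj D S) :
    Blk D (p.qs c) (fun i => p.qs (f i)) (fun i => p.qs (z i)) (fun i => p.qs (z3 i)) (p.qs T) (p.qs T')
      (fun i => p.qs (A i)) (fun i => p.qs (C i)) where
  hc := by
    rcases hb.hc with h | h
    · left; rw [h, map_one]
    · right; rw [h, map_neg, map_one]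
  e := by
    intro i
    have h1 := congrArg p.qs (hb.e i)
    rw [map_add, map_mul, map_sub, map_mul, map_mul] at h1
    exact h1
  i1 := by
    rw [p.qs_vd, p.qs_vd, p.qs_vd, p.qs_vd, p.qs_dg, p.qs_dg, ← p.map_sup, ← p.map_sup, ← p.map_sup, p.I_map]
    exact hb.i1
  i2 := by
    rw [p.qs_vd, p.qs_vd, p.qs_vd, p.qs_vd, p.qs_dg, p.qs_dg, ← p.map_sup, ← p.map_sup, ← p.map_sup, p.I_map]
    exact hb.i2
  i3 := by
    rw [p.qs_vd, p.qs_vd, p.qs_vd, p.qs_dg, p.qs_dg, ← p.map_sup, ← p.map_sup, p.I_map]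
    exact hb.i3
  r1 := by
    rw [p.qs_vd, p.qs_dg, p.h_map]
    exact hb.r1
  r2 := by
    rw [p.qs_vd, p.qs_dg, p.h_map]
    exact hb.r2

/-- enlarging the base: if `E` is independent of `g` then independences inside `E` persist -/
theorem I_base {X Y F G : S.L} (h : I X Y F = 0) (hFG : F ≤ G) (hi : I (X ⊔ Y) G F = 0) : I X Y G = 0 := by
  have h1 : I (Y ⊔ X) G F = 0 := by rwa [sup_comm]
  have h2 := (I_decomp (ind_symm h1)).2
  -- I G X (Y ⊔ F) = 0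
  have h3 := ind_symm h2
  have h4 := I_contract h h3
  have h5 := (I_decomp (B := G) (D := Y) (by rwa [sup_comm] at h4)).2
  rwa [sup_eq_left.mpr hFG] at h5

theorem Blk.base (hb : Blk S c f z z3 T T' A C) {ι' : Type} [Fintype ι'] {g : ι' → QS S} (hfg : vd f 1 ≤ vd g 1)
    (hi : I (vd z 1 ⊔ vd z3 1 ⊔ (dg T 1 ⊔ vd A 1 ⊔ (dg T' 1 ⊔ vd C 1))) (vd g 1) (vd f 1) = 0) :
    Blk S c g z z3 T T' A C where
  hc := hb.hc
  e := hb.e
  i1 := I_base hb.i1 hfg (I_zero_mono hi (by order) le_sup_left)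
  i2 := I_base hb.i2 hfg (I_zero_mono hi (by order) le_sup_left)
  i3 := I_base hb.i3 hfg (I_zero_mono hi (by order) le_sup_left)
  r1 := by
    have h1 := I_zero_mono hi (A := dg T 1) (B := vd g 1) (by order) le_sup_left
    rw [I_zero_iff_h, sup_eq_left.mpr hfg] at h1
    rw [h1]
    exact hb.r1
  r2 := by
    have h1 := I_zero_mono hi (A := dg T' 1) (B := vd g 1) (by order) le_sup_left
    rw [I_zero_iff_h, sup_eq_left.mpr hfg] at h1
    rw [h1]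
    exact hb.r2

/-- **the spectator star**: a tube over the star `(f, z3, q)` is a tube over a base which is independent of
everything -/
theorem spect (hu : UQ S z (vd f 1) ρ) (hb : Blk S c f z z3 T T' A C) {a o : ν → QS S} {l κ : ℝ}
    (ht : TubG S (vd f 1 ⊔ vd z3 1 ⊔ (dg T' 1 ⊔ vd C 1)) T A a o l κ) :
    ∃ (D : Sp) (p : Pj D S) (ι' : Type) (_ : Fintype ι') (g : ι' → QS D) (a1 o1 : ν → QS D),
      p.map (vd f 1) ≤ vd g 1 ∧ UQ D (fun i => p.qs (z i)) (vd g 1) ρ ∧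
      Blk D (p.qs c) g (fun i => p.qs (z i)) (fun i => p.qs (z3 i)) (p.qs T) (p.qs T')
        (fun i => p.qs (A i)) (fun i => p.qs (C i)) ∧
      TubG D (vd g 1) (p.qs T) (fun i => p.qs (A i)) a1 o1 l κ := by
  obtain ⟨D, p1, p2, c1, c2, c3⟩ := exists_copyS (Sum.elim f (Sum.elim (fun _ : Unit => T) A))
  have cf : ∀ i, p1.qs (f i) = p2.qs (f i) := fun i => c1 (Sum.inl i)
  have cT : p1.qs T = p2.qs T := c1 (Sum.inr (Sum.inl ()))
  have cA : ∀ i, p1.qs (A i) = p2.qs (A i) := fun i => c1 (Sum.inr (Sum.inr i))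
  rw [vd_sum, vd_sum, vd_unit] at c2
  obtain ⟨g, hg⟩ : ∃ g : ι ⊕ (ν ⊕ (Unit ⊕ ν)) → QS D, g = Sum.elim (fun i => p2.qs (f i))
    (Sum.elim (fun i => p2.qs (z3 i)) (Sum.elim (fun _ => p2.qs T') (fun i => p2.qs (C i)))) := ⟨_, rfl⟩
  have hgv : vd g 1 = p2.map (vd f 1 ⊔ vd z3 1 ⊔ (dg T' 1 ⊔ vd C 1)) := by
    rw [hg, vd_sum, vd_sum, vd_sum, vd_unit, p2.map_sup, p2.map_sup, p2.map_sup, ← p2.qs_vd, ← p2.qs_vd, ← p2.qs_vd, p2.qs_dg]
    order
  have hf12 : p1.map (vd f 1) = p2.map (vd f 1) := by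
    rw [← p1.qs_vd, ← p2.qs_vd]
    exact vd_congr cf 1
  have hT12 : p1.map (dg T 1) = p2.map (dg T 1) := by
    rw [← p1.qs_dg, ← p2.qs_dg, cT]
  have hA12 : p1.map (vd A 1) = p2.map (vd A 1) := by
    rw [← p1.qs_vd, ← p2.qs_vd]
    exact vd_congr cA 1
  have hfg : p1.map (vd f 1) ≤ vd g 1 := by
    rw [hf12, hgv]
    exact p2.map_mono (by order)
  -- independence
  have key : ∀ X : S.L, I (p1.map X) (vd g 1) (p1.map (vd f 1)) = 0 := by
    intro X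
    have k1 : I (p1.map (vd f 1 ⊔ (dg T 1 ⊔ vd A 1))) (vd g 1) (p1.map (vd f 1)) = 0 := by
      have k2 : p1.map (vd f 1 ⊔ (dg T 1 ⊔ vd A 1)) = p2.map (vd f 1 ⊔ (dg T 1 ⊔ vd A 1)) := by
        rw [p1.map_sup, p1.map_sup, p2.map_sup, p2.map_sup, hf12, hT12, hA12]
      rw [k2, hf12, hgv, p2.I_map]
      exact I_zero_mono hb.ind (by order) (by order)
    have k3 := c2 X (vd f 1 ⊔ vd z3 1 ⊔ (dg T' 1 ⊔ vd C 1))
    rw [← hgv] at k3
    have k4 := ind_symm k1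
    have k5 := ind_symm k3
    have k6 : p1.map (vd f 1 ⊔ (dg T 1 ⊔ vd A 1)) ⊔ p1.map (vd f 1) = p1.map (vd f 1 ⊔ (dg T 1 ⊔ vd A 1)) := by
      rw [← p1.map_sup]
      congr 1
      order
    have k7 := I_contract (D := p1.map X) k4 (by rw [k6]; exact k5)
    exact ind_symm (I_zero_mono k7 le_sup_left (le_sup_right.trans le_sup_left))
  refine ⟨D, p1, _, inferInstance, g, fun i => p2.qs (a i), fun i => p2.qs (o i), hfg, ?_, ?_, ?_, ?_, ?_⟩
  · refine (hu.pull p1).mono hfg ?_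
    rw [p1.qs_vd]
    exact key _
  · refine (hb.pull p1).base ?_ ?_
    · rw [p1.qs_vd]
      exact hfg
    · rw [p1.qs_vd, p1.qs_vd, p1.qs_vd, p1.qs_vd, p1.qs_vd, p1.qs_dg, p1.qs_dg, ← p1.map_sup,
        ← p1.map_sup, ← p1.map_sup, ← p1.map_sup, ← p1.map_sup]
      exact key _
  · rw [hgv, p2.qs_vd, cT, p2.qs_dg, ← p2.map_sup]
    exact p2.map_mono ht.1
  · rw [hgv, p2.qs_vd, cT, p2.qs_dg, ← p2.map_sup]
    exact p2.map_mono ht.2.1
  · intro i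
    beta_reduce
    rw [cT, cA i, ← map_mul, ← map_sub, ← map_sub]
    exact Pool.Agent.Helper82.TP.Pj_mem_Id p2 (ht.2.2 i)

/-- **THEOREM VW, the end**: tubes over the stars on both sides -/
theorem end_star (hu : UQ S z (vd f 1) ρ) (hρ : 0 ≤ ρ) (hb : Blk S c f z z3 T T' A C) {a o a' o' : ν → QS S}
    {l κ : ℝ} (hl : 0 ≤ l) (hlk : l ≤ κ) (h0 : 0 < κ) (h1 : κ ≤ 1)
    (ht : TubG S (vd f 1 ⊔ vd z3 1 ⊔ (dg T' 1 ⊔ vd C 1)) T A a o l κ)
    (ht' : TubG S (vd f 1 ⊔ vd z3 1 ⊔ (dg T 1 ⊔ vd A 1)) T' C a' o' l κ) :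
    ∀ i, T * C i - A i * T' ∈ Id S (ρ * (ρ * κ - l) - l) := by
  obtain ⟨D, p, ι1, _, g, a1, o1, hfg, hu1, hb1, ht1⟩ := spect hu hb ht
  have ht2 := ht'.pull p
  have ht3 : TubG D (vd g 1 ⊔ vd (fun i => p.qs (z3 i)) 1 ⊔ (dg (p.qs T) 1 ⊔ vd (fun i => p.qs (A i)) 1)) (p.qs T')
      (fun i => p.qs (C i)) (fun i => p.qs (a' i)) (fun i => p.qs (o' i)) l κ := by
    refine ht2.mono ?_
    rw [p.map_sup, p.map_sup, p.map_sup, p.qs_dg, p.qs_vd, p.qs_vd]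
    exact sup_le_sup_right (sup_le_sup_right hfg _) _
  obtain ⟨D2, p2, ι2, _, g2, a2, o2, hfg2, hu2, hb2, ht4⟩ := spect hu1 hb1.swap ht3
  have ht5 := (ht1.pull p2).mono hfg2
  intro i
  have h2 := sec3 hu2 hρ hb2.swap hl hlk h0 h1 ht5.tub ht4.tub i
  have hθ : ρ * (ρ * κ - l) - l ≤ 1 := by
    have hρ1 := UQ_le_one hu i
    have h4 : ρ * κ ≤ 1 * κ := mul_le_mul_of_nonneg_right hρ1 h0.le
    rcases le_or_gt (ρ * κ - l) 0 with h6 | h6
    · have := mul_nonpos_of_nonneg_of_nonpos hρ h6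
      linarith
    · have : ρ * (ρ * κ - l) ≤ 1 * (ρ * κ - l) := mul_le_mul_of_nonneg_right hρ1 h6.le
      linarith
  have h3 : p2.qs (p.qs (T * C i - A i * T')) ∈ Id D2 (ρ * (ρ * κ - l) - l) := by
    simp only [map_sub, map_mul]
    exact h2
  rwa [p2.qs_mem_Id hθ, p.qs_mem_Id hθ] at h3

end

end Pool.Agent.Helper70.FW
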